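import Mathlib

/-!
MP_3ff0f8_gt (Ia_2 mod 2 => ID_4 mod 2), ALGEBRA HALF: definitions.  Squad 7.
All graphs are `SimpleGraph α` on one fixed finite type `α`; the vertex set of `G` is `G.support`.
-/

open SimpleGraph Finset

namespace DL

variable {α : Type*} [Fintype α] [DecidableEq α]

/-- edge vectors mod 2 -/
abbrev Chain (α : Type*) := Sym2 α → ZMod 2

/-- characteristic vector of a finite set of edges -/
def chi (C : Finset (Sym2 α)) : Chain α := fun e => if e ∈ C then 1 else 0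

/-- cycles of `G`, as edge sets -/
def IsCyc (G : SimpleGraph α) (C : Finset (Sym2 α)) : Prop :=
  ∃ (v : α) (w : G.Walk v v), w.IsCycle ∧ w.edges.toFinset = C

/-- paths of `G` from `s` to `t`, as edge sets -/
def IsPth (G : SimpleGraph α) (s t : α) (P : Finset (Sym2 α)) : Prop :=
  ∃ w : G.Walk s t, w.IsPath ∧ w.edges.toFinset = P

/-- the vertices covered by an edge set -/
def vs (C : Finset (Sym2 α)) : Finset α := univ.filter fun v => ∃ e ∈ C, v ∈ e

/-- `a` and `b` are connected by edges of `S` -/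
def Rch (S : Finset (Sym2 α)) (a b : α) : Prop :=
  (fromEdgeSet (S : Set (Sym2 α))).Reachable a b

open Classical in
/-- coherence: `C` contains `ab` and `cd` and passes from `a` to `b` and later from `c` to `d` (or the reverse) -/
noncomputable def coh (a b c d : α) (C : Finset (Sym2 α)) : ZMod 2 :=
  if s(a, b) ∈ C ∧ s(c, d) ∈ C ∧ Rch (C \ {s(a, b), s(c, d)}) b c then 1 else 0

open Classical in
/-- direction on `s`-paths: `P` starts in `s` and passes from `c` to `d` -/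
noncomputable def dirn (s c d : α) (P : Finset (Sym2 α)) : ZMod 2 :=
  if s(c, d) ∈ P ∧ Rch (P \ {s(c, d)}) s c then 1 else 0

/-- polynomial functions of degree at most `d` on an abelian group (differences) -/
def DegLE {A : Type*} [AddCommGroup A] : ℕ → (A → ZMod 2) → Prop
  | 0, f => ∀ a, f a = f 0
  | d + 1, f => ∀ v, DegLE d (fun a => f (a + v) + f a)

/-- cubic functions on the cycles of `G`: `P_3(G)` -/
def InP3 (G : SimpleGraph α) (f : Finset (Sym2 α) → ZMod 2) : Prop :=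
  ∃ p : Chain α → ZMod 2, DegLE 3 p ∧ p 0 = 0 ∧ ∀ C, IsCyc G C → f C = p (chi C)

/-- the space `F(G)`: cubic functions and the coherence functions -/
def InF (G : SimpleGraph α) (f : Finset (Sym2 α) → ZMod 2) : Prop :=
  ∃ p : Chain α → ZMod 2, DegLE 3 p ∧ p 0 = 0 ∧ ∃ l : α → α → α → α → ZMod 2,
    ∀ C, IsCyc G C → f C = p (chi C) + ∑ a, ∑ b, ∑ c, ∑ d, l a b c d * coh a b c d C

open Classical in
/-- the path of the forest `T` from `v` to `w`, as an edge set -/
noncomputable def tp (T : SimpleGraph α) (v w : α) : Finset (Sym2 α) :=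
  if h : ∃ P, IsPth T v w P then h.choose else ∅

/-- a `D_4` minor of `G`: four disjoint trees `T i` (vertex sets `X i`) and two different edges from `X i` to `X (i+1)` -/
structure D4M (G : SimpleGraph α) where
  X : Fin 4 → Finset α
  disj : ∀ i j, i ≠ j → Disjoint (X i) (X j)
  T : Fin 4 → SimpleGraph α
  sub : ∀ i, T i ≤ G
  inX : ∀ i v w, (T i).Adj v w → v ∈ X i
  conn : ∀ i, ∀ v ∈ X i, ∀ w ∈ X i, (T i).Reachable v w
  acyc : ∀ i, (T i).IsAcyclic
  p : Fin 4 → Bool → α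
  q : Fin 4 → Bool → α
  pX : ∀ i b, p i b ∈ X i
  qX : ∀ i b, q i b ∈ X (i + 1)
  adj : ∀ i b, G.Adj (p i b) (q i b)
  ne : ∀ i, s(p i false, q i false) ≠ s(p i true, q i true)

/-- the 16 cycles of a `D_4` minor -/
noncomputable def D4M.cyc {G : SimpleGraph α} (D : D4M G) (e : Fin 4 → Bool) : Finset (Sym2 α) :=
  (univ.image fun i => s(D.p i (e i), D.q i (e i))) ∪
    univ.biUnion fun i : Fin 4 => tp (D.T (i + 1)) (D.q i (e i)) (D.p (i + 1) (e (i + 1)))

/-- `D_4`-even functions -/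
def D4even (G : SimpleGraph α) (f : Finset (Sym2 α) → ZMod 2) : Prop :=
  ∀ D : D4M G, ∑ e : Fin 4 → Bool, f (D.cyc e) = 0

/-- `U(G)=0`: `D4(G)^⊥ = F(G)` -/
def U (G : SimpleGraph α) : Prop := ∀ f, D4even G f → InF G f

/-! ## Connectivity -/

/-- `G` without the vertices of `S` -/
def del (G : SimpleGraph α) (S : Finset α) : SimpleGraph α where
  Adj a b := G.Adj a b ∧ a ∉ S ∧ b ∉ S
  symm := ⟨fun _ _ h => ⟨h.1.symm, h.2.2, h.2.1⟩⟩
  loopless := ⟨fun _ h => h.1.ne rfl⟩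

/-- the vertex set -/
noncomputable def VS (G : SimpleGraph α) : Finset α := by
  classical exact univ.filter fun v => v ∈ G.support

/-- `G - S` is connected (on the vertices of `G` outside `S`) -/
def ConnOff (G : SimpleGraph α) (S : Finset α) : Prop :=
  ∀ a ∈ VS G, ∀ b ∈ VS G, a ∉ S → b ∉ S → (del G S).Reachable a b

/-- `k`-connected -/
def KConn (k : ℕ) (G : SimpleGraph α) : Prop :=
  k < (VS G).card ∧ ∀ S : Finset α, S.card < k → ConnOff G S

/-- separation: `S, P, Q` partition the vertex set, no edges between `P` and `Q` -/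
def Sep (G : SimpleGraph α) (S P Q : Finset α) : Prop :=
  S ∪ P ∪ Q = VS G ∧ Disjoint S P ∧ Disjoint S Q ∧ Disjoint P Q ∧ ∀ a ∈ P, ∀ b ∈ Q, ¬ G.Adj a b

/-- class `C1`: 3-connected, every separation of order 3 has a side with at most one vertex -/
def C1 (G : SimpleGraph α) : Prop :=
  KConn 3 G ∧ ∀ S P Q, Sep G S P Q → S.card = 3 → P.card ≤ 1 ∨ Q.card ≤ 1

/-! ## Two-cycles of the unordered deleted product -/

/-- no common vertex -/
def Dj (e f : Sym2 α) : Prop := ∀ v, ¬ (v ∈ e ∧ v ∈ f)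

open Classical in
/-- `Z_2(G)`: symmetric functions on pairs of disjoint edges with `z(e,·)` a cycle of `G - e⁻ - e⁺` -/
def IsZ2 (G : SimpleGraph α) (z : Sym2 α → Sym2 α → ZMod 2) : Prop :=
  (∀ e f, z e f = z f e) ∧ (∀ e f, z e f ≠ 0 → e ∈ G.edgeSet ∧ f ∈ G.edgeSet ∧ Dj e f) ∧
  ∀ e, ∀ v, v ∉ e → ∑ f ∈ univ.filter (fun f => v ∈ f), z e f = 0

/-- van Kampen number of a 2-cycle, for the vertex order given by `r` (injective): number of interleaving pairs -/
def vk (r : α → ℕ) (z : Sym2 α → Sym2 α → ZMod 2) : ZMod 2 :=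
  ∑ a, ∑ b, ∑ c, ∑ d, if r a < r c ∧ r c < r b ∧ r b < r d then z s(a, b) s(c, d) else 0

/-- `G` is nonplanar: the van Kampen class is not zero on `Z_2(G)` (independent of `r`) -/
def NP (G : SimpleGraph α) : Prop :=
  ∃ r : α → ℕ, Function.Injective r ∧ ∃ z, IsZ2 G z ∧ vk r z ≠ 0

/-- `K(G)=0`: a combination of coherence functions which is cubic kills `Z_2(G)` -/
def KZ (G : SimpleGraph α) : Prop :=
  ∀ l : α → α → α → α → ZMod 2,
    InP3 G (fun C => ∑ a, ∑ b, ∑ c, ∑ d, l a b c d * coh a b c d C) →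
      ∀ z, IsZ2 G z → ∑ a, ∑ b, ∑ c, ∑ d, l a b c d * z s(a, b) s(c, d) = 0

/-- the simple graph `G/ab`; the new vertex is `a` -/
def contr (G : SimpleGraph α) (a b : α) : SimpleGraph α where
  Adj u w := u ≠ b ∧ w ≠ b ∧ u ≠ w ∧ (G.Adj u w ∨ (u = a ∧ G.Adj b w) ∨ (w = a ∧ G.Adj u b))
  symm := ⟨fun u w h => ⟨h.2.1, h.1, h.2.2.1.symm, by
    rcases h.2.2.2 with h1 | ⟨h1, h2⟩ | ⟨h1, h2⟩
    · exact Or.inl h1.symm
    · exact Or.inr (Or.inr ⟨h1, h2.symm⟩)
    · exact Or.inr (Or.inl ⟨h1, h2.symm⟩)⟩⟩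
  loopless := ⟨fun _ h => h.2.2.1 rfl⟩

/-- `G - ab` (edge deletion) -/
def delE (G : SimpleGraph α) (a b : α) : SimpleGraph α := G.deleteEdges {s(a, b)}

/-- internally 4-connected in the sense of TOP.md section 0 (what Theorem T asks for) -/
def I4C (G : SimpleGraph α) : Prop :=
  KConn 3 G ∧ (∀ S P Q, Sep G S P Q → S.card = 3 → P.card ≤ 1 ∨ Q.card ≤ 1) ∧
  (∀ v a b, G.Adj v a → G.Adj v b → G.Adj a b → ∃ c d, G.Adj v c ∧ G.Adj v d ∧ c ≠ d ∧ c ≠ a ∧ c ≠ b ∧ d ≠ a ∧ d ≠ b)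

/-- THEOREM C (nonplanar internally 4-connected graphs) -/
def TheoremC : Prop :=
  ∀ (N : ℕ) (G : SimpleGraph (Fin N)), I4C G → NP G → U G

end DL
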