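import Pool.Agent.DL.Defs

/-!
MP_3ff0f8_gt, ALGEBRA HALF: the cycle space `Z_1(G)`.
-/

open SimpleGraph Finset

namespace DL

variable {α : Type*} [Fintype α] [DecidableEq α]

open Classical in
/-- boundary mod 2 -/
noncomputable def bdy (c : Chain α) (v : α) : ZMod 2 := ∑ e ∈ univ.filter (fun e => v ∈ e), c e

/-- the cycle space `Z_1(G; F_2)` -/
noncomputable def Z1 (G : SimpleGraph α) : Submodule (ZMod 2) (Chain α) where
  carrier := {c | (∀ e, c e ≠ 0 → e ∈ G.edgeSet) ∧ ∀ v, bdy c v = 0}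
  add_mem' := by
    rintro a b ⟨ha, ha'⟩ ⟨hb, hb'⟩
    refine ⟨fun e he => ?_, fun v => ?_⟩
    · by_contra h
      have h1 : a e = 0 := by_contra fun h' => h (ha e h')
      have h2 : b e = 0 := by_contra fun h' => h (hb e h')
      exact he (by simp [h1, h2])
    · have h1 := ha' v
      have h2 := hb' v
      simp only [bdy] at h1 h2 ⊢
      simp only [Pi.add_apply, sum_add_distrib, h1, h2, add_zero]
  zero_mem' := ⟨fun e he => (he rfl).elim, fun v => by simp [bdy]⟩
  smul_mem' := by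
    rintro r a ⟨ha, ha'⟩
    refine ⟨fun e he => ?_, fun v => ?_⟩
    · apply ha
      intro h
      exact he (by simp [h])
    · have h1 := ha' v
      simp only [bdy] at h1 ⊢
      simp only [Pi.smul_apply, smul_eq_mul, ← mul_sum, h1, mul_zero]

theorem mem_Z1 {G : SimpleGraph α} {c : Chain α} :
    c ∈ Z1 G ↔ (∀ e, c e ≠ 0 → e ∈ G.edgeSet) ∧ ∀ v, bdy c v = 0 := Iff.rfl

end DL
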