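import Mathlib
import Pool.Agent.DL.Defs
import Pool.Agent.DL.Z1

/-!
MP_3ff0f8_gt, ALGEBRA HALF: paths and cycles as edge sets.  (helper59)

Part a: `vs`, paths.  Part b: cycles.  Part c: boundary, `Z1`.
-/

open SimpleGraph Finset

namespace DL

set_option linter.unusedSectionVars false
set_option linter.unusedFintypeInType false
set_option linter.unusedDecidableInType false

variable {α : Type*} [Fintype α] [DecidableEq α] {G H : SimpleGraph α}

/-! ## a0. The vertices of an edge set -/

theorem mem_vs {C : Finset (Sym2 α)} {v : α} : v ∈ vs C ↔ ∃ e ∈ C, v ∈ e := by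
  simp [vs]

theorem vs_mono {C D : Finset (Sym2 α)} (h : C ⊆ D) : vs C ⊆ vs D := by
  intro v hv
  rw [mem_vs] at *
  obtain ⟨e, he, hv⟩ := hv
  exact ⟨e, h he, hv⟩

@[simp] theorem vs_empty : vs (∅ : Finset (Sym2 α)) = ∅ := by
  ext v; simp [mem_vs]

theorem vs_union (C D : Finset (Sym2 α)) : vs (C ∪ D) = vs C ∪ vs D := by
  ext v
  simp only [mem_vs, mem_union, or_and_right, exists_or]

theorem mem_vs_union {C D : Finset (Sym2 α)} {v : α} : v ∈ vs (C ∪ D) ↔ v ∈ vs C ∨ v ∈ vs D := by
  rw [vs_union, mem_union]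

theorem vs_singleton (a b : α) : vs ({s(a, b)} : Finset (Sym2 α)) = {a, b} := by
  ext v; simp [mem_vs]

theorem vs_insert (a b : α) (C : Finset (Sym2 α)) : vs (insert s(a, b) C) = {a, b} ∪ vs C := by
  rw [insert_eq, vs_union, vs_singleton]

theorem left_mem_vs {C : Finset (Sym2 α)} {a b : α} (h : s(a, b) ∈ C) : a ∈ vs C :=
  mem_vs.2 ⟨_, h, by simp⟩

theorem right_mem_vs {C : Finset (Sym2 α)} {a b : α} (h : s(a, b) ∈ C) : b ∈ vs C :=
  mem_vs.2 ⟨_, h, by simp⟩

theorem vs_nonempty {C : Finset (Sym2 α)} (h : C.Nonempty) : (vs C).Nonempty := by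
  obtain ⟨e, he⟩ := h
  induction e using Sym2.ind with
  | _ a b => exact ⟨a, left_mem_vs he⟩

theorem vs_eq_empty {C : Finset (Sym2 α)} : vs C = ∅ ↔ C = ∅ := by
  constructor
  · intro h
    by_contra hne
    have := vs_nonempty (nonempty_iff_ne_empty.2 hne)
    rw [h] at this
    exact absurd this (by simp)
  · rintro rfl; simp

/-- edge sets without common vertices have no common edges -/
theorem disjoint_of_vs {C D : Finset (Sym2 α)} (h : Disjoint (vs C) (vs D)) : Disjoint C D := by
  rw [Finset.disjoint_left]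
  intro e he he'
  induction e using Sym2.ind with
  | _ a b => exact Finset.disjoint_left.1 h (left_mem_vs he) (left_mem_vs he')

/-- edge sets of a simple graph with at most one common vertex have no common edges -/
theorem disjoint_of_vs_subset {C D : Finset (Sym2 α)} {x : α} (hC : ∀ e ∈ C, ¬ e.IsDiag)
    (h : vs C ∩ vs D ⊆ {x}) : Disjoint C D := by
  rw [Finset.disjoint_left]
  intro e he he'
  induction e using Sym2.ind with
  | _ a b =>
    have ha : a = x := by simpa using h (mem_inter.2 ⟨left_mem_vs he, left_mem_vs he'⟩)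
    have hb : b = x := by simpa using h (mem_inter.2 ⟨right_mem_vs he, right_mem_vs he'⟩)
    exact hC _ he (by rw [ha, hb]; simp)

theorem mem_support_iff_vs {s t : α} (w : G.Walk s t) (x : α) :
    x ∈ w.support ↔ x = s ∨ x ∈ vs w.edges.toFinset := by
  induction w with
  | nil => simp
  | @cons u v t h p ih =>
    rw [Walk.support_cons, List.mem_cons, ih, Walk.edges_cons, List.toFinset_cons, vs_insert]
    simp only [mem_union, mem_insert, mem_singleton]
    tauto

theorem mem_support_iff_vs' {s t : α} (w : G.Walk s t) (x : α) :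
    x ∈ w.support ↔ x = t ∨ x ∈ vs w.edges.toFinset := by
  have := mem_support_iff_vs w.reverse x
  rw [Walk.support_reverse, Walk.edges_reverse, List.toFinset_reverse, List.mem_reverse] at this
  exact this

/-! ## a. Paths -/

theorem IsPth.symm {s t : α} {P : Finset (Sym2 α)} (h : IsPth G s t P) : IsPth G t s P := by
  obtain ⟨w, hw, rfl⟩ := h
  exact ⟨w.reverse, hw.reverse, by rw [Walk.edges_reverse, List.toFinset_reverse]⟩

theorem isPth_comm {s t : α} {P : Finset (Sym2 α)} : IsPth G s t P ↔ IsPth G t s P :=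
  ⟨IsPth.symm, IsPth.symm⟩

theorem IsPth.nil (s : α) : IsPth G s s ∅ := ⟨Walk.nil, Walk.IsPath.nil, rfl⟩

theorem IsPth.eq_empty {s : α} {P : Finset (Sym2 α)} (h : IsPth G s s P) : P = ∅ := by
  obtain ⟨w, hw, rfl⟩ := h
  cases w with
  | nil => rfl
  | cons h p => rw [Walk.cons_isPath_iff] at hw; exact absurd p.end_mem_support hw.2

theorem isPth_self {s : α} {P : Finset (Sym2 α)} : IsPth G s s P ↔ P = ∅ :=
  ⟨IsPth.eq_empty, by rintro rfl; exact IsPth.nil s⟩

theorem IsPth.eq_of_empty {s t : α} (h : IsPth G s t ∅) : s = t := by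
  obtain ⟨w, _, hw'⟩ := h
  cases w with
  | nil => rfl
  | cons h p => simp at hw'

theorem IsPth.nonempty {s t : α} {P : Finset (Sym2 α)} (h : IsPth G s t P) (hst : s ≠ t) :
    P.Nonempty := by
  rw [nonempty_iff_ne_empty]
  rintro rfl
  exact hst h.eq_of_empty

theorem IsPth.eq_empty_iff {s t : α} {P : Finset (Sym2 α)} (h : IsPth G s t P) :
    P = ∅ ↔ s = t :=
  ⟨by rintro rfl; exact h.eq_of_empty, by rintro rfl; exact h.eq_empty⟩

theorem IsPth.subset {s t : α} {P : Finset (Sym2 α)} (h : IsPth G s t P) :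
    ∀ e ∈ P, e ∈ G.edgeSet := by
  obtain ⟨w, _, rfl⟩ := h
  intro e he
  exact w.edges_subset_edgeSet (List.mem_toFinset.1 he)

theorem IsPth.adj_of_mem {s t a b : α} {P : Finset (Sym2 α)} (h : IsPth G s t P)
    (hab : s(a, b) ∈ P) : G.Adj a b := h.subset _ hab

theorem IsPth.not_isDiag {s t : α} {P : Finset (Sym2 α)} (h : IsPth G s t P) :
    ∀ e ∈ P, ¬ e.IsDiag := fun e he => G.not_isDiag_of_mem_edgeSet (h.subset e he)

/-- a path of `G` with all edges in `H` is a path of `H` -/
theorem IsPth.transfer {s t : α} {P : Finset (Sym2 α)} (h : IsPth G s t P)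
    (hP : ∀ e ∈ P, e ∈ H.edgeSet) : IsPth H s t P := by
  obtain ⟨w, hw, rfl⟩ := h
  have hw' : ∀ e ∈ w.edges, e ∈ H.edgeSet := fun e he => hP e (List.mem_toFinset.2 he)
  exact ⟨w.transfer H hw', hw.transfer hw', by rw [Walk.edges_transfer]⟩

theorem IsPth.mono {s t : α} {P : Finset (Sym2 α)} (h : IsPth G s t P) (hGH : G ≤ H) :
    IsPth H s t P :=
  h.transfer fun e he => edgeSet_mono hGH (h.subset e he)

theorem IsPth.edge {a b : α} (h : G.Adj a b) : IsPth G a b {s(a, b)} :=
  ⟨h.toWalk, Walk.IsPath.of_adj h, by simp⟩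

theorem IsPth.left_mem {s t : α} {P : Finset (Sym2 α)} (h : IsPth G s t P) (hst : s ≠ t) :
    s ∈ vs P := by
  obtain ⟨w, hw, rfl⟩ := h
  have h1 := w.start_mem_support
  rw [mem_support_iff_vs'] at h1
  exact h1.resolve_left hst

theorem IsPth.right_mem {s t : α} {P : Finset (Sym2 α)} (h : IsPth G s t P) (hst : s ≠ t) :
    t ∈ vs P := h.symm.left_mem hst.symm

theorem IsPth.left_mem' {s t : α} {P : Finset (Sym2 α)} (h : IsPth G s t P) (hP : P.Nonempty) :
    s ∈ vs P := h.left_mem fun e => by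
  subst e; rw [h.eq_empty] at hP; exact absurd hP (by simp)

theorem IsPth.right_mem' {s t : α} {P : Finset (Sym2 α)} (h : IsPth G s t P) (hP : P.Nonempty) :
    t ∈ vs P := h.symm.left_mem' hP

/-- prolongation of a path at the start -/
theorem IsPth.cons {u s t : α} {P : Finset (Sym2 α)} (hus : G.Adj u s) (h : IsPth G s t P)
    (hu : u ∉ vs P) : IsPth G u t (insert s(u, s) P) := by
  obtain ⟨w, hw, rfl⟩ := h
  refine ⟨Walk.cons hus w, ?_, by simp⟩
  rw [Walk.cons_isPath_iff]
  refine ⟨hw, ?_⟩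
  rw [mem_support_iff_vs]
  rintro (h | h)
  · exact hus.ne h
  · exact hu h

/-- prolongation of a path at the end -/
theorem IsPth.concat {s t u : α} {P : Finset (Sym2 α)} (h : IsPth G s t P) (htu : G.Adj t u)
    (hu : u ∉ vs P) : IsPth G s u (insert s(t, u) P) := by
  have := (h.symm.cons htu.symm hu).symm
  rwa [Sym2.eq_swap] at this

/-- the first edge of a path -/
theorem IsPth.uncons {s t : α} {P : Finset (Sym2 α)} (h : IsPth G s t P) (hst : s ≠ t) :
    ∃ u, G.Adj s u ∧ s(s, u) ∈ P ∧ s ∉ vs (P \ {s(s, u)}) ∧ IsPth G u t (P \ {s(s, u)}) := by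
  obtain ⟨w, hw, rfl⟩ := h
  cases w with
  | nil => exact absurd rfl hst
  | @cons _ u _ h p =>
    rw [Walk.cons_isPath_iff] at hw
    have hs : s ∉ vs p.edges.toFinset := fun hs => hw.2 ((mem_support_iff_vs p s).2 (Or.inr hs))
    have hnot : s(s, u) ∉ p.edges.toFinset := fun h => hs (left_mem_vs h)
    have he : (Walk.cons h p).edges.toFinset \ {s(s, u)} = p.edges.toFinset := by
      rw [Walk.edges_cons, List.toFinset_cons, insert_sdiff_of_mem _ (by simp),
        sdiff_singleton_eq_erase, erase_eq_of_notMem hnot]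
    refine ⟨u, h, by simp, ?_, ?_⟩
    · rw [he]; exact hs
    · rw [he]; exact ⟨p, hw.1, rfl⟩

/-- induction on paths from the start -/
theorem IsPth.rec_left {t : α} {motive : α → Finset (Sym2 α) → Prop}
    (nil : motive t ∅)
    (cons : ∀ u s P, G.Adj u s → u ∉ vs P → u ≠ t → IsPth G s t P → motive s P →
      motive u (insert s(u, s) P)) :
    ∀ {s : α} {P : Finset (Sym2 α)}, IsPth G s t P → motive s P := by
  intro s P h
  obtain ⟨w, hw, rfl⟩ := h
  induction w with
  | nil => exact nil
  | @cons a b c h p ih =>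
    have hcopy := hw
    rw [Walk.cons_isPath_iff] at hw
    have hs : a ∉ vs p.edges.toFinset := fun hs => hw.2 ((mem_support_iff_vs p a).2 (Or.inr hs))
    have hac : a ≠ c := fun e => hw.2 (e ▸ p.end_mem_support)
    have := cons a b p.edges.toFinset h hs hac ⟨p, hw.1, rfl⟩ (ih nil cons hw.1)
    rwa [Walk.edges_cons, List.toFinset_cons]

/-- the first edge is unique -/
theorem IsPth.left_unique {s t x y : α} {P : Finset (Sym2 α)} (h : IsPth G s t P)
    (hx : s(s, x) ∈ P) (hy : s(s, y) ∈ P) : x = y := by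
  by_cases hst : s = t
  · subst hst; rw [h.eq_empty] at hx; simp at hx
  obtain ⟨u, _, _, hu, _⟩ := h.uncons hst
  have key : ∀ z, s(s, z) ∈ P → z = u := by
    intro z hz
    by_contra hne
    apply hu
    apply left_mem_vs (b := z)
    rw [mem_sdiff, mem_singleton]
    refine ⟨hz, fun e => ?_⟩
    rw [Sym2.eq_iff] at e
    rcases e with ⟨_, e⟩ | ⟨e1, e2⟩
    · exact hne e
    · exact hne (e2.trans e1)
  rw [key x hx, key y hy]

theorem IsPth.right_unique {s t x y : α} {P : Finset (Sym2 α)} (h : IsPth G s t P)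
    (hx : s(x, t) ∈ P) (hy : s(y, t) ∈ P) : x = y := by
  rw [Sym2.eq_swap] at hx hy
  exact h.symm.left_unique hx hy

/-- a path containing the edge joining its ends is this edge -/
theorem IsPth.eq_singleton {s t : α} {P : Finset (Sym2 α)} (h : IsPth G s t P)
    (hx : s(s, t) ∈ P) : P = {s(s, t)} := by
  have hst : s ≠ t := (h.adj_of_mem hx).ne
  obtain ⟨u, _, hu1, hu2, hu3⟩ := h.uncons hst
  have : t = u := h.left_unique hx hu1
  subst this
  have h0 := hu3.eq_empty
  rw [sdiff_eq_empty_iff_subset] at h0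
  exact Subset.antisymm h0 (by simpa using hx)

/-- concatenation -/
theorem IsPth.append {a b c : α} {P Q : Finset (Sym2 α)} (hP : IsPth G a b P)
    (hQ : IsPth G b c Q) (h : vs P ∩ vs Q ⊆ {b}) : IsPth G a c (P ∪ Q) := by
  revert h
  refine IsPth.rec_left (motive := fun a P => vs P ∩ vs Q ⊆ {b} → IsPth G a c (P ∪ Q)) ?_ ?_ hP
  · intro _; simpa using hQ
  · intro u s P hus hu hub hsb ih h
    rw [vs_insert] at h
    have h1 : IsPth G s c (P ∪ Q) := ih fun x hx => h (by
      rw [mem_inter] at hx ⊢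
      exact ⟨mem_union_right _ hx.1, hx.2⟩)
    rw [insert_union]
    refine h1.cons hus ?_
    rw [mem_vs_union]
    rintro (h2 | h2)
    · exact hu h2
    · have := h (mem_inter.2 ⟨mem_union_left _ (by simp), h2⟩)
      exact hub (by simpa using this)

theorem IsPth.append_disjoint {a b c : α} {P Q : Finset (Sym2 α)} (hP : IsPth G a b P)
    (h : vs P ∩ vs Q ⊆ {c}) : Disjoint P Q :=
  disjoint_of_vs_subset hP.not_isDiag h

/-- splitting a path at a vertex -/
theorem IsPth.split {s t v : α} {P : Finset (Sym2 α)} (h : IsPth G s t P)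
    (hv : v = s ∨ v ∈ vs P) :
    ∃ P1 P2, IsPth G s v P1 ∧ IsPth G v t P2 ∧ P1 ∪ P2 = P ∧ Disjoint P1 P2 ∧
      vs P1 ∩ vs P2 ⊆ {v} := by
  revert hv
  refine IsPth.rec_left (motive := fun s P => (v = s ∨ v ∈ vs P) →
    ∃ P1 P2, IsPth G s v P1 ∧ IsPth G v t P2 ∧ P1 ∪ P2 = P ∧ Disjoint P1 P2 ∧
      vs P1 ∩ vs P2 ⊆ {v}) ?_ ?_ h
  · rintro (rfl | hv)
    · exact ⟨∅, ∅, IsPth.nil _, IsPth.nil _, by simp, by simp, by simp⟩
    · simp at hv
  · intro u s P hus hu hut hP ih hv
    by_cases hvu : v = u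
    · subst hvu
      exact ⟨∅, insert s(v, s) P, IsPth.nil _, hP.cons hus hu, by simp, by simp, by simp⟩
    · have hv' : v = s ∨ v ∈ vs P := by
        rcases hv with hv | hv
        · exact absurd hv hvu
        · rw [vs_insert] at hv
          simp only [mem_union, mem_insert, mem_singleton] at hv
          tauto
      obtain ⟨P1, P2, h1, h2, h3, h4, h5⟩ := ih hv'
      have hu1 : u ∉ vs P1 := fun h => hu (vs_mono (h3 ▸ subset_union_left) h)
      have hu2 : u ∉ vs P2 := fun h => hu (vs_mono (h3 ▸ subset_union_right) h)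
      refine ⟨insert s(u, s) P1, P2, h1.cons hus hu1, h2, by rw [insert_union, h3], ?_, ?_⟩
      · rw [disjoint_insert_left]
        exact ⟨fun h => hu2 (left_mem_vs h), h4⟩
      · intro x hx
        rw [mem_inter, vs_insert] at hx
        simp only [mem_union, mem_insert, mem_singleton] at hx
        obtain ⟨(rfl | rfl) | hx1, hx2⟩ := hx
        · exact absurd hx2 hu2
        · by_cases hxv : x = v
          · simp [hxv]
          · exact h5 (mem_inter.2 ⟨h1.left_mem hxv, hx2⟩)
        · exact h5 (mem_inter.2 ⟨hx1, hx2⟩)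

/-- two vertex sets of a split path cover -/
theorem vs_split {P P1 P2 : Finset (Sym2 α)} (h : P1 ∪ P2 = P) : vs P1 ∪ vs P2 = vs P := by
  rw [← h, vs_union]

/-- the first vertex of a path in a set `X` -/
theorem IsPth.first {s t : α} {P : Finset (Sym2 α)} (h : IsPth G s t P) {X : Set α}
    (hX : s ∈ X ∨ ∃ v ∈ vs P, v ∈ X) :
    ∃ v P1 P2, v ∈ X ∧ IsPth G s v P1 ∧ IsPth G v t P2 ∧ P1 ∪ P2 = P ∧ Disjoint P1 P2 ∧
      vs P1 ∩ vs P2 ⊆ {v} ∧ (∀ x ∈ vs P1, x ∈ X → x = v) ∧ (s ∈ X → v = s) := by
  classical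
  revert hX
  refine IsPth.rec_left (motive := fun s P => (s ∈ X ∨ ∃ v ∈ vs P, v ∈ X) →
    ∃ v P1 P2, v ∈ X ∧ IsPth G s v P1 ∧ IsPth G v t P2 ∧ P1 ∪ P2 = P ∧ Disjoint P1 P2 ∧
      vs P1 ∩ vs P2 ⊆ {v} ∧ (∀ x ∈ vs P1, x ∈ X → x = v) ∧ (s ∈ X → v = s)) ?_ ?_ h
  · rintro (h | ⟨v, hv, _⟩)
    · exact ⟨t, ∅, ∅, h, IsPth.nil _, IsPth.nil _, by simp, by simp, by simp, by simp, by simp⟩
    · simp at hv
  · intro u s P hus hu hut hP ih hX
    by_cases huX : u ∈ X
    · exact ⟨u, ∅, insert s(u, s) P, huX, IsPth.nil _, hP.cons hus hu, by simp, by simp, by simp,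
        by simp, by simp⟩
    · have hX' : s ∈ X ∨ ∃ v ∈ vs P, v ∈ X := by
        rcases hX with hX | ⟨v, hv, hvX⟩
        · exact absurd hX huX
        · rw [vs_insert] at hv
          simp only [mem_union, mem_insert, mem_singleton] at hv
          rcases hv with (rfl | rfl) | hv
          · exact absurd hvX huX
          · exact Or.inl hvX
          · exact Or.inr ⟨v, hv, hvX⟩
      obtain ⟨v, P1, P2, hvX, h1, h2, h3, h4, h5, h6, h7⟩ := ih hX'
      have hu1 : u ∉ vs P1 := fun h => hu (vs_mono (h3 ▸ subset_union_left) h)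
      have hu2 : u ∉ vs P2 := fun h => hu (vs_mono (h3 ▸ subset_union_right) h)
      refine ⟨v, insert s(u, s) P1, P2, hvX, h1.cons hus hu1, h2, by rw [insert_union, h3], ?_, ?_,
        ?_, fun h => absurd h huX⟩
      · rw [disjoint_insert_left]
        exact ⟨fun h => hu2 (left_mem_vs h), h4⟩
      · intro x hx
        rw [mem_inter, vs_insert] at hx
        simp only [mem_union, mem_insert, mem_singleton] at hx
        obtain ⟨(rfl | rfl) | hx1, hx2⟩ := hx
        · exact absurd hx2 hu2
        · by_cases hxv : x = v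
          · simp [hxv]
          · exact h5 (mem_inter.2 ⟨h1.left_mem hxv, hx2⟩)
        · exact h5 (mem_inter.2 ⟨hx1, hx2⟩)
      · intro x hx hxX
        rw [vs_insert] at hx
        simp only [mem_union, mem_insert, mem_singleton] at hx
        rcases hx with (rfl | rfl) | hx
        · exact absurd hxX huX
        · exact (h7 hxX).symm
        · exact h6 x hx hxX

/-- paths of `G - S` -/
theorem isPth_del {s t : α} {P : Finset (Sym2 α)} {S : Finset α} :
    IsPth (del G S) s t P ↔ IsPth G s t P ∧ Disjoint (vs P) S := by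
  constructor
  · intro h
    refine ⟨h.mono fun a b hab => hab.1, ?_⟩
    rw [Finset.disjoint_left]
    intro x hx hxS
    obtain ⟨e, he, hxe⟩ := mem_vs.1 hx
    have := h.subset e he
    induction e using Sym2.ind with
    | _ a b =>
      have h2 : (del G S).Adj a b := this
      rw [Sym2.mem_iff] at hxe
      rcases hxe with rfl | rfl
      · exact h2.2.1 hxS
      · exact h2.2.2 hxS
  · rintro ⟨h, hS⟩
    refine h.transfer fun e he => ?_
    induction e using Sym2.ind with
    | _ a b =>
      exact ⟨h.subset _ he, Finset.disjoint_left.1 hS (left_mem_vs he),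
        Finset.disjoint_left.1 hS (right_mem_vs he)⟩

/-- paths of `G - e` -/
theorem isPth_deleteEdges {s t : α} {P : Finset (Sym2 α)} {S : Set (Sym2 α)} :
    IsPth (G.deleteEdges S) s t P ↔ IsPth G s t P ∧ ∀ e ∈ P, e ∉ S := by
  constructor
  · intro h
    refine ⟨h.mono (deleteEdges_le _), fun e he => ?_⟩
    have := h.subset e he
    rw [edgeSet_deleteEdges] at this
    exact this.2
  · rintro ⟨h, hS⟩
    refine h.transfer fun e he => ?_
    rw [edgeSet_deleteEdges]
    exact ⟨h.subset e he, hS e he⟩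

/-- reachable vertices are joined by a path -/
theorem exists_isPth {s t : α} (h : G.Reachable s t) : ∃ P, IsPth G s t P := by
  classical
  obtain ⟨w⟩ := h
  exact ⟨w.bypass.edges.toFinset, w.bypass, w.bypass_isPath, rfl⟩

theorem IsPth.reachable {s t : α} {P : Finset (Sym2 α)} (h : IsPth G s t P) :
    G.Reachable s t := by
  obtain ⟨w, _, _⟩ := h
  exact ⟨w⟩

theorem reachable_iff_isPth {s t : α} : G.Reachable s t ↔ ∃ P, IsPth G s t P :=
  ⟨exists_isPth, fun ⟨_, h⟩ => h.reachable⟩

/-! ## b. Cycles -/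

theorem IsCyc.subset {C : Finset (Sym2 α)} (h : IsCyc G C) : ∀ e ∈ C, e ∈ G.edgeSet := by
  obtain ⟨v, w, _, rfl⟩ := h
  intro e he
  exact w.edges_subset_edgeSet (List.mem_toFinset.1 he)

theorem IsCyc.adj_of_mem {a b : α} {C : Finset (Sym2 α)} (h : IsCyc G C)
    (hab : s(a, b) ∈ C) : G.Adj a b := h.subset _ hab

theorem IsCyc.not_isDiag {C : Finset (Sym2 α)} (h : IsCyc G C) :
    ∀ e ∈ C, ¬ e.IsDiag := fun e he => G.not_isDiag_of_mem_edgeSet (h.subset e he)

/-- a cycle of `G` with all edges in `H` is a cycle of `H` -/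
theorem IsCyc.transfer {C : Finset (Sym2 α)} (h : IsCyc G C)
    (hC : ∀ e ∈ C, e ∈ H.edgeSet) : IsCyc H C := by
  obtain ⟨v, w, hw, rfl⟩ := h
  have hw' : ∀ e ∈ w.edges, e ∈ H.edgeSet := fun e he => hC e (List.mem_toFinset.2 he)
  exact ⟨v, w.transfer H hw', hw.transfer hw', by rw [Walk.edges_transfer]⟩

theorem IsCyc.mono {C : Finset (Sym2 α)} (h : IsCyc G C) (hGH : G ≤ H) : IsCyc H C :=
  h.transfer fun e he => edgeSet_mono hGH (h.subset e he)

theorem isCyc_iff_of_subset {C : Finset (Sym2 α)} (h1 : ∀ e ∈ C, e ∈ G.edgeSet)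
    (h2 : ∀ e ∈ C, e ∈ H.edgeSet) : IsCyc G C ↔ IsCyc H C :=
  ⟨fun h => h.transfer h2, fun h => h.transfer h1⟩

/-- cycles of `G - S` -/
theorem isCyc_del {C : Finset (Sym2 α)} {S : Finset α} :
    IsCyc (del G S) C ↔ IsCyc G C ∧ Disjoint (vs C) S := by
  constructor
  · intro h
    refine ⟨h.mono fun a b hab => hab.1, ?_⟩
    rw [Finset.disjoint_left]
    intro x hx hxS
    obtain ⟨e, he, hxe⟩ := mem_vs.1 hx
    have := h.subset e he
    induction e using Sym2.ind with
    | _ a b =>
      have h2 : (del G S).Adj a b := this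
      rw [Sym2.mem_iff] at hxe
      rcases hxe with rfl | rfl
      · exact h2.2.1 hxS
      · exact h2.2.2 hxS
  · rintro ⟨h, hS⟩
    refine h.transfer fun e he => ?_
    induction e using Sym2.ind with
    | _ a b =>
      exact ⟨h.subset _ he, Finset.disjoint_left.1 hS (left_mem_vs he),
        Finset.disjoint_left.1 hS (right_mem_vs he)⟩

/-- cycles of `G - e` -/
theorem isCyc_deleteEdges {C : Finset (Sym2 α)} {S : Set (Sym2 α)} :
    IsCyc (G.deleteEdges S) C ↔ IsCyc G C ∧ ∀ e ∈ C, e ∉ S := by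
  constructor
  · intro h
    refine ⟨h.mono (deleteEdges_le _), fun e he => ?_⟩
    have := h.subset e he
    rw [edgeSet_deleteEdges] at this
    exact this.2
  · rintro ⟨h, hS⟩
    refine h.transfer fun e he => ?_
    rw [edgeSet_deleteEdges]
    exact ⟨h.subset e he, hS e he⟩

theorem isCyc_delE {C : Finset (Sym2 α)} {a b : α} :
    IsCyc (delE G a b) C ↔ IsCyc G C ∧ s(a, b) ∉ C := by
  rw [delE, isCyc_deleteEdges]
  simp only [Set.mem_singleton_iff]
  exact and_congr_right fun _ => ⟨fun h h' => h _ h' rfl, fun h e he he' => h (he' ▸ he)⟩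

theorem isPth_delE {s t a b : α} {P : Finset (Sym2 α)} :
    IsPth (delE G a b) s t P ↔ IsPth G s t P ∧ s(a, b) ∉ P := by
  rw [delE, isPth_deleteEdges]
  simp only [Set.mem_singleton_iff]
  exact and_congr_right fun _ => ⟨fun h h' => h _ h' rfl, fun h e he he' => h (he' ▸ he)⟩

theorem IsCyc.nonempty {C : Finset (Sym2 α)} (h : IsCyc G C) : C.Nonempty := by
  obtain ⟨v, w, hw, rfl⟩ := h
  cases w with
  | nil => exact absurd hw Walk.not_isCycle_nil
  | cons h p => exact ⟨_, List.mem_toFinset.2 (by rw [Walk.edges_cons]; exact List.mem_cons_self)⟩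

/-- edge `ab` + path from `a` to `b` without this edge -/
theorem IsPth.isCyc {a b : α} {P : Finset (Sym2 α)} (h : IsPth G a b P) (hab : G.Adj a b)
    (hP : s(a, b) ∉ P) : IsCyc G (insert s(a, b) P) := by
  obtain ⟨w, hw, rfl⟩ := h.symm
  refine ⟨a, Walk.cons hab w, ?_, by simp⟩
  rw [Walk.cons_isCycle_iff]
  exact ⟨hw, fun h => hP (List.mem_toFinset.2 h)⟩

/-- a cycle as an edge and a path, at any of its vertices -/
theorem IsCyc.exists_edge {C : Finset (Sym2 α)} {v : α} (h : IsCyc G C) (hv : v ∈ vs C) :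
    ∃ c P, G.Adj v c ∧ IsPth G v c P ∧ s(v, c) ∉ P ∧ insert s(v, c) P = C := by
  obtain ⟨u, w, hw, rfl⟩ := h
  have hv' : v ∈ w.support := (mem_support_iff_vs w v).2 (Or.inr hv)
  have h1 := hw.rotate hv'
  have h2 : (w.rotate v hv').edges.toFinset = w.edges.toFinset := by
    ext e
    rw [List.mem_toFinset, List.mem_toFinset]
    exact (w.rotate_edges v hv').mem_iff
  rw [← h2]
  cases hw' : w.rotate v hv' with
  | nil => rw [hw'] at h1; exact absurd h1 Walk.not_isCycle_nil
  | @cons _ c _ h p =>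
    rw [hw', Walk.cons_isCycle_iff] at h1
    refine ⟨c, p.edges.toFinset, h, IsPth.symm ⟨p, h1.1, rfl⟩, fun h => h1.2 (List.mem_toFinset.1 h),
      by simp⟩

/-- removing any edge of a cycle leaves a path -/
theorem IsCyc.isPth {C : Finset (Sym2 α)} {a b : α} (h : IsCyc G C) (hab : s(a, b) ∈ C) :
    IsPth G a b (C \ {s(a, b)}) := by
  obtain ⟨c, P, hac, hP, hcP, rfl⟩ := h.exists_edge (left_mem_vs hab)
  by_cases hbc : b = c
  · subst hbc
    rwa [insert_sdiff_of_mem _ (by simp), sdiff_singleton_eq_erase, erase_eq_of_notMem hcP]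
  · have hne : s(a, c) ≠ s(a, b) := by
      intro e
      rw [Sym2.eq_iff] at e
      rcases e with ⟨_, e⟩ | ⟨e1, e2⟩
      · exact hbc e.symm
      · exact hbc (e1 ▸ e2.symm)
    have habP : s(a, b) ∈ P := by
      rw [mem_insert] at hab
      exact hab.resolve_left hne.symm
    obtain ⟨u, _, hu1, hu2, hu3⟩ := hP.uncons hac.ne
    have : b = u := hP.left_unique habP hu1
    subst this
    have h4 := (hu3.concat hac.symm hu2).symm
    rw [Sym2.eq_swap] at h4
    rwa [insert_sdiff_of_notMem _ (by simpa using hne)]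

theorem IsCyc.insert_sdiff {C : Finset (Sym2 α)} {a b : α} (hab : s(a, b) ∈ C) :
    insert s(a, b) (C \ {s(a, b)}) = C := by
  rw [sdiff_singleton_eq_erase, insert_erase hab]

/-- **characterisation of cycles**, for any edge in the set -/
theorem isCyc_iff_of_mem {C : Finset (Sym2 α)} {a b : α} (hab : s(a, b) ∈ C) :
    IsCyc G C ↔ G.Adj a b ∧ IsPth G a b (C \ {s(a, b)}) := by
  constructor
  · intro h
    exact ⟨h.adj_of_mem hab, h.isPth hab⟩
  · rintro ⟨h1, h2⟩
    have := h2.isCyc h1 (by simp)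
    rwa [IsCyc.insert_sdiff hab] at this

theorem isCyc_insert_iff {P : Finset (Sym2 α)} {a b : α} (hab : s(a, b) ∉ P) :
    IsCyc G (insert s(a, b) P) ↔ G.Adj a b ∧ IsPth G a b P := by
  rw [isCyc_iff_of_mem (mem_insert_self _ _), insert_sdiff_of_mem _ (by simp),
    sdiff_singleton_eq_erase, erase_eq_of_notMem hab]

/-- **two paths with only the ends in common form a cycle** -/
theorem IsPth.isCyc_union {a b : α} {P Q : Finset (Sym2 α)} (hP : IsPth G a b P)
    (hQ : IsPth G a b Q) (hab : a ≠ b) (h : vs P ∩ vs Q ⊆ {a, b}) (hne : P ≠ Q) :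
    IsCyc G (P ∪ Q) := by
  obtain ⟨u, hu, hu1, hu2, hu3⟩ := hP.uncons hab
  have h1 : IsPth G u a (P \ {s(a, u)} ∪ Q) := by
    refine hu3.append hQ.symm fun x hx => ?_
    rw [mem_inter] at hx
    have := h (mem_inter.2 ⟨vs_mono sdiff_subset hx.1, hx.2⟩)
    rw [mem_insert, mem_singleton] at this
    rcases this with rfl | rfl
    · exact absurd hx.1 hu2
    · simp
  have h2 : s(a, u) ∉ P \ {s(a, u)} ∪ Q := by
    rw [mem_union]
    rintro (h2 | h2)
    · simp at h2
    · have := h (mem_inter.2 ⟨right_mem_vs hu1, right_mem_vs h2⟩)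
      rw [mem_insert, mem_singleton] at this
      rcases this with rfl | rfl
      · exact hu.ne rfl
      · exact hne ((hP.eq_singleton hu1).trans (hQ.eq_singleton h2).symm)
  have h3 := h1.symm.isCyc hu h2
  rwa [← insert_union, IsCyc.insert_sdiff hu1] at h3

/-- two paths with at most the ends in common, not both the same edge, have disjoint edge sets -/
theorem IsPth.disjoint_of_inter {a b : α} {P Q : Finset (Sym2 α)} (hP : IsPth G a b P)
    (hQ : IsPth G a b Q) (h : vs P ∩ vs Q ⊆ {a, b}) (hne : P ≠ Q) : Disjoint P Q := by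
  rw [Finset.disjoint_left]
  intro e he he'
  induction e using Sym2.ind with
  | _ x y =>
    have hxy := (hP.adj_of_mem he).ne
    have hx := h (mem_inter.2 ⟨left_mem_vs he, left_mem_vs he'⟩)
    have hy := h (mem_inter.2 ⟨right_mem_vs he, right_mem_vs he'⟩)
    rw [mem_insert, mem_singleton] at hx hy
    have hab : s(x, y) = s(a, b) := by
      rw [Sym2.eq_iff]
      rcases hx with rfl | rfl <;> rcases hy with rfl | rfl <;> simp_all
    rw [hab] at he he'
    exact hne ((hP.eq_singleton he).trans (hQ.eq_singleton he').symm)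

/-- **every cycle through `a ≠ b` is the union of two paths** -/
theorem IsCyc.split {a b : α} {C : Finset (Sym2 α)} (h : IsCyc G C) (ha : a ∈ vs C)
    (hb : b ∈ vs C) (hab : a ≠ b) :
    ∃ P Q, IsPth G a b P ∧ IsPth G a b Q ∧ P ∪ Q = C ∧ Disjoint P Q ∧ vs P ∩ vs Q = {a, b} := by
  obtain ⟨c, R, hac, hR, hcR, rfl⟩ := h.exists_edge ha
  have hb' : b ∈ vs R := by
    rw [vs_insert, mem_union, mem_insert, mem_singleton] at hb
    rcases hb with (rfl | rfl) | hb
    · exact absurd rfl hab
    · exact hR.right_mem hac.ne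
    · exact hb
  obtain ⟨P, Q, h1, h2, h3, h4, h5⟩ := hR.split (Or.inr hb')
  have haP := h1.left_mem hab
  have haQ : a ∉ vs Q := fun h => hab (by simpa using h5 (mem_inter.2 ⟨haP, h⟩))
  refine ⟨P, insert s(c, a) Q, h1, (h2.concat hac.symm haQ).symm, ?_, ?_, ?_⟩
  · rw [union_insert, h3, Sym2.eq_swap]
  · rw [disjoint_insert_right]
    refine ⟨fun h => hcR ?_, h4⟩
    rw [Sym2.eq_swap, ← h3]
    exact mem_union_left _ h
  · apply Subset.antisymm
    · intro x hx
      rw [mem_inter, vs_insert, mem_union, mem_insert, mem_singleton] at hx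
      rw [mem_insert, mem_singleton]
      obtain ⟨hx1, (rfl | rfl) | hx2⟩ := hx
      · right
        by_contra hne
        exact hne (by simpa using h5 (mem_inter.2 ⟨hx1, h2.right_mem (Ne.symm hne)⟩))
      · exact Or.inl rfl
      · exact Or.inr (by simpa using h5 (mem_inter.2 ⟨hx1, hx2⟩))
    · intro x hx
      rw [mem_insert, mem_singleton] at hx
      rw [mem_inter, vs_insert, mem_union, mem_insert, mem_singleton]
      rcases hx with rfl | rfl
      · exact ⟨haP, Or.inl (Or.inr rfl)⟩
      · refine ⟨h1.right_mem hab, ?_⟩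
        by_cases hbc : x = c
        · exact Or.inl (Or.inl hbc)
        · exact Or.inr (h2.left_mem hbc)

/-- **the two edges of a cycle at one of its vertices** -/
theorem IsCyc.two_edges {C : Finset (Sym2 α)} {v : α} (h : IsCyc G C) (hv : v ∈ vs C) :
    ∃ i j, i ≠ j ∧ s(v, i) ∈ C ∧ s(v, j) ∈ C ∧ ∀ k, s(v, k) ∈ C → k = i ∨ k = j := by
  obtain ⟨c, P, hvc, hP, hcP, rfl⟩ := h.exists_edge hv
  obtain ⟨u, _, hu1, _, _⟩ := hP.uncons hvc.ne
  refine ⟨c, u, ?_, mem_insert_self _ _, mem_insert_of_mem hu1, ?_⟩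
  · rintro rfl; exact hcP hu1
  · intro k hk
    rw [mem_insert] at hk
    rcases hk with hk | hk
    · rw [Sym2.eq_iff] at hk
      rcases hk with ⟨_, e⟩ | ⟨e1, e2⟩
      · exact Or.inl e
      · exact Or.inl (e2.trans e1)
    · exact Or.inr (hP.left_unique hk hu1)

/-- at most two edges of a cycle at a vertex -/
theorem IsCyc.eq_or_eq {C : Finset (Sym2 α)} {v i j k : α} (h : IsCyc G C) (hi : s(v, i) ∈ C)
    (hj : s(v, j) ∈ C) (hij : i ≠ j) (hk : s(v, k) ∈ C) : k = i ∨ k = j := by
  obtain ⟨x, y, _, _, _, h3⟩ := h.two_edges (left_mem_vs hi)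
  rcases h3 i hi with rfl | rfl <;> rcases h3 j hj with rfl | rfl <;>
    rcases h3 k hk with rfl | rfl <;> simp_all

/-- the second edge of a cycle at a vertex -/
theorem IsCyc.exists_other {C : Finset (Sym2 α)} {v i : α} (h : IsCyc G C) (hi : s(v, i) ∈ C) :
    ∃ j, j ≠ i ∧ s(v, j) ∈ C := by
  obtain ⟨x, y, hxy, hx, hy, h3⟩ := h.two_edges (left_mem_vs hi)
  rcases h3 i hi with rfl | rfl
  · exact ⟨y, hxy.symm, hy⟩
  · exact ⟨x, hxy, hx⟩

/-- **cycle through `u` with edges `ui`, `uj`: the rest is a path of `G - u`** -/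
theorem IsCyc.isPth_del {C : Finset (Sym2 α)} {u i j : α} (h : IsCyc G C) (hi : s(u, i) ∈ C)
    (hj : s(u, j) ∈ C) (hij : i ≠ j) : IsPth (del G {u}) i j (C \ {s(u, i), s(u, j)}) := by
  have h1 := h.isPth hi
  have hne : s(u, j) ≠ s(u, i) := by
    intro e
    rw [Sym2.eq_iff] at e
    rcases e with ⟨_, e⟩ | ⟨e1, e2⟩
    · exact hij e.symm
    · exact hij (e1 ▸ e2.symm)
  have hj' : s(u, j) ∈ C \ {s(u, i)} := by
    rw [mem_sdiff, mem_singleton]
    exact ⟨hj, hne⟩
  obtain ⟨x, _, hx1, hx2, hx3⟩ := h1.uncons (h.adj_of_mem hi).ne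
  have : j = x := h1.left_unique hj' hx1
  subst this
  rw [sdiff_sdiff_left] at hx2 hx3
  have e : ({s(u, i)} ⊔ {s(u, j)} : Finset (Sym2 α)) = {s(u, i), s(u, j)} := rfl
  rw [e] at hx2 hx3
  rw [DL.isPth_del]
  refine ⟨hx3.symm, ?_⟩
  rw [disjoint_singleton_right]
  exact hx2

theorem isCyc_of_isPth_del {P : Finset (Sym2 α)} {u i j : α} (hi : G.Adj u i) (hj : G.Adj u j)
    (hij : i ≠ j) (h : IsPth (del G {u}) i j P) : IsCyc G (insert s(u, i) (insert s(u, j) P)) := by
  rw [DL.isPth_del, disjoint_singleton_right] at h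
  have h1 : IsPth G i u (insert s(j, u) P) := h.1.concat hj.symm h.2
  rw [Sym2.eq_swap] at h1
  refine h1.symm.isCyc hi ?_
  rw [mem_insert]
  rintro (e | e)
  · rw [Sym2.eq_iff] at e
    rcases e with ⟨_, e⟩ | ⟨e1, e2⟩
    · exact hij e
    · exact hij (e2.trans e1)
  · exact h.2 (left_mem_vs e)

theorem vs_of_isPth_del {P : Finset (Sym2 α)} {S : Finset α} {i j : α}
    (h : IsPth (del G S) i j P) : Disjoint (vs P) S := (DL.isPth_del.1 h).2

/-- `ui`, `uj` and a path of `G - u` -/
theorem isCyc_iff_isPth_del {C : Finset (Sym2 α)} {u i j : α} (hi : s(u, i) ∈ C)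
    (hj : s(u, j) ∈ C) (hij : i ≠ j) :
    IsCyc G C ↔ G.Adj u i ∧ G.Adj u j ∧ IsPth (del G {u}) i j (C \ {s(u, i), s(u, j)}) := by
  constructor
  · intro h
    exact ⟨h.adj_of_mem hi, h.adj_of_mem hj, h.isPth_del hi hj hij⟩
  · rintro ⟨h1, h2, h3⟩
    have := isCyc_of_isPth_del h1 h2 hij h3
    have e : insert s(u, i) (insert s(u, j) (C \ {s(u, i), s(u, j)})) = C := by
      ext x
      simp only [mem_insert, mem_sdiff, mem_singleton, not_or]
      constructor
      · rintro (rfl | rfl | h)
        · exact hi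
        · exact hj
        · exact h.1
      · intro hx
        by_cases hx1 : x = s(u, i)
        · exact Or.inl hx1
        · by_cases hx2 : x = s(u, j)
          · exact Or.inr (Or.inl hx2)
          · exact Or.inr (Or.inr ⟨hx, hx1, hx2⟩)
    rwa [e] at this

/-- a cycle has at least three edges: three different vertices on it -/
theorem IsCyc.three_le_card {C : Finset (Sym2 α)} (h : IsCyc G C) : 3 ≤ C.card := by
  obtain ⟨v, w, hw, rfl⟩ := h
  rw [List.toFinset_card_of_nodup hw.edges_nodup, Walk.length_edges]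
  exact hw.three_le_length

/-! ## c. Chains, boundary, the cycle space -/

theorem zmod2_cases (x : ZMod 2) : x = 0 ∨ x = 1 := by
  revert x; decide

theorem zmod2_add_self (x : ZMod 2) : x + x = 0 := by
  revert x; decide

theorem zmod2_ne_zero {x : ZMod 2} : x ≠ 0 ↔ x = 1 := by
  revert x; decide

theorem chain_add_self (c : Chain α) : c + c = 0 := by
  funext e; exact zmod2_add_self _

/-- `x + y = z` moves terms freely mod 2 -/
theorem chain_add_eq_iff {x y z : Chain α} : x + y = z ↔ x = z + y := by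
  constructor
  · rintro rfl; rw [add_assoc, chain_add_self, add_zero]
  · rintro rfl; rw [add_assoc, chain_add_self, add_zero]

theorem chi_apply (C : Finset (Sym2 α)) (e : Sym2 α) : chi C e = if e ∈ C then 1 else 0 := rfl

theorem chi_of_mem {C : Finset (Sym2 α)} {e : Sym2 α} (h : e ∈ C) : chi C e = 1 := if_pos h

theorem chi_of_notMem {C : Finset (Sym2 α)} {e : Sym2 α} (h : e ∉ C) : chi C e = 0 := if_neg h

theorem chi_ne_zero {C : Finset (Sym2 α)} {e : Sym2 α} : chi C e ≠ 0 ↔ e ∈ C := by
  rw [chi_apply]; split_ifs with h <;> simp [h]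

theorem chi_eq_one {C : Finset (Sym2 α)} {e : Sym2 α} : chi C e = 1 ↔ e ∈ C := by
  rw [← zmod2_ne_zero, chi_ne_zero]

@[simp] theorem chi_empty : chi (∅ : Finset (Sym2 α)) = 0 := by
  funext e; simp [chi_apply]

theorem chi_union {P Q : Finset (Sym2 α)} (h : Disjoint P Q) : chi (P ∪ Q) = chi P + chi Q := by
  funext e
  rw [Pi.add_apply, chi_apply, chi_apply, chi_apply]
  by_cases h1 : e ∈ P <;> by_cases h2 : e ∈ Q
  · exact absurd h2 (Finset.disjoint_left.1 h h1)
  all_goals simp [h1, h2]

theorem chi_add (P Q : Finset (Sym2 α)) : chi P + chi Q = chi (P \ Q ∪ Q \ P) := by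
  funext e
  rw [Pi.add_apply, chi_apply, chi_apply, chi_apply]
  by_cases h1 : e ∈ P <;> by_cases h2 : e ∈ Q <;> simp [h1, h2]
  decide

theorem chi_injective : Function.Injective (chi : Finset (Sym2 α) → Chain α) := by
  intro P Q h
  ext e
  rw [← chi_ne_zero, ← chi_ne_zero, h]

theorem chi_inj {P Q : Finset (Sym2 α)} : chi P = chi Q ↔ P = Q := chi_injective.eq_iff

theorem chi_insert {e : Sym2 α} {P : Finset (Sym2 α)} (h : e ∉ P) :
    chi (insert e P) = chi {e} + chi P := by
  rw [insert_eq, chi_union (by simpa using h)]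

theorem chi_sdiff {P Q : Finset (Sym2 α)} (h : Q ⊆ P) : chi (P \ Q) = chi P + chi Q := by
  have := chi_union (disjoint_sdiff : Disjoint Q (P \ Q))
  rw [union_sdiff_of_subset h] at this
  rw [this, add_comm (chi Q), add_assoc, chain_add_self, add_zero]

/-- support of a chain -/
def csupp (c : Chain α) : Finset (Sym2 α) := univ.filter fun e => c e ≠ 0

theorem mem_csupp {c : Chain α} {e : Sym2 α} : e ∈ csupp c ↔ c e ≠ 0 := by simp [csupp]

@[simp] theorem chi_csupp (c : Chain α) : chi (csupp c) = c := by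
  funext e
  rw [chi_apply]
  split_ifs with h
  · exact (zmod2_ne_zero.1 (mem_csupp.1 h)).symm
  · rw [mem_csupp, not_not] at h; exact h.symm

@[simp] theorem csupp_chi (C : Finset (Sym2 α)) : csupp (chi C) = C := by
  ext e; rw [mem_csupp, chi_ne_zero]

@[simp] theorem csupp_zero : csupp (0 : Chain α) = ∅ := by
  ext e; simp [mem_csupp]

theorem csupp_eq_empty {c : Chain α} : csupp c = ∅ ↔ c = 0 := by
  constructor
  · intro h; rw [← chi_csupp c, h, chi_empty]
  · rintro rfl; simp

theorem csupp_add (c d : Chain α) : csupp (c + d) ⊆ csupp c ∪ csupp d := by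
  intro e he
  rw [mem_union, mem_csupp, mem_csupp]
  rw [mem_csupp, Pi.add_apply] at he
  by_contra h
  push Not at h
  rw [h.1, h.2] at he
  exact he (by simp)

theorem csupp_add_chi {c : Chain α} {C : Finset (Sym2 α)} (h : C ⊆ csupp c) :
    csupp (c + chi C) = csupp c \ C := by
  rw [← chi_inj, chi_csupp, chi_sdiff h, chi_csupp]

theorem bdy_eq (c : Chain α) (v : α) : bdy c v = ∑ e ∈ univ.filter (fun e => v ∈ e), c e := rfl

theorem bdy_add (c d : Chain α) (v : α) : bdy (c + d) v = bdy c v + bdy d v := by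
  simp [bdy, sum_add_distrib]

@[simp] theorem bdy_zero (v : α) : bdy (0 : Chain α) v = 0 := by simp [bdy]

theorem bdy_smul (r : ZMod 2) (c : Chain α) (v : α) : bdy (r • c) v = r * bdy c v := by
  simp [bdy, mul_sum]

theorem bdy_eq_sum_ite (c : Chain α) (v : α) : bdy c v = ∑ e, if v ∈ e then c e else 0 := by
  rw [bdy, sum_filter]

theorem bdy_chi_edge {a b : α} (v : α) (hab : a ≠ b) :
    bdy (chi {s(a, b)}) v = (if v = a then 1 else 0) + (if v = b then 1 else 0) := by
  rw [bdy_eq_sum_ite, sum_eq_single s(a, b)]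
  · rw [chi_of_mem (by simp)]
    simp only [Sym2.mem_iff]
    by_cases h1 : v = a
    · subst h1; simp [hab]
    · simp [h1]
  · intro e _ he
    rw [chi_of_notMem (by simpa using he), ite_self]
  · simp

/-- **boundary of a path** -/
theorem IsPth.bdy_chi {s t : α} {P : Finset (Sym2 α)} (h : IsPth G s t P) (v : α) :
    bdy (chi P) v = (if v = s then 1 else 0) + (if v = t then 1 else 0) := by
  refine IsPth.rec_left (motive := fun s P =>
    bdy (chi P) v = (if v = s then 1 else 0) + (if v = t then 1 else 0)) ?_ ?_ h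
  · simp [zmod2_add_self]
  · intro u s P hus hu _ _ ih
    rw [chi_insert fun h => hu (left_mem_vs h), bdy_add, bdy_chi_edge v hus.ne, ih]
    have h1 := zmod2_add_self (if v = s then 1 else 0)
    calc _ = (if v = u then 1 else 0) + (((if v = s then 1 else 0) + (if v = s then 1 else 0)) +
              (if v = t then (1 : ZMod 2) else 0)) := by ring
      _ = _ := by rw [h1, zero_add]

theorem IsCyc.bdy_chi {C : Finset (Sym2 α)} (h : IsCyc G C) (v : α) : bdy (chi C) v = 0 := by
  obtain ⟨e, he⟩ := h.nonempty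
  induction e using Sym2.ind with
  | _ a b =>
    have h1 := (h.isPth he).bdy_chi v
    rw [chi_sdiff (by simpa using he), bdy_add, bdy_chi_edge v (h.adj_of_mem he).ne] at h1
    exact add_eq_right.1 h1

/-- the coboundary of a function on the vertices -/
def cob (s : α → ZMod 2) : Chain α := Sym2.lift ⟨fun a b => s a + s b, fun _ _ => add_comm _ _⟩

@[simp] theorem cob_mk (s : α → ZMod 2) (a b : α) : cob s s(a, b) = s a + s b := rfl

/-- summation by parts -/
theorem sum_mul_bdy (s : α → ZMod 2) {c : Chain α} (hc : ∀ e, c e ≠ 0 → ¬ e.IsDiag) :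
    ∑ v, s v * bdy c v = ∑ e, cob s e * c e := by
  simp only [bdy_eq_sum_ite, mul_sum]
  rw [sum_comm]
  refine sum_congr rfl fun e _ => ?_
  by_cases he : c e = 0
  · simp [he]
  · have hd := hc e he
    induction e using Sym2.ind with
    | _ a b =>
      have hab : a ≠ b := by simpa using hd
      rw [cob_mk]
      have : ∀ v, (s v * if v ∈ s(a, b) then c s(a, b) else 0) =
          (if v = a then s v * c s(a, b) else 0) + (if v = b then s v * c s(a, b) else 0) := by
        intro v
        simp only [Sym2.mem_iff]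
        by_cases h1 : v = a
        · subst h1; simp [hab]
        · simp [h1]
      rw [sum_congr rfl fun v _ => this v, sum_add_distrib, sum_ite_eq' univ a, sum_ite_eq' univ b]
      simp [add_mul]

/-- **a chain with boundary `s + t` contains a path from `s` to `t`** -/
theorem exists_isPth_of_bdy {s t : α} {c : Chain α}
    (hc : ∀ e, c e ≠ 0 → e ∈ G.edgeSet)
    (hbd : ∀ v, bdy c v = (if v = s then 1 else 0) + (if v = t then 1 else 0)) :
    ∃ P, IsPth G s t P ∧ P ⊆ csupp c := by
  classical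
  by_cases hr : (fromEdgeSet (csupp c : Set (Sym2 α))).Reachable s t
  · obtain ⟨P, hP⟩ := exists_isPth hr
    have hP' : P ⊆ csupp c := fun e he => by
      have := hP.subset e he
      rw [edgeSet_fromEdgeSet] at this
      exact this.1
    exact ⟨P, hP.transfer fun e he => hc e (mem_csupp.1 (hP' he)), hP'⟩
  · exfalso
    set H := fromEdgeSet (csupp c : Set (Sym2 α)) with hH
    set f : α → ZMod 2 := fun v => if H.Reachable s v then 1 else 0 with hf
    have h1 := sum_mul_bdy f (c := c) fun e he => G.not_isDiag_of_mem_edgeSet (hc e he)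
    have h2 : ∑ v, f v * bdy c v = 1 := by
      simp only [hbd, mul_add, sum_add_distrib, mul_ite, mul_one, mul_zero, sum_ite_eq',
        mem_univ, if_true]
      rw [hf]
      simp [hr]
    have h3 : ∑ e, cob f e * c e = 0 := by
      refine sum_eq_zero fun e _ => ?_
      by_cases he : c e = 0
      · rw [he, mul_zero]
      · induction e using Sym2.ind with
        | _ a b =>
          have hab : H.Adj a b := by
            rw [hH, fromEdgeSet_adj]
            exact ⟨mem_csupp.2 he, (hc _ he : G.Adj a b).ne⟩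
          have : f a = f b := by
            rw [hf]
            have : H.Reachable s a ↔ H.Reachable s b :=
              ⟨fun h => h.trans hab.reachable, fun h => h.trans hab.symm.reachable⟩
            simp only [this]
          rw [cob_mk, this, zmod2_add_self, zero_mul]
    rw [h2, h3] at h1
    exact one_ne_zero h1

theorem Z1_mono (h : G ≤ H) : Z1 G ≤ Z1 H :=
  fun _ hc => ⟨fun e he => edgeSet_mono h (hc.1 e he), hc.2⟩

theorem IsCyc.chi_mem {C : Finset (Sym2 α)} (h : IsCyc G C) : chi C ∈ Z1 G :=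
  ⟨fun e he => h.subset e (chi_ne_zero.1 he), h.bdy_chi⟩

theorem IsPth.chi_add_mem {s t : α} {P Q : Finset (Sym2 α)} (hP : IsPth G s t P)
    (hQ : IsPth G s t Q) : chi P + chi Q ∈ Z1 G := by
  refine ⟨fun e he => ?_, fun v => by rw [bdy_add, hP.bdy_chi, hQ.bdy_chi, zmod2_add_self]⟩
  have := csupp_add _ _ (mem_csupp.2 he)
  rw [csupp_chi, csupp_chi, mem_union] at this
  exact this.elim (hP.subset e) (hQ.subset e)

/-- **through every edge of an element of the cycle space there is a cycle in its support** -/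
theorem exists_isCyc_of_mem {c : Chain α} (hc : c ∈ Z1 G) {e : Sym2 α} (he : c e ≠ 0) :
    ∃ C, IsCyc G C ∧ e ∈ C ∧ C ⊆ csupp c := by
  induction e using Sym2.ind with
  | _ a b =>
    have hab : G.Adj a b := hc.1 _ he
    have hsub : ({s(a, b)} : Finset (Sym2 α)) ⊆ csupp c := by
      rw [singleton_subset_iff, mem_csupp]; exact he
    have h1 : csupp (c + chi {s(a, b)}) = csupp c \ {s(a, b)} := csupp_add_chi hsub
    obtain ⟨P, hP, hPc⟩ := exists_isPth_of_bdy (G := G) (c := c + chi {s(a, b)})
      (fun e he => by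
        rw [← mem_csupp, h1, mem_sdiff, mem_csupp] at he
        exact hc.1 e he.1)
      (fun v => by rw [bdy_add, hc.2, zero_add, bdy_chi_edge v hab.ne])
    rw [h1] at hPc
    refine ⟨insert s(a, b) P, hP.isCyc hab fun h => ?_, mem_insert_self _ _, ?_⟩
    · have := hPc h
      simp at this
    · rw [insert_subset_iff]
      exact ⟨hsub (by simp), hPc.trans sdiff_subset⟩

theorem exists_isCyc_of_ne_zero {c : Chain α} (hc : c ∈ Z1 G) (h0 : c ≠ 0) :
    ∃ C, IsCyc G C ∧ C ⊆ csupp c := by
  have : (csupp c).Nonempty := by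
    rw [nonempty_iff_ne_empty]
    exact fun h => h0 (csupp_eq_empty.1 h)
  obtain ⟨e, he⟩ := this
  obtain ⟨C, h1, _, h2⟩ := exists_isCyc_of_mem hc (mem_csupp.1 he)
  exact ⟨C, h1, h2⟩

/-- **induction on the cycle space**: add cycles with new edges -/
theorem Z1_induction {motive : Chain α → Prop} (zero : motive 0)
    (add : ∀ C c, IsCyc G C → c ∈ Z1 G → Disjoint C (csupp c) → motive c → motive (chi C + c)) :
    ∀ c ∈ Z1 G, motive c := by
  have key : ∀ n, ∀ c ∈ Z1 G, (csupp c).card = n → motive c := by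
    intro n
    induction n using Nat.strong_induction_on with
    | _ n ih =>
      intro c hc hn
      by_cases h0 : c = 0
      · rw [h0]; exact zero
      · obtain ⟨C, hC, hCc⟩ := exists_isCyc_of_ne_zero hc h0
        have h1 : csupp (c + chi C) = csupp c \ C := csupp_add_chi hCc
        have h2 : c = chi C + (c + chi C) := by
          rw [add_comm c, ← add_assoc, chain_add_self, zero_add]
        rw [h2]
        refine add C _ hC ((Z1 G).add_mem hc hC.chi_mem) ?_ ?_
        · rw [h1]; exact disjoint_sdiff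
        · refine ih _ ?_ _ ((Z1 G).add_mem hc hC.chi_mem) rfl
          rw [h1, ← hn]
          apply card_lt_card
          rw [Finset.ssubset_iff_subset_ne]
          refine ⟨sdiff_subset, fun h => ?_⟩
          obtain ⟨e, he⟩ := hC.nonempty
          have := hCc he
          rw [← h, mem_sdiff] at this
          exact this.2 he
  exact fun c hc => key _ c hc rfl

/-- **every element of the cycle space is the sum of edge-disjoint cycles in its support** -/
theorem exists_decomp {c : Chain α} (hc : c ∈ Z1 G) :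
    ∃ F : Finset (Finset (Sym2 α)), (∀ C ∈ F, IsCyc G C ∧ C ⊆ csupp c) ∧
      (∀ C ∈ F, ∀ D ∈ F, C ≠ D → Disjoint C D) ∧ ∑ C ∈ F, chi C = c := by
  revert hc
  refine Z1_induction (motive := fun c => ∃ F : Finset (Finset (Sym2 α)),
    (∀ C ∈ F, IsCyc G C ∧ C ⊆ csupp c) ∧
      (∀ C ∈ F, ∀ D ∈ F, C ≠ D → Disjoint C D) ∧ ∑ C ∈ F, chi C = c) ?_ ?_ c
  · exact ⟨∅, by simp, by simp, by simp⟩
  · rintro C c hC hc hd ⟨F, h1, h2, h3⟩
    have hCF : C ∉ F := by
      intro h
      obtain ⟨e, he⟩ := hC.nonempty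
      exact Finset.disjoint_left.1 hd he ((h1 C h).2 he)
    have hs : csupp (chi C + c) = C ∪ csupp c := by
      rw [← chi_inj, chi_union hd, chi_csupp, chi_csupp]
    refine ⟨insert C F, ?_, ?_, by rw [sum_insert hCF, h3]⟩
    · intro D hD
      rw [mem_insert] at hD
      rw [hs]
      rcases hD with rfl | hD
      · exact ⟨hC, subset_union_left⟩
      · exact ⟨(h1 D hD).1, (h1 D hD).2.trans subset_union_right⟩
    · intro D hD E hE hne
      rw [mem_insert] at hD hE
      rcases hD with rfl | hD <;> rcases hE with rfl | hE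
      · exact absurd rfl hne
      · exact disjoint_of_subset_right (h1 E hE).2 hd
      · exact (disjoint_of_subset_right (h1 D hD).2 hd).symm
      · exact h2 D hD E hE hne

/-- **the cycle space is spanned by the cycles** -/
theorem Z1_eq_span : Z1 G = Submodule.span (ZMod 2) {c | ∃ C, IsCyc G C ∧ chi C = c} := by
  apply le_antisymm
  · intro c hc
    revert c
    refine Z1_induction (Submodule.zero_mem _) ?_
    intro C c hC _ _ ih
    exact Submodule.add_mem _ (Submodule.subset_span ⟨C, hC, rfl⟩) ih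
  · rw [Submodule.span_le]
    rintro _ ⟨C, hC, rfl⟩
    exact hC.chi_mem

/-- a chain with support inside a path of `G` and zero boundary is zero; more generally an edge set
without cycles -/
theorem eq_zero_of_no_cyc {c : Chain α} (hc : c ∈ Z1 G) (h : ∀ C, IsCyc G C → ¬ C ⊆ csupp c) :
    c = 0 := by
  by_contra h0
  obtain ⟨C, h1, h2⟩ := exists_isCyc_of_ne_zero hc h0
  exact h C h1 h2

/-- a set with even degrees is a cycle or contains a smaller one: cycles are the minimal elements -/
theorem IsCyc.eq_of_subset {C D : Finset (Sym2 α)} (hC : IsCyc G C) (hD : IsCyc G D)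
    (h : D ⊆ C) : D = C := by
  obtain ⟨e, he⟩ := hD.nonempty
  induction e using Sym2.ind with
  | _ a b =>
    have h1 := hC.isPth (h he)
    have h2 := hD.isPth he
    -- both paths lie in the path `C - ab`
    have key : ∀ {s : α} {P : Finset (Sym2 α)}, IsPth G s b P →
        ∀ Q, IsPth G s b Q → Q ⊆ P → Q = P := by
      intro s P hP
      refine IsPth.rec_left (motive := fun s P => ∀ Q, IsPth G s b Q → Q ⊆ P → Q = P) ?_ ?_ hP
      · intro Q _ hQ'
        exact subset_empty.1 hQ'
      · intro u s P hus hu hub _ ih Q hQ hQP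
        obtain ⟨x, _, hx1, hx2, hx3⟩ := hQ.uncons hub
        have hx : x = s := by
          have := hQP hx1
          rw [mem_insert] at this
          rcases this with e | e
          · rw [Sym2.eq_iff] at e
            rcases e with ⟨_, e⟩ | ⟨e1, e2⟩
            · exact e
            · exact e2.trans e1
          · exact absurd (left_mem_vs e) hu
        subst hx
        have h3 := ih _ hx3 fun f hf => by
          rw [mem_sdiff, mem_singleton] at hf
          have := hQP hf.1
          rw [mem_insert] at this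
          exact this.resolve_left hf.2
        rw [← h3, IsCyc.insert_sdiff hx1]
    have h3 := key h1 _ h2 (sdiff_subset_sdiff h subset_rfl)
    rw [← IsCyc.insert_sdiff he, h3, IsCyc.insert_sdiff (h he)]

end DL
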