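import Mathlib
import Pool.Agent.DL.Defs
import Pool.Agent.DL.Z1
import Pool.Agent.DL.PC

/-!
MP_3ff0f8_gt, ALGEBRA HALF: paths and cycles as edge sets, continued.  (helper59)

Part d: bead moves.  Part e: cocycles.  Part f: coherence and direction.
-/

open SimpleGraph Finset

namespace DL

set_option linter.unusedSectionVars false
set_option linter.unusedFintypeInType false
set_option linter.unusedDecidableInType false

variable {α : Type*} [Fintype α] [DecidableEq α] {G H : SimpleGraph α}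

/-! ## d. Bead moves -/

/-- one bead move inside `E`: the part `R` of the path `Q` is replaced by `B`, with `R ∪ B` a cycle -/
structure Bead (G : SimpleGraph α) (s t : α) (E Q Q' : Finset (Sym2 α)) : Prop where
  pthL : IsPth G s t Q
  pthR : IsPth G s t Q'
  subL : Q ⊆ E
  subR : Q' ⊆ E
  data : ∃ x y A R B D, x ≠ y ∧ IsPth G s x A ∧ IsPth G x y R ∧ IsPth G x y B ∧ IsPth G y t D ∧
    A ∪ R ∪ D = Q ∧ A ∪ B ∪ D = Q' ∧ vs A ∩ vs R ⊆ {x} ∧ vs A ∩ vs B ⊆ {x} ∧ vs R ∩ vs D ⊆ {y} ∧
    vs B ∩ vs D ⊆ {y} ∧ vs (A ∪ R) ∩ vs D ⊆ {y} ∧ vs (A ∪ B) ∩ vs D ⊆ {y} ∧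
    vs R ∩ vs B ⊆ {x, y} ∧ R ≠ B

/-- **the two paths of a bead move differ by a cycle** -/
theorem Bead.exists_cyc {s t : α} {E Q Q' : Finset (Sym2 α)} (h : Bead G s t E Q Q') :
    ∃ Z, IsCyc G Z ∧ Z ⊆ E ∧ Z ⊆ Q ∪ Q' ∧ chi Q + chi Q' = chi Z := by
  obtain ⟨x, y, A, R, B, D, hxy, hA, hR, hB, hD, rfl, rfl, h1, h2, h3, h4, h5, h6, h7, hne⟩ := h.data
  have hAR : Disjoint A R := disjoint_of_vs_subset hA.not_isDiag h1
  have hAB : Disjoint A B := disjoint_of_vs_subset hA.not_isDiag h2
  have hARD : Disjoint (A ∪ R) D := disjoint_of_vs_subset (hA.append hR h1).not_isDiag h5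
  have hABD : Disjoint (A ∪ B) D := disjoint_of_vs_subset (hA.append hB h2).not_isDiag h6
  have hRB := hR.disjoint_of_inter hB h7 hne
  refine ⟨R ∪ B, hR.isCyc_union hB hxy h7 hne, ?_, ?_, ?_⟩
  · apply union_subset
    · exact (subset_union_right.trans subset_union_left).trans h.subL
    · exact (subset_union_right.trans subset_union_left).trans h.subR
  · apply union_subset
    · exact (subset_union_right.trans subset_union_left).trans subset_union_left
    · exact (subset_union_right.trans subset_union_left).trans subset_union_right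
  · rw [chi_union hARD, chi_union hABD, chi_union hAR, chi_union hAB, chi_union hRB]
    have e1 := chain_add_self (chi A)
    have e2 := chain_add_self (chi D)
    calc _ = (chi A + chi A) + (chi D + chi D) + (chi R + chi B) := by abel
      _ = _ := by rw [e1, e2, zero_add, zero_add]

theorem Bead.mono {s t : α} {E E' Q Q' : Finset (Sym2 α)} (h : Bead G s t E Q Q') (hE : E ⊆ E') :
    Bead G s t E' Q Q' := ⟨h.pthL, h.pthR, h.subL.trans hE, h.subR.trans hE, h.data⟩

theorem Bead.mono_graph {s t : α} {E Q Q' : Finset (Sym2 α)} (h : Bead G s t E Q Q') (hG : G ≤ H) :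
    Bead H s t E Q Q' := by
  refine ⟨h.pthL.mono hG, h.pthR.mono hG, h.subL, h.subR, ?_⟩
  obtain ⟨x, y, A, R, B, D, hxy, hA, hR, hB, hD, h⟩ := h.data
  exact ⟨x, y, A, R, B, D, hxy, hA.mono hG, hR.mono hG, hB.mono hG, hD.mono hG, h⟩

theorem bead_aux (G : SimpleGraph α) (s t : α) (E : Finset (Sym2 α)) :
    ∀ n (x : α) (A R B : Finset (Sym2 α)), B.card = n → IsPth G s x A → IsPth G x t R →
      IsPth G x t B → vs A ∩ vs R ⊆ {x} → vs A ∩ vs B ⊆ {x} → A ⊆ E → R ⊆ E → B ⊆ E →
      Relation.ReflTransGen (Bead G s t E) (A ∪ R) (A ∪ B) := by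
  intro n
  induction n using Nat.strong_induction_on with
  | _ n ih =>
    intro x A R B hn hA hR hB hAR hAB hAE hRE hBE
    by_cases hxt : x = t
    · subst hxt
      rw [hR.eq_empty, hB.eq_empty]
    · obtain ⟨u, hxu, hu1, hu2, hu3⟩ := hB.uncons hxt
      have htR : t ∈ vs R := hR.right_mem hxt
      obtain ⟨y, B1, B2, hyR, hB1, hB2, hB12, _, hB12', hfirst, hfirst'⟩ :=
        hu3.first (X := (vs R : Set α)) (by
          by_cases hut : u = t
          · left; rw [hut]; exact htR
          · right; exact ⟨t, hu3.right_mem hut, htR⟩)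
      have hyR' : y ∈ vs R := hyR
      have hB1B : B1 ⊆ B \ {s(x, u)} := hB12 ▸ subset_union_left
      have hyx : y ≠ x := by
        intro e
        by_cases huy : u = y
        · exact hxu.ne (e.symm.trans huy.symm)
        · exact hu2 (e ▸ vs_mono hB1B (hB1.right_mem huy))
      have hxB1 : x ∉ vs B1 := fun h => hu2 (vs_mono (hB12 ▸ subset_union_left) h)
      have hxB2 : x ∉ vs B2 := fun h => hu2 (vs_mono (hB12 ▸ subset_union_right) h)
      have hBf : IsPth G x y (insert s(x, u) B1) := hB1.cons hxu hxB1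
      have hBfB : insert s(x, u) B1 ⊆ B := by
        rw [insert_subset_iff]
        exact ⟨hu1, (subset_union_left (s₂ := B2)).trans (hB12 ▸ sdiff_subset)⟩
      have hB2B : B2 ⊆ B := (subset_union_right (s₁ := B1)).trans (hB12 ▸ sdiff_subset)
      obtain ⟨R1, R2, hR1, hR2, hR12, _, hR12'⟩ := hR.split (Or.inr hyR')
      have hR1R : R1 ⊆ R := hR12 ▸ subset_union_left
      have hR2R : R2 ⊆ R := hR12 ▸ subset_union_right
      have hxR1 : x ∈ vs R1 := hR1.left_mem hyx.symm
      have hxR2 : x ∉ vs R2 := fun h => hyx (by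
        have := hR12' (mem_inter.2 ⟨hxR1, h⟩)
        rw [mem_singleton] at this
        exact this.symm)
      have hBfR : vs (insert s(x, u) B1) ∩ vs R ⊆ {x, y} := by
        intro z hz
        rw [mem_inter, vs_insert, mem_union, mem_insert, mem_singleton] at hz
        rw [mem_insert, mem_singleton]
        obtain ⟨(rfl | rfl) | hz1, hz2⟩ := hz
        · exact Or.inl rfl
        · exact Or.inr (hfirst' hz2).symm
        · exact Or.inr (hfirst z hz1 hz2)
      have hABf : vs A ∩ vs (insert s(x, u) B1) ⊆ {x} :=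
        (inter_subset_inter_left (vs_mono hBfB)).trans hAB
      have hA' : IsPth G s y (A ∪ insert s(x, u) B1) := hA.append hBf hABf
      have hA'R2 : vs (A ∪ insert s(x, u) B1) ∩ vs R2 ⊆ {y} := by
        intro z hz
        rw [mem_inter, mem_vs_union] at hz
        obtain ⟨hz1 | hz1, hz2⟩ := hz
        · have := hAR (mem_inter.2 ⟨hz1, vs_mono hR2R hz2⟩)
          rw [mem_singleton] at this
          exact absurd (this ▸ hz2) hxR2
        · have := hBfR (mem_inter.2 ⟨hz1, vs_mono hR2R hz2⟩)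
          rw [mem_insert, mem_singleton] at this
          rcases this with rfl | rfl
          · exact absurd hz2 hxR2
          · simp
      have hA'B2 : vs (A ∪ insert s(x, u) B1) ∩ vs B2 ⊆ {y} := by
        intro z hz
        rw [mem_inter, mem_vs_union, vs_insert, mem_union, mem_insert, mem_singleton] at hz
        obtain ⟨hz1 | (rfl | rfl) | hz1, hz2⟩ := hz
        · have := hAB (mem_inter.2 ⟨hz1, vs_mono hB2B hz2⟩)
          rw [mem_singleton] at this
          exact absurd (this ▸ hz2) hxB2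
        · exact absurd hz2 hxB2
        · by_cases huy : z = y
          · simp [huy]
          · exact hB12' (mem_inter.2 ⟨hB1.left_mem huy, hz2⟩)
        · exact hB12' (mem_inter.2 ⟨hz1, hz2⟩)
      have hcard : B2.card < n := by
        rw [← hn]
        apply card_lt_card
        rw [Finset.ssubset_iff_subset_ne]
        refine ⟨hB2B, ?_⟩
        rintro rfl
        exact hxB2 (left_mem_vs hu1)
      have hlast := ih _ hcard y (A ∪ insert s(x, u) B1) R2 B2 rfl hA' hR2 hB2 hA'R2 hA'B2
        (union_subset hAE (hBfB.trans hBE)) (hR2R.trans hRE) (hB2B.trans hBE)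
      have e1 : A ∪ insert s(x, u) B1 ∪ B2 = A ∪ B := by
        rw [union_assoc, insert_union, hB12, IsCyc.insert_sdiff hu1]
      have e2 : A ∪ R1 ∪ R2 = A ∪ R := by rw [union_assoc, hR12]
      rw [e1] at hlast
      by_cases heq : R1 = insert s(x, u) B1
      · rw [← heq, e2] at hlast
        exact hlast
      · refine Relation.ReflTransGen.head ?_ hlast
        refine ⟨hA.append hR hAR, hA'.append hR2 hA'R2, union_subset hAE hRE,
          union_subset (union_subset hAE (hBfB.trans hBE)) (hR2R.trans hRE),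
          x, y, A, R1, insert s(x, u) B1, R2, hyx.symm, hA, hR1, hBf, hR2, e2, rfl,
          (inter_subset_inter_left (vs_mono hR1R)).trans hAR, hABf, hR12', ?_, ?_, hA'R2, ?_, heq⟩
        · exact (inter_subset_inter_right (vs_mono subset_union_right)).trans hA'R2
        · intro z hz
          rw [mem_inter, mem_vs_union] at hz
          obtain ⟨hz1 | hz1, hz2⟩ := hz
          · have := hAR (mem_inter.2 ⟨hz1, vs_mono hR2R hz2⟩)
            rw [mem_singleton] at this
            exact absurd (this ▸ hz2) hxR2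
          · exact hR12' (mem_inter.2 ⟨hz1, hz2⟩)
        · intro z hz
          rw [mem_inter] at hz
          exact hBfR (mem_inter.2 ⟨hz.2, vs_mono hR1R hz.1⟩)

/-- **BEAD MOVES**: two paths with the same ends are joined by bead moves inside their union -/
theorem bead_moves {s t : α} {P P' : Finset (Sym2 α)} (hP : IsPth G s t P) (hP' : IsPth G s t P') :
    Relation.ReflTransGen (Bead G s t (P ∪ P')) P P' := by
  have := bead_aux G s t (P ∪ P') _ s ∅ P P' rfl (IsPth.nil s) hP hP' (by simp) (by simp) (by simp)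
    subset_union_left subset_union_right
  rwa [empty_union, empty_union] at this

/-- a function on paths which is constant along the beads is constant -/
theorem bead_const {β : Type*} {s t : α} {P P' : Finset (Sym2 α)} (f : Finset (Sym2 α) → β)
    (h : ∀ Q Q' Z, IsPth G s t Q → IsPth G s t Q' → IsCyc G Z → Q ⊆ P ∪ P' → Q' ⊆ P ∪ P' →
      Z ⊆ P ∪ P' → chi Q + chi Q' = chi Z → f Q = f Q')
    (hP : IsPth G s t P) (hP' : IsPth G s t P') : f P = f P' := by
  have := bead_moves hP hP'
  have key : ∀ Q Q', Relation.ReflTransGen (Bead G s t (P ∪ P')) Q Q' → f Q = f Q' := by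
    intro Q Q' hQ
    induction hQ with
    | refl => rfl
    | tail _ h1 ih =>
      obtain ⟨Z, hZ, hZE, _, hZ'⟩ := h1.exists_cyc
      exact ih.trans (h _ _ Z h1.pthL h1.pthR hZ h1.subL h1.subR hZE hZ')
  exact key _ _ this

/-- **bead moves for cycles through an edge** -/
theorem cyc_bead_moves {C C' : Finset (Sym2 α)} {a b : α} (hC : IsCyc G C) (hC' : IsCyc G C')
    (h : s(a, b) ∈ C) (h' : s(a, b) ∈ C') :
    Relation.ReflTransGen (fun D D' => IsCyc G D ∧ IsCyc G D' ∧ s(a, b) ∈ D ∧ s(a, b) ∈ D' ∧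
      D ⊆ C ∪ C' ∧ D' ⊆ C ∪ C' ∧ Bead (delE G a b) a b (C ∪ C') (D \ {s(a, b)}) (D' \ {s(a, b)}) ∧
      ∃ Z, IsCyc G Z ∧ s(a, b) ∉ Z ∧ Z ⊆ C ∪ C' ∧ chi D + chi D' = chi Z) C C' := by
  have hab := hC.adj_of_mem h
  have h1 : IsPth (delE G a b) a b (C \ {s(a, b)}) := isPth_delE.2 ⟨hC.isPth h, by simp⟩
  have h2 : IsPth (delE G a b) a b (C' \ {s(a, b)}) := isPth_delE.2 ⟨hC'.isPth h', by simp⟩
  have h3 := bead_moves h1 h2
  have h4 := Relation.ReflTransGen.lift (p := fun D D' => IsCyc G D ∧ IsCyc G D' ∧ s(a, b) ∈ D ∧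
    s(a, b) ∈ D' ∧ D ⊆ C ∪ C' ∧ D' ⊆ C ∪ C' ∧
      Bead (delE G a b) a b (C ∪ C') (D \ {s(a, b)}) (D' \ {s(a, b)}) ∧
      ∃ Z, IsCyc G Z ∧ s(a, b) ∉ Z ∧ Z ⊆ C ∪ C' ∧ chi D + chi D' = chi Z)
    (fun P => insert s(a, b) P) (fun Q Q' hQ => ?_) _ _ h3
  · simp only [Function.onFun] at h4
    rwa [IsCyc.insert_sdiff h, IsCyc.insert_sdiff h'] at h4
  · have hsub : C \ {s(a, b)} ∪ C' \ {s(a, b)} ⊆ C ∪ C' :=
      union_subset_union sdiff_subset sdiff_subset
    obtain ⟨Z, hZ, hZE, _, hZ'⟩ := hQ.exists_cyc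
    have q1 := isPth_delE.1 hQ.pthL
    have q2 := isPth_delE.1 hQ.pthR
    have q3 := isCyc_delE.1 hZ
    refine ⟨q1.1.isCyc hab q1.2, q2.1.isCyc hab q2.2, mem_insert_self _ _, mem_insert_self _ _,
      insert_subset_iff.2 ⟨mem_union_left _ h, hQ.subL.trans hsub⟩,
      insert_subset_iff.2 ⟨mem_union_left _ h, hQ.subR.trans hsub⟩, ?_, Z, q3.1, q3.2,
      hZE.trans hsub, ?_⟩
    · have e1 : insert s(a, b) Q \ {s(a, b)} = Q := by
        rw [insert_sdiff_of_mem _ (by simp), sdiff_singleton_eq_erase, erase_eq_of_notMem q1.2]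
      have e2 : insert s(a, b) Q' \ {s(a, b)} = Q' := by
        rw [insert_sdiff_of_mem _ (by simp), sdiff_singleton_eq_erase, erase_eq_of_notMem q2.2]
      simp only [e1, e2]
      exact hQ.mono hsub
    · rw [chi_insert q1.2, chi_insert q2.2, ← hZ']
      have e1 := chain_add_self (chi {s(a, b)})
      calc _ = (chi {s(a, b)} + chi {s(a, b)}) + (chi Q + chi Q') := by abel
        _ = _ := by rw [e1, zero_add]

/-! ## e. Cocycles -/

/-- **CUT**: a function on the edges which is orthogonal to the cycle space is a coboundary -/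
theorem cut {a : Chain α} (h : ∀ c ∈ Z1 G, ∑ e, a e * c e = 0) :
    ∃ s : α → ZMod 2, ∀ u v, G.Adj u v → a s(u, v) = s u + s v := by
  classical
  set r : α → α := fun v => (G.connectedComponentMk v).exists_rep.choose with hr
  have hr1 : ∀ v, G.Reachable (r v) v := by
    intro v
    have := (G.connectedComponentMk v).exists_rep.choose_spec
    exact ConnectedComponent.exact this
  have hr2 : ∀ u v, G.Adj u v → r u = r v := by
    intro u v huv
    have : G.connectedComponentMk u = G.connectedComponentMk v :=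
      ConnectedComponent.sound huv.reachable
    simp only [hr, this]
  choose P hP using fun v => exists_isPth (hr1 v)
  refine ⟨fun v => ∑ e, a e * chi (P v) e, fun u v huv => ?_⟩
  have h1 := h (chi {s(u, v)} + (chi (P u) + chi (P v))) (by
    refine ⟨fun e he => ?_, fun w => ?_⟩
    · have := csupp_add _ _ (mem_csupp.2 he)
      rw [mem_union, csupp_chi, mem_singleton] at this
      rcases this with rfl | this
      · exact huv
      · have := csupp_add _ _ this
        rw [mem_union, csupp_chi, csupp_chi] at this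
        exact this.elim ((hP u).subset e) ((hP v).subset e)
    · rw [bdy_add, bdy_add, bdy_chi_edge w huv.ne, (hP u).bdy_chi, (hP v).bdy_chi, hr2 u v huv]
      generalize (if w = u then (1 : ZMod 2) else 0) = x
      generalize (if w = v then (1 : ZMod 2) else 0) = y
      generalize (if w = r v then (1 : ZMod 2) else 0) = z
      revert x y z; decide)
  have h2 : ∑ e, a e * (chi {s(u, v)} + (chi (P u) + chi (P v))) e =
      a s(u, v) + (∑ e, a e * chi (P u) e + ∑ e, a e * chi (P v) e) := by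
    simp only [Pi.add_apply, mul_add, sum_add_distrib]
    congr 1
    rw [sum_eq_single s(u, v)]
    · rw [chi_of_mem (by simp), mul_one]
    · intro e _ he
      rw [chi_of_notMem (by simpa using he), mul_zero]
    · simp
  rw [h2] at h1
  exact CharTwo.add_eq_zero.1 h1

theorem sum_mul_chi (a : Chain α) (C : Finset (Sym2 α)) : ∑ e, a e * chi C e = ∑ e ∈ C, a e := by
  simp [chi_apply]

/-- **CUT** for cycles -/
theorem cut' {a : Chain α} (h : ∀ C, IsCyc G C → ∑ e ∈ C, a e = 0) :
    ∃ s : α → ZMod 2, ∀ u v, G.Adj u v → a s(u, v) = s u + s v := by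
  refine cut (Z1_induction (by simp) fun C c hC _ _ ih => ?_)
  simp only [Pi.add_apply, mul_add, sum_add_distrib, ih, add_zero]
  rw [sum_mul_chi]
  exact h C hC

/-- a coboundary is orthogonal to the cycle space -/
theorem cob_orth {c : Chain α} (hc : c ∈ Z1 G) (s : α → ZMod 2) : ∑ e, cob s e * c e = 0 := by
  rw [← sum_mul_bdy s fun e he => G.not_isDiag_of_mem_edgeSet (hc.1 e he)]
  exact sum_eq_zero fun v _ => by rw [hc.2, mul_zero]

/-- **CUT** for connected `G`: the function `s` is unique up to a constant -/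
theorem cut_unique {s s' : α → ZMod 2} (h : ∀ u v, G.Adj u v → s u + s v = s' u + s' v) {u v : α}
    (huv : G.Reachable u v) : s u + s' u = s v + s' v := by
  obtain ⟨w⟩ := huv
  induction w with
  | nil => rfl
  | @cons a b c hab p ih =>
    rw [← ih]
    have := h a b hab
    revert this
    generalize s a = x; generalize s b = y; generalize s' a = z; generalize s' b = w
    revert x y z w; decide

/-! ## f. Reachability inside an edge set, direction, coherence -/

theorem Rch.refl (S : Finset (Sym2 α)) (a : α) : Rch S a a := Reachable.refl a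

theorem Rch.symm {S : Finset (Sym2 α)} {a b : α} (h : Rch S a b) : Rch S b a := Reachable.symm h

theorem rch_comm {S : Finset (Sym2 α)} {a b : α} : Rch S a b ↔ Rch S b a := ⟨Rch.symm, Rch.symm⟩

theorem Rch.trans {S : Finset (Sym2 α)} {a b c : α} (h : Rch S a b) (h' : Rch S b c) :
    Rch S a c := Reachable.trans h h'

theorem Rch.mono {S T : Finset (Sym2 α)} {a b : α} (h : Rch S a b) (hST : S ⊆ T) : Rch T a b :=
  Reachable.mono (fromEdgeSet_mono (by exact_mod_cast hST)) h

theorem Rch.of_mem {S : Finset (Sym2 α)} {a b : α} (h : s(a, b) ∈ S) : Rch S a b := by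
  by_cases hab : a = b
  · subst hab; exact Rch.refl _ _
  · exact Adj.reachable ((fromEdgeSet_adj _).2 ⟨h, hab⟩)

/-- a set closed under the edges of `S` is closed under `Rch S` -/
theorem Rch.mem_of_closed {S : Finset (Sym2 α)} {X : Set α}
    (hX : ∀ a b, s(a, b) ∈ S → a ∈ X → b ∈ X) {a b : α} (h : Rch S a b) (ha : a ∈ X) : b ∈ X := by
  obtain ⟨w⟩ := h
  induction w with
  | nil => exact ha
  | @cons u v w huv p ih => exact ih (hX u v ((fromEdgeSet_adj _).1 huv).1 ha)

/-- a vertex which is not covered by `S` is only connected to itself -/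
theorem Rch.eq_of_notMem {S : Finset (Sym2 α)} {a b : α} (h : Rch S a b) (ha : a ∉ vs S) :
    a = b := by
  have : b ∈ ({a} : Set α) := h.mem_of_closed (X := {a}) (fun x y hxy hx => by
    rw [Set.mem_singleton_iff] at hx
    subst hx
    exact absurd (left_mem_vs hxy) ha) (Set.mem_singleton _)
  exact (Set.mem_singleton_iff.1 this).symm

theorem IsPth.rch {s t : α} {P S : Finset (Sym2 α)} (h : IsPth G s t P) (hPS : P ⊆ S) :
    Rch S s t := by
  have : IsPth (fromEdgeSet (S : Set (Sym2 α))) s t P := h.transfer fun e he => by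
    rw [edgeSet_fromEdgeSet]
    exact ⟨hPS he, h.not_isDiag e he⟩
  exact this.reachable

theorem rch_iff_isPth {S : Finset (Sym2 α)} (hS : ∀ e ∈ S, e ∈ G.edgeSet) {a b : α} :
    Rch S a b ↔ ∃ P, IsPth G a b P ∧ P ⊆ S := by
  constructor
  · intro h
    obtain ⟨P, hP⟩ := exists_isPth h
    have hPS : P ⊆ S := fun e he => by
      have := hP.subset e he
      rw [edgeSet_fromEdgeSet] at this
      exact this.1
    exact ⟨P, hP.transfer fun e he => hS e (hPS he), hPS⟩
  · rintro ⟨P, hP, hPS⟩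
    exact hP.rch hPS

/-- **splitting a path at an edge** -/
theorem IsPth.split_edge {s t c d : α} {P : Finset (Sym2 α)} (hP : IsPth G s t P)
    (h : s(c, d) ∈ P) :
    ∃ P1 P2, ((IsPth G s c P1 ∧ IsPth G d t P2) ∨ (IsPth G s d P1 ∧ IsPth G c t P2)) ∧
      P1 ∪ P2 = P \ {s(c, d)} ∧ Disjoint P1 P2 ∧ Disjoint (insert s (vs P1)) (insert t (vs P2)) := by
  revert h
  refine IsPth.rec_left (motive := fun s P => s(c, d) ∈ P →
    ∃ P1 P2, ((IsPth G s c P1 ∧ IsPth G d t P2) ∨ (IsPth G s d P1 ∧ IsPth G c t P2)) ∧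
      P1 ∪ P2 = P \ {s(c, d)} ∧ Disjoint P1 P2 ∧ Disjoint (insert s (vs P1)) (insert t (vs P2)))
    ?_ ?_ hP
  · intro h; simp at h
  · intro u s P hus hu hut hsP ih h
    by_cases he : s(c, d) = s(u, s)
    · refine ⟨∅, P, ?_, ?_, by simp, ?_⟩
      · rw [Sym2.eq_iff] at he
        rcases he with ⟨rfl, rfl⟩ | ⟨rfl, rfl⟩
        · exact Or.inl ⟨IsPth.nil _, hsP⟩
        · exact Or.inr ⟨IsPth.nil _, hsP⟩
      · rw [he, empty_union, insert_sdiff_of_mem _ (by simp), sdiff_singleton_eq_erase,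
          erase_eq_of_notMem fun h => hu (left_mem_vs h)]
      · rw [vs_empty, insert_empty_eq, disjoint_singleton_left, mem_insert, not_or]
        exact ⟨hut, hu⟩
    · have h' : s(c, d) ∈ P := (mem_insert.1 h).resolve_left he
      obtain ⟨P1, P2, h1, h2, h3, h4⟩ := ih h'
      have h2' : P1 ∪ P2 ⊆ P := h2 ▸ sdiff_subset
      have hu1 : u ∉ vs P1 := fun h => hu (vs_mono (subset_union_left.trans h2') h)
      have hu2 : u ∉ vs P2 := fun h => hu (vs_mono (subset_union_right.trans h2') h)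
      refine ⟨insert s(u, s) P1, P2, ?_, ?_, ?_, ?_⟩
      · rcases h1 with ⟨h1, h1'⟩ | ⟨h1, h1'⟩
        · exact Or.inl ⟨h1.cons hus hu1, h1'⟩
        · exact Or.inr ⟨h1.cons hus hu1, h1'⟩
      · rw [insert_union, h2, insert_sdiff_of_notMem _ (by simpa using Ne.symm he)]
      · rw [disjoint_insert_left]
        exact ⟨fun h => hu2 (left_mem_vs h), h3⟩
      · rw [vs_insert, Finset.disjoint_left]
        intro z hz hz'
        rw [mem_insert, mem_union, mem_insert, mem_singleton] at hz
        have hun : u ∉ insert t (vs P2) := by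
          rw [mem_insert, not_or]; exact ⟨hut, hu2⟩
        rcases hz with rfl | (rfl | rfl) | hz
        · exact hun hz'
        · exact hun hz'
        · exact Finset.disjoint_left.1 h4 (mem_insert_self _ _) hz'
        · exact Finset.disjoint_left.1 h4 (mem_insert_of_mem hz) hz'

open Classical in
theorem dirn_apply (s c d : α) (P : Finset (Sym2 α)) :
    dirn s c d P = if s(c, d) ∈ P ∧ Rch (P \ {s(c, d)}) s c then 1 else 0 := by
  rw [dirn]

theorem dirn_eq_zero_of_notMem {s c d : α} {P : Finset (Sym2 α)} (h : s(c, d) ∉ P) :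
    dirn s c d P = 0 := if_neg fun h' => h h'.1

theorem dirn_eq_one {s c d : α} {P : Finset (Sym2 α)} (h : s(c, d) ∈ P)
    (h' : Rch (P \ {s(c, d)}) s c) : dirn s c d P = 1 := if_pos ⟨h, h'⟩

theorem dirn_ne_zero {s c d : α} {P : Finset (Sym2 α)} :
    dirn s c d P ≠ 0 ↔ s(c, d) ∈ P ∧ Rch (P \ {s(c, d)}) s c := by
  rw [dirn]; split_ifs with h <;> simp [h]

/-- direction on a split path -/
theorem dirn_of_split {s t c d : α} {P P1 P2 : Finset (Sym2 α)} (hcd : s(c, d) ∈ P)
    (h1 : IsPth G s c P1) (h2 : IsPth G d t P2) (h3 : P1 ∪ P2 = P \ {s(c, d)})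
    (h4 : Disjoint (insert s (vs P1)) (insert t (vs P2))) :
    dirn s c d P = 1 ∧ dirn s d c P = 0 := by
  constructor
  · exact dirn_eq_one hcd (h1.rch (h3 ▸ subset_union_left))
  · rw [dirn]
    refine if_neg fun h => ?_
    have h5 := h.2
    rw [Sym2.eq_swap, ← h3] at h5
    have hd : d ∈ insert t (vs P2) := by
      by_cases hdt : d = t
      · rw [hdt]; exact mem_insert_self _ _
      · exact mem_insert_of_mem (h2.left_mem hdt)
    have := h5.mem_of_closed (X := {x | x ∈ insert s (vs P1)}) (fun x y hxy hx => by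
      rw [mem_union] at hxy
      rcases hxy with hxy | hxy
      · exact mem_insert_of_mem (right_mem_vs hxy)
      · exact absurd (mem_insert_of_mem (left_mem_vs hxy)) (Finset.disjoint_left.1 h4 hx))
      (mem_insert_self _ _)
    exact Finset.disjoint_left.1 h4 this hd

/-- **the two directions** -/
theorem IsPth.dirn_add_swap {s t : α} {P : Finset (Sym2 α)} (hP : IsPth G s t P) (c d : α) :
    dirn s c d P + dirn s d c P = chi P s(c, d) := by
  by_cases h : s(c, d) ∈ P
  · rw [chi_of_mem h]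
    obtain ⟨P1, P2, h1 | h1, h2, h3, h4⟩ := hP.split_edge h
    · rw [(dirn_of_split h h1.1 h1.2 h2 h4).1, (dirn_of_split h h1.1 h1.2 h2 h4).2, add_zero]
    · rw [Sym2.eq_swap] at h h2
      rw [(dirn_of_split h h1.1 h1.2 h2 h4).1, (dirn_of_split h h1.1 h1.2 h2 h4).2, zero_add]
  · rw [chi_of_notMem h, dirn_eq_zero_of_notMem h,
      dirn_eq_zero_of_notMem (by rwa [Sym2.eq_swap] at h), add_zero]

/-- direction as a splitting -/
theorem IsPth.dirn_eq_one_iff {s t c d : α} {P : Finset (Sym2 α)} (hP : IsPth G s t P) :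
    dirn s c d P = 1 ↔ ∃ P1 P2, IsPth G s c P1 ∧ IsPth G d t P2 ∧ s(c, d) ∈ P ∧
      P1 ∪ P2 = P \ {s(c, d)} ∧ Disjoint P1 P2 ∧ Disjoint (insert s (vs P1)) (insert t (vs P2)) := by
  constructor
  · intro h
    have hcd : s(c, d) ∈ P := by
      by_contra h'
      rw [dirn_eq_zero_of_notMem h'] at h
      exact zero_ne_one h
    obtain ⟨P1, P2, h1 | h1, h2, h3, h4⟩ := hP.split_edge hcd
    · exact ⟨P1, P2, h1.1, h1.2, hcd, h2, h3, h4⟩
    · rw [Sym2.eq_swap] at hcd h2
      rw [(dirn_of_split hcd h1.1 h1.2 h2 h4).2] at h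
      exact absurd h zero_ne_one
  · rintro ⟨P1, P2, h1, h2, h3, h4, _, h5⟩
    exact (dirn_of_split h3 h1 h2 h4 h5).1

/-- **direction seen from the other end** -/
theorem IsPth.dirn_reverse {s t : α} {P : Finset (Sym2 α)} (hP : IsPth G s t P) (c d : α) :
    dirn t d c P = dirn s c d P := by
  by_cases h : s(c, d) ∈ P
  · have h' : s(d, c) ∈ P := by rwa [Sym2.eq_swap] at h
    obtain ⟨P1, P2, h1 | h1, h2, h3, h4⟩ := hP.split_edge h
    · rw [(dirn_of_split h h1.1 h1.2 h2 h4).1]
      rw [Sym2.eq_swap, union_comm] at h2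
      exact (dirn_of_split h' h1.2.symm h1.1.symm h2 h4.symm).1
    · have h2' := h2
      rw [union_comm] at h2'
      rw [(dirn_of_split h h1.2.symm h1.1.symm h2' h4.symm).2]
      rw [Sym2.eq_swap] at h2
      rw [(dirn_of_split h' h1.1 h1.2 h2 h4).2]
  · rw [dirn_eq_zero_of_notMem h, dirn_eq_zero_of_notMem (by rwa [Sym2.eq_swap] at h)]

theorem dirn_append_left_aux {s x t c d : α} {P1 P2 A B : Finset (Sym2 α)}
    (hP2 : IsPth G x t P2) (h : vs P1 ∩ vs P2 ⊆ {x})
    (hsP1 : s ≠ x → s ∈ vs P1)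
    (hcd : s(c, d) ∈ P1) (hA : IsPth G s c A) (hB : IsPth G d x B)
    (hAB : A ∪ B = P1 \ {s(c, d)}) (hd : Disjoint (insert s (vs A)) (insert x (vs B))) :
    dirn s c d (P1 ∪ P2) = 1 ∧ dirn s d c (P1 ∪ P2) = 0 := by
  have hAB' : A ∪ B ⊆ P1 := hAB ▸ sdiff_subset
  have hxA : x ∉ insert s (vs A) := fun h => Finset.disjoint_left.1 hd h (mem_insert_self _ _)
  have hsx : s ≠ x := fun e => hxA (by rw [← e]; exact mem_insert_self _ _)
  have hP2A : Disjoint (insert s (vs A)) (vs P2) := by
    rw [Finset.disjoint_left]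
    intro z hz hz'
    have hz1 : z ∈ vs P1 := by
      rw [mem_insert] at hz
      rcases hz with rfl | hz
      · exact hsP1 hsx
      · exact vs_mono (subset_union_left.trans hAB') hz
    have := h (mem_inter.2 ⟨hz1, hz'⟩)
    rw [mem_singleton] at this
    exact hxA (this ▸ hz)
  have hBP : IsPth G d t (B ∪ P2) := hB.append hP2
    ((inter_subset_inter_right (vs_mono (subset_union_right.trans hAB'))).trans h)
  refine dirn_of_split (mem_union_left _ hcd) hA hBP ?_ ?_
  · have hcd2 : s(c, d) ∉ P2 := by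
      intro h'
      have hc := h (mem_inter.2 ⟨left_mem_vs hcd, left_mem_vs h'⟩)
      have hd' := h (mem_inter.2 ⟨right_mem_vs hcd, right_mem_vs h'⟩)
      rw [mem_singleton] at hc hd'
      apply hxA
      rw [← hc]
      by_cases hsc : s = c
      · rw [hsc]; exact mem_insert_self _ _
      · exact mem_insert_of_mem (hA.right_mem hsc)
    rw [← union_assoc, hAB, union_sdiff_distrib]
    congr 1
    rw [sdiff_singleton_eq_erase, erase_eq_of_notMem hcd2]
  · rw [vs_union, Finset.disjoint_left]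
    intro z hz hz'
    rw [mem_insert, mem_union] at hz'
    rcases hz' with rfl | hz' | hz'
    · by_cases hxz : x = z
      · exact hxA (hxz ▸ hz)
      · exact Finset.disjoint_left.1 hP2A hz (hP2.right_mem hxz)
    · exact Finset.disjoint_left.1 hd hz (mem_insert_of_mem hz')
    · exact Finset.disjoint_left.1 hP2A hz hz'

theorem IsPth.dirn_append_left {s x t c d : α} {P1 P2 : Finset (Sym2 α)}
    (hP1 : IsPth G s x P1) (hP2 : IsPth G x t P2) (h : vs P1 ∩ vs P2 ⊆ {x})
    (hcd : s(c, d) ∈ P1) : dirn s c d (P1 ∪ P2) = dirn s c d P1 := by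
  obtain ⟨A, B, h1 | h1, h2, h3, h4⟩ := hP1.split_edge hcd
  · rw [(dirn_of_split hcd h1.1 h1.2 h2 h4).1]
    exact (dirn_append_left_aux hP2 h hP1.left_mem hcd h1.1 h1.2 h2 h4).1
  · rw [Sym2.eq_swap] at h2 hcd
    rw [(dirn_of_split hcd h1.1 h1.2 h2 h4).2]
    exact (dirn_append_left_aux hP2 h hP1.left_mem hcd h1.1 h1.2 h2 h4).2

/-- **direction on a concatenation** -/
theorem IsPth.dirn_append {s x t : α} {P1 P2 : Finset (Sym2 α)}
    (hP1 : IsPth G s x P1) (hP2 : IsPth G x t P2) (h : vs P1 ∩ vs P2 ⊆ {x}) (c d : α) :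
    dirn s c d (P1 ∪ P2) = dirn s c d P1 + dirn x c d P2 := by
  have hdisj : Disjoint P1 P2 := disjoint_of_vs_subset hP1.not_isDiag h
  by_cases h1 : s(c, d) ∈ P1
  · rw [hP1.dirn_append_left hP2 h h1, dirn_eq_zero_of_notMem (Finset.disjoint_left.1 hdisj h1),
      add_zero]
  · by_cases h2 : s(c, d) ∈ P2
    · have hP := hP1.append hP2 h
      have h3 := hP2.symm.dirn_append_left hP1.symm (by rwa [inter_comm])
        (by rwa [Sym2.eq_swap] at h2 : s(d, c) ∈ P2)
      rw [union_comm, hP.dirn_reverse c d, hP2.dirn_reverse c d] at h3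
      rw [h3, dirn_eq_zero_of_notMem h1, zero_add]
    · rw [dirn_eq_zero_of_notMem h1, dirn_eq_zero_of_notMem h2, dirn_eq_zero_of_notMem, add_zero]
      rw [mem_union, not_or]
      exact ⟨h1, h2⟩

theorem dirn_start (s d : α) (P : Finset (Sym2 α)) : dirn s s d P = chi P s(s, d) := by
  rw [dirn, chi_apply]
  simp only [Rch.refl, and_true]

theorem IsPth.dirn_into_start {s t : α} {P : Finset (Sym2 α)} (hP : IsPth G s t P) (c : α) :
    dirn s c s P = 0 := by
  have := hP.dirn_add_swap s c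
  rw [dirn_start] at this
  exact add_eq_left.1 this

theorem IsPth.dirn_end {s t : α} {P : Finset (Sym2 α)} (hP : IsPth G s t P) (c : α) :
    dirn s c t P = chi P s(c, t) := by
  rw [← hP.dirn_reverse, dirn_start, Sym2.eq_swap]

theorem IsPth.dirn_from_end {s t : α} {P : Finset (Sym2 α)} (hP : IsPth G s t P) (c : α) :
    dirn s t c P = 0 := by
  rw [← hP.dirn_reverse, hP.symm.dirn_into_start]

/-! ### coherence -/

open Classical in
theorem coh_apply (a b c d : α) (C : Finset (Sym2 α)) :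
    coh a b c d C = if s(a, b) ∈ C ∧ s(c, d) ∈ C ∧ Rch (C \ {s(a, b), s(c, d)}) b c then 1 else 0 := by
  rw [coh]

theorem coh_ne_zero {a b c d : α} {C : Finset (Sym2 α)} :
    coh a b c d C ≠ 0 ↔ s(a, b) ∈ C ∧ s(c, d) ∈ C ∧ Rch (C \ {s(a, b), s(c, d)}) b c := by
  rw [coh]; split_ifs with h <;> simp [h]

theorem coh_eq_zero_left {a b c d : α} {C : Finset (Sym2 α)} (h : s(a, b) ∉ C) :
    coh a b c d C = 0 := if_neg fun h' => h h'.1

theorem coh_eq_zero_right {a b c d : α} {C : Finset (Sym2 α)} (h : s(c, d) ∉ C) :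
    coh a b c d C = 0 := if_neg fun h' => h h'.2.1

/-- **coherence and direction**: `C` contains `ab`, the rest starts in `b` -/
theorem coh_eq_dirn {a b c d : α} {C : Finset (Sym2 α)} (hab : s(a, b) ∈ C)
    (hne : s(c, d) ≠ s(a, b)) : coh a b c d C = dirn b c d (C \ {s(a, b)}) := by
  rw [coh, dirn]
  congr 1
  rw [sdiff_sdiff_left]
  have e : ({s(a, b)} ⊔ {s(c, d)} : Finset (Sym2 α)) = {s(a, b), s(c, d)} := rfl
  rw [e, mem_sdiff, mem_singleton]
  simp only [hab, true_and, hne, not_false_eq_true, and_true]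

/-- **coherence on `ab + P`** -/
theorem coh_insert {a b c d : α} {P : Finset (Sym2 α)} (hab : s(a, b) ∉ P)
    (hne : s(c, d) ≠ s(a, b)) : coh a b c d (insert s(a, b) P) = dirn b c d P := by
  rw [coh_eq_dirn (mem_insert_self _ _) hne, insert_sdiff_of_mem _ (by simp),
    sdiff_singleton_eq_erase, erase_eq_of_notMem hab]

theorem coh_insert_of_mem {a b c d : α} {P : Finset (Sym2 α)} (hab : s(a, b) ∉ P)
    (hcd : s(c, d) ∈ P) : coh a b c d (insert s(a, b) P) = dirn b c d P :=
  coh_insert hab fun e => hab (e ▸ hcd)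

/-- **coherence on `u - i - P - j - u`** -/
theorem coh_two {u i j c d : α} {P : Finset (Sym2 α)} (hP : IsPth (del G {u}) i j P)
    (huj : G.Adj u j) (hij : i ≠ j) (h1 : s(c, d) ≠ s(u, i)) (h2 : s(c, d) ≠ s(u, j)) :
    coh u i c d (insert s(u, i) (insert s(u, j) P)) = dirn i c d P := by
  obtain ⟨hP1, hP2⟩ := DL.isPth_del.1 hP
  rw [disjoint_singleton_right] at hP2
  have hnot : s(u, i) ∉ insert s(u, j) P := by
    rw [mem_insert, not_or]
    refine ⟨fun e => ?_, fun h => hP2 (left_mem_vs h)⟩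
    rw [Sym2.eq_iff] at e
    rcases e with ⟨_, e⟩ | ⟨e1, e2⟩
    · exact hij e
    · exact hij (e2.trans e1)
  rw [coh_insert hnot h1, insert_eq, union_comm]
  have h3 : IsPth G j u {s(u, j)} := (IsPth.edge huj).symm
  rw [hP1.dirn_append h3 ?_, dirn_eq_zero_of_notMem (P := {s(u, j)}) (by simpa using h2), add_zero]
  intro z hz
  rw [vs_singleton, mem_inter, mem_insert, mem_singleton] at hz
  obtain ⟨hz1, rfl | rfl⟩ := hz
  · exact absurd hz1 hP2
  · simp

/-- the edge `ui` traversed into `u` -/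
theorem coh_two' {u i j c d : α} {P : Finset (Sym2 α)} (hP : IsPth (del G {u}) i j P)
    (huj : G.Adj u j) (hij : i ≠ j) (h1 : s(c, d) ≠ s(u, i)) (h2 : s(c, d) ≠ s(u, j)) :
    coh i u c d (insert s(u, i) (insert s(u, j) P)) = dirn j c d P := by
  obtain ⟨hP1, hP2⟩ := DL.isPth_del.1 hP
  rw [disjoint_singleton_right] at hP2
  have hnot : s(i, u) ∉ insert s(u, j) P := by
    rw [mem_insert, not_or]
    refine ⟨fun e => ?_, fun h => hP2 (right_mem_vs h)⟩
    rw [Sym2.eq_iff] at e
    rcases e with ⟨e1, e2⟩ | ⟨e1, _⟩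
    · exact hij (e1.trans e2)
    · exact hij e1
  have e0 : insert s(u, i) (insert s(u, j) P) = insert s(i, u) (insert s(u, j) P) := by
    rw [Sym2.eq_swap]
  rw [e0, coh_insert hnot (by rwa [Sym2.eq_swap (a := i)]), insert_eq]
  have h3 : IsPth G u j {s(u, j)} := IsPth.edge huj
  rw [h3.dirn_append hP1.symm ?_, dirn_eq_zero_of_notMem (P := {s(u, j)}) (by simpa using h2),
    zero_add]
  intro z hz
  rw [vs_singleton, mem_inter, mem_insert, mem_singleton] at hz
  obtain ⟨rfl | rfl, hz1⟩ := hz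
  · exact absurd hz1 hP2
  · simp

theorem IsCyc.isPth' {C : Finset (Sym2 α)} {a b : α} (h : IsCyc G C) (hab : s(a, b) ∈ C) :
    IsPth G b a (C \ {s(a, b)}) := (h.isPth hab).symm

/-- **the two orientations of an edge** -/
theorem IsCyc.coh_add_swap {C : Finset (Sym2 α)} (hC : IsCyc G C) {a b c d : α}
    (hne : s(a, b) ≠ s(c, d)) :
    coh a b c d C + coh a b d c C = chi C s(a, b) * chi C s(c, d) := by
  by_cases hab : s(a, b) ∈ C
  · have hne' : s(d, c) ≠ s(a, b) := by rw [Sym2.eq_swap]; exact hne.symm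
    rw [coh_eq_dirn hab hne.symm, coh_eq_dirn hab hne', (hC.isPth' hab).dirn_add_swap,
      chi_of_mem hab, one_mul, chi_apply, chi_apply]
    simp only [mem_sdiff, mem_singleton, hne.symm, not_false_eq_true, and_true]
  · rw [coh_eq_zero_left hab, coh_eq_zero_left hab, chi_of_notMem hab, zero_mul, add_zero]

/-- **reversing both edges** -/
theorem IsCyc.coh_reverse {C : Finset (Sym2 α)} (hC : IsCyc G C) (a b c d : α) :
    coh b a d c C = coh a b c d C := by
  by_cases hab : s(a, b) ∈ C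
  · have hba : s(b, a) ∈ C := by rwa [Sym2.eq_swap] at hab
    by_cases hne : s(c, d) = s(a, b)
    · rw [Sym2.eq_iff] at hne
      rcases hne with ⟨rfl, rfl⟩ | ⟨rfl, rfl⟩
      · rw [coh, coh]
        congr 1
        rw [Sym2.eq_swap, rch_comm]
      · rw [coh, coh]
        congr 1
        simp only [hab, hba, true_and, Rch.refl]
    · have hne' : s(d, c) ≠ s(b, a) := by
        rw [Sym2.eq_swap, Sym2.eq_swap (a := b)]; exact hne
      rw [coh_eq_dirn hab hne, coh_eq_dirn hba hne', Sym2.eq_swap (a := b)]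
      exact (hC.isPth' hab).dirn_reverse c d
  · rw [coh_eq_zero_left hab, coh_eq_zero_left (by rwa [Sym2.eq_swap])]

/-- **exchanging the edges** -/
theorem IsCyc.coh_comm {C : Finset (Sym2 α)} (hC : IsCyc G C) (a b c d : α) :
    coh c d a b C = coh a b c d C := by
  rw [← hC.coh_reverse a b c d, coh, coh]
  congr 1
  rw [pair_comm, Sym2.eq_swap (a := c), Sym2.eq_swap (a := a), rch_comm (a := d)]
  exact propext and_left_comm

/-- coherence as a splitting of the cycle -/
theorem IsCyc.coh_eq_one_iff {C : Finset (Sym2 α)} (hC : IsCyc G C) {a b c d : α}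
    (hne : s(a, b) ≠ s(c, d)) :
    coh a b c d C = 1 ↔ ∃ P Q, s(a, b) ∈ C ∧ s(c, d) ∈ C ∧ IsPth G b c P ∧ IsPth G d a Q ∧
      P ∪ Q = C \ {s(a, b), s(c, d)} ∧ Disjoint P Q ∧
      Disjoint (insert b (vs P)) (insert a (vs Q)) := by
  by_cases hab : s(a, b) ∈ C
  · rw [coh_eq_dirn hab hne.symm, (hC.isPth' hab).dirn_eq_one_iff]
    have e : ({s(a, b)} ⊔ {s(c, d)} : Finset (Sym2 α)) = {s(a, b), s(c, d)} := rfl
    constructor
    · rintro ⟨P, Q, h1, h2, h3, h4, h5, h6⟩
      rw [sdiff_sdiff_left, e] at h4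
      rw [mem_sdiff] at h3
      exact ⟨P, Q, hab, h3.1, h1, h2, h4, h5, h6⟩
    · rintro ⟨P, Q, _, h3, h1, h2, h4, h5, h6⟩
      refine ⟨P, Q, h1, h2, ?_, ?_, h5, h6⟩
      · rw [mem_sdiff, mem_singleton]
        exact ⟨h3, hne.symm⟩
      · rw [sdiff_sdiff_left, e]; exact h4
  · rw [coh_eq_zero_left hab]
    constructor
    · intro h; exact absurd h zero_ne_one
    · rintro ⟨P, Q, h, _⟩; exact absurd h hab

/-! ### edges with a common vertex: coherence is polynomial -/

/-- `a → b → d` -/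
theorem coh_share_mid (a b d : α) (C : Finset (Sym2 α)) :
    coh a b b d C = chi C s(a, b) * chi C s(b, d) := by
  rw [coh, chi_apply, chi_apply]
  by_cases h1 : s(a, b) ∈ C <;> by_cases h2 : s(b, d) ∈ C <;> simp [h1, h2, Rch.refl]

/-- `c → a → b` -/
theorem IsCyc.coh_share_out {C : Finset (Sym2 α)} (hC : IsCyc G C) (a b c : α) :
    coh a b c a C = chi C s(a, b) * chi C s(c, a) := by
  rw [← hC.coh_comm, coh_share_mid, mul_comm]

theorem notMem_vs_sdiff_pair {C : Finset (Sym2 α)} (hC : IsCyc G C) {b x y : α}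
    (hx : s(b, x) ∈ C) (hy : s(b, y) ∈ C) (hxy : x ≠ y) :
    b ∉ vs (C \ {s(b, x), s(b, y)}) := by
  intro h
  obtain ⟨e, he, hbe⟩ := mem_vs.1 h
  obtain ⟨z, rfl⟩ := Sym2.mem_iff_exists.1 hbe
  rw [mem_sdiff, mem_insert, mem_singleton, not_or] at he
  rcases hC.eq_or_eq hx hy hxy he.1 with rfl | rfl
  · exact he.2.1 rfl
  · exact he.2.2 rfl

/-- `a → b`, `d → b`, `a ≠ d` -/
theorem IsCyc.coh_share_in {C : Finset (Sym2 α)} (hC : IsCyc G C) {a b d : α} (had : a ≠ d) :
    coh a b d b C = 0 := by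
  by_contra h
  rw [← ne_eq, coh_ne_zero] at h
  obtain ⟨h1, h2, h3⟩ := h
  rw [Sym2.eq_swap, Sym2.eq_swap (a := d)] at h3
  rw [Sym2.eq_swap] at h1 h2
  have := h3.eq_of_notMem (notMem_vs_sdiff_pair hC h1 h2 had)
  rw [this] at h2
  exact (hC.adj_of_mem h2).ne rfl

/-- `a → b`, `a → d`, `b ≠ d` -/
theorem IsCyc.coh_share_start {C : Finset (Sym2 α)} (hC : IsCyc G C) {a b d : α} (hbd : b ≠ d) :
    coh a b a d C = 0 := by
  rw [← hC.coh_reverse, hC.coh_share_in hbd]

/-- twice the same oriented edge -/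
theorem IsCyc.coh_self {C : Finset (Sym2 α)} (hC : IsCyc G C) (a b : α) :
    coh a b a b C = chi C s(a, b) := by
  rw [coh, chi_apply]
  by_cases h : s(a, b) ∈ C
  · rw [if_pos h, if_pos]
    refine ⟨h, h, ?_⟩
    rw [pair_eq_singleton]
    exact (hC.isPth' h).rch subset_rfl
  · rw [if_neg h, if_neg fun h' => h h'.1]

theorem coh_self_rev (a b : α) (C : Finset (Sym2 α)) : coh a b b a C = chi C s(a, b) := by
  rw [coh_share_mid, Sym2.eq_swap (a := b), chi_apply]
  split_ifs <;> simp

/-- **coherence of two edges with a common vertex is one of `0`, `x_e x_f`** -/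
theorem coh_share {a b c d : α} (h : ∃ v, v ∈ s(a, b) ∧ v ∈ s(c, d)) :
    (∀ (G : SimpleGraph α) (C : Finset (Sym2 α)), IsCyc G C → coh a b c d C = 0) ∨
      ∀ (G : SimpleGraph α) (C : Finset (Sym2 α)), IsCyc G C →
        coh a b c d C = chi C s(a, b) * chi C s(c, d) := by
  obtain ⟨v, h1, h2⟩ := h
  rw [Sym2.mem_iff] at h1 h2
  have hsq : ∀ x : ZMod 2, x = x * x := by decide
  rcases h1 with rfl | rfl <;> rcases h2 with rfl | rfl
  · by_cases hbd : b = d
    · subst hbd
      right
      intro G C hC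
      rw [hC.coh_self]
      exact hsq _
    · left
      intro G C hC
      exact hC.coh_share_start hbd
  · right
    intro G C hC
    exact hC.coh_share_out _ _ _
  · right
    intro G C hC
    exact coh_share_mid _ _ _ _
  · by_cases hac : a = c
    · subst hac
      right
      intro G C hC
      rw [hC.coh_self]
      exact hsq _
    · left
      intro G C hC
      exact hC.coh_share_in hac

end DL
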