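import Mathlib
import Pool.Agent.DL.Defs
import Pool.Agent.DL.Z1
import Pool.Agent.DL.PC
import Pool.Agent.DL.PC2

/-!
MP_3ff0f8_gt, ALGEBRA HALF: the theorem of Menger (vertex version, Göring's proof).  (helper59)
-/

open SimpleGraph Finset

namespace DL

set_option linter.unusedSectionVars false
set_option linter.unusedFintypeInType false
set_option linter.unusedDecidableInType false

variable {α : Type*} [Fintype α] [DecidableEq α] {G H : SimpleGraph α}

/-! ## Separators -/

/-- the set `S` meets every path from `A` to `B` -/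
def VSep (G : SimpleGraph α) (A B S : Finset α) : Prop :=
  ∀ a ∈ A, ∀ b ∈ B, ∀ P, IsPth G a b P → ∃ v ∈ insert a (vs P), v ∈ S

theorem del_le (G : SimpleGraph α) (S : Finset α) : del G S ≤ G := fun _ _ h => h.1

theorem del_mono_graph (h : G ≤ H) (S : Finset α) : del G S ≤ del H S :=
  fun _ _ hab => ⟨h hab.1, hab.2⟩

theorem del_anti {S T : Finset α} (h : S ⊆ T) : del G T ≤ del G S :=
  fun _ _ hab => ⟨hab.1, fun h' => hab.2.1 (h h'), fun h' => hab.2.2 (h h')⟩

@[simp] theorem del_empty (G : SimpleGraph α) : del G ∅ = G := by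
  ext a b; simp [del]

theorem del_del (G : SimpleGraph α) (S T : Finset α) : del (del G S) T = del G (S ∪ T) := by
  ext a b
  simp only [del, mem_union, not_or]
  tauto

theorem del_adj {S : Finset α} {a b : α} : (del G S).Adj a b ↔ G.Adj a b ∧ a ∉ S ∧ b ∉ S := Iff.rfl

theorem delE_comm (G : SimpleGraph α) (x y : α) : delE G x y = delE G y x := by
  rw [delE, delE, Sym2.eq_swap]

theorem delE_le (G : SimpleGraph α) (x y : α) : delE G x y ≤ G := deleteEdges_le _

theorem delE_adj {x y a b : α} : (delE G x y).Adj a b ↔ G.Adj a b ∧ s(a, b) ≠ s(x, y) := by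
  rw [delE, deleteEdges_adj, Set.mem_singleton_iff]

theorem reachable_del_notMem_left {S : Finset α} {a b : α} (h : (del G S).Reachable a b)
    (hb : b ∉ S) : a ∉ S := by
  obtain ⟨w⟩ := h
  cases w with
  | nil => exact hb
  | cons h p => exact h.2.1

theorem reachable_del_notMem_right {S : Finset α} {a b : α} (h : (del G S).Reachable a b)
    (ha : a ∉ S) : b ∉ S := reachable_del_notMem_left h.symm ha

/-- the end is a vertex of the path -/
theorem IsPth.end_mem {s t : α} {P : Finset (Sym2 α)} (h : IsPth G s t P) :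
    t ∈ insert s (vs P) := by
  by_cases hst : s = t
  · rw [hst]; exact mem_insert_self _ _
  · exact mem_insert_of_mem (h.right_mem hst)

/-- the vertices of a path, seen from the other end -/
theorem IsPth.insert_vs {s t : α} {P : Finset (Sym2 α)} (h : IsPth G s t P) :
    insert s (vs P) = insert t (vs P) := by
  by_cases hst : s = t
  · rw [hst]
  · rw [insert_eq_of_mem (h.left_mem hst), insert_eq_of_mem (h.right_mem hst)]

theorem IsPth.reachable_del {s t : α} {P : Finset (Sym2 α)} {S : Finset α} (h : IsPth G s t P)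
    (hS : ∀ z ∈ insert s (vs P), z ∉ S) : (del G S).Reachable s t := by
  refine IsPth.reachable (P := P) (DL.isPth_del.2 ⟨h, ?_⟩)
  rw [Finset.disjoint_left]
  exact fun z hz => hS z (mem_insert_of_mem hz)

theorem vsep_iff {A B S : Finset α} :
    VSep G A B S ↔ ∀ a ∈ A, ∀ b ∈ B, a ∉ S → b ∉ S → ¬ (del G S).Reachable a b := by
  constructor
  · intro h a ha b hb haS hbS hr
    obtain ⟨P, hP⟩ := exists_isPth hr
    obtain ⟨hP1, hP2⟩ := DL.isPth_del.1 hP
    obtain ⟨v, hv, hvS⟩ := h a ha b hb P hP1
    rw [mem_insert] at hv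
    rcases hv with rfl | hv
    · exact haS hvS
    · exact Finset.disjoint_left.1 hP2 hv hvS
  · intro h a ha b hb P hP
    by_contra hc
    push Not at hc
    exact h a ha b hb (hc a (mem_insert_self _ _)) (hc b hP.end_mem) (hP.reachable_del hc)

theorem VSep.symm {A B S : Finset α} (h : VSep G A B S) : VSep G B A S := by
  rw [vsep_iff] at *
  exact fun b hb a ha hbS haS hr => h a ha b hb haS hbS hr.symm

theorem VSep.anti {A B S : Finset α} (h : VSep G A B S) (hHG : H ≤ G) : VSep H A B S :=
  fun a ha b hb P hP => h a ha b hb P (hP.mono hHG)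

theorem VSep.mono_sep {A B S T : Finset α} (h : VSep G A B S) (hST : S ⊆ T) : VSep G A B T :=
  fun a ha b hb P hP => by
    obtain ⟨v, hv, hvS⟩ := h a ha b hb P hP
    exact ⟨v, hv, hST hvS⟩

/-! ## Linked sets -/

/-- `k` disjoint paths from `A` to `B` -/
def Linked (G : SimpleGraph α) (A B : Finset α) (k : ℕ) : Prop :=
  ∃ (a b : Fin k → α) (P : Fin k → Finset (Sym2 α)), (∀ i, a i ∈ A) ∧ (∀ i, b i ∈ B) ∧
    (∀ i, IsPth G (a i) (b i) (P i)) ∧
    ∀ i j, i ≠ j → Disjoint (insert (a i) (vs (P i))) (insert (a j) (vs (P j)))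

theorem Linked.mono {A B : Finset α} {k : ℕ} (h : Linked G A B k) (hGH : G ≤ H) :
    Linked H A B k := by
  obtain ⟨a, b, P, h1, h2, h3, h4⟩ := h
  exact ⟨a, b, P, h1, h2, fun i => (h3 i).mono hGH, h4⟩

/-- Göring's lemma -/
theorem goring_aux {A B S T : Finset α} {x y b : α} (hS : VSep (delE G x y) A B S)
    (hxS : x ∉ S) (hyS : y ∉ S) (hb : b ∈ B) (hbS : b ∉ S)
    (hyb : (del (delE G x y) S).Reachable y b)
    (hT : VSep (delE G x y) A (insert x S) T) : VSep G A B T := by
  intro a' ha' b' hb' W hW
  -- `W` meets `insert x S`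
  have hmeet : ∃ v ∈ insert a' (vs W), v ∈ insert x S := by
    by_cases hxy : s(x, y) ∈ W
    · exact ⟨x, mem_insert_of_mem (left_mem_vs hxy), mem_insert_self _ _⟩
    · obtain ⟨v, hv, hvS⟩ := hS a' ha' b' hb' W (isPth_delE.2 ⟨hW, hxy⟩)
      exact ⟨v, hv, mem_insert_of_mem hvS⟩
  obtain ⟨v, W1, W2, hvX, hW1, hW2, hW12, _, hW12', hfirst, hstart⟩ :=
    hW.first (X := ((insert x S : Finset α) : Set α)) (by
      obtain ⟨v, hv, hvX⟩ := hmeet
      rw [mem_insert] at hv
      rcases hv with rfl | hv
      · exact Or.inl hvX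
      · exact Or.inr ⟨v, hv, hvX⟩)
  have hvX' : v ∈ insert x S := hvX
  have hxy : s(x, y) ∉ W1 := by
    intro hxy
    have hvx : x = v := hfirst x (left_mem_vs hxy) (mem_coe.2 (mem_insert_self _ _))
    subst hvx
    -- the path from `a'` to `y`
    have hax : a' ≠ x := by
      rintro rfl
      rw [hW1.eq_empty] at hxy
      simp at hxy
    obtain ⟨u, hxu, hu1, hu2, hu3⟩ := hW1.symm.uncons hax.symm
    have : y = u := hW1.symm.left_unique hxy hu1
    subst this
    have hW3 : IsPth (delE G x y) y a' (W1 \ {s(x, y)}) := isPth_delE.2 ⟨hu3, by simp⟩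
    have hr : (del (delE G x y) S).Reachable y a' := by
      refine hW3.reachable_del fun z hz hzS => ?_
      rw [mem_insert] at hz
      rcases hz with rfl | hz
      · exact hyS hzS
      · have := hfirst z (vs_mono sdiff_subset hz) (mem_coe.2 (mem_insert_of_mem hzS))
        exact hxS (this ▸ hzS)
    exact vsep_iff.1 hS a' ha' b hb (reachable_del_notMem_right hr hyS) hbS (hr.symm.trans hyb)
  obtain ⟨z, hz, hzT⟩ := hT a' ha' v hvX' W1 (isPth_delE.2 ⟨hW1, hxy⟩)
  refine ⟨z, ?_, hzT⟩
  rw [mem_insert] at hz ⊢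
  exact hz.imp id fun h => vs_mono (hW12 ▸ subset_union_left) h

/-- initial segments of a path which meets `S` only in its end avoid `S` -/
theorem IsPth.reachable_del_of_end {s t v : α} {P : Finset (Sym2 α)} {S : Finset α}
    (h : IsPth G s t P) (hv : v ∈ insert s (vs P)) (hS : ∀ z ∈ insert s (vs P), z ∈ S → z = t)
    (hvS : v ∉ S) : (del G S).Reachable s v := by
  rw [mem_insert] at hv
  obtain ⟨W1, W2, hW1, hW2, hW12, _, hW3⟩ := h.split hv
  refine hW1.reachable_del fun z hz hzS => ?_
  have hz' : z ∈ insert s (vs P) := by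
    rw [mem_insert] at hz ⊢
    exact hz.imp id fun h => vs_mono (hW12 ▸ subset_union_left) h
  have hzt := hS z hz' hzS
  subst hzt
  have hvt : v ≠ z := fun e => hvS (e ▸ hzS)
  have hz2 : z ∈ vs W2 := hW2.right_mem hvt
  rw [mem_insert] at hz
  rcases hz with rfl | hz
  · rw [h.eq_empty] at hv
    simp only [vs_empty, notMem_empty, or_false] at hv
    exact hvt hv
  · have := hW3 (mem_inter.2 ⟨hz, hz2⟩)
    rw [mem_singleton] at this
    exact hvt this.symm

/-- joining two linkages at `S + x` and `S + y` -/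
theorem goring_join {A B S : Finset α} {x y : α} {k : ℕ} (hxy : G.Adj x y)
    (hS : VSep (delE G x y) A B S) (hxS : x ∉ S) (hyS : y ∉ S) (hk : S.card < k)
    (h1 : Linked (delE G x y) A (insert x S) k) (h2 : Linked (delE G x y) (insert y S) B k) :
    Linked G A B k := by
  classical
  obtain ⟨a, b, P, ha, hb, hP, hd⟩ := h1
  obtain ⟨a', b', P', ha', hb', hP', hd'⟩ := h2
  have hbinj : Function.Injective b := by
    intro i j hij
    by_contra hne
    exact Finset.disjoint_left.1 (hd i j hne) (hP i).end_mem (hij ▸ (hP j).end_mem)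
  have hainj : Function.Injective a' := by
    intro i j hij
    by_contra hne
    exact Finset.disjoint_left.1 (hd' i j hne) (mem_insert_self _ _)
      (hij ▸ mem_insert_self _ _)
  have hcx : (insert x S).card ≤ k := by rw [card_insert_of_notMem hxS]; exact hk
  have hcy : (insert y S).card ≤ k := by rw [card_insert_of_notMem hyS]; exact hk
  have hbsurj : ∀ p ∈ insert x S, ∃ i, b i = p := by
    have : univ.image b = insert x S := by
      apply eq_of_subset_of_card_le
      · intro p hp
        obtain ⟨i, _, rfl⟩ := mem_image.1 hp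
        exact hb i
      · rw [card_image_of_injective _ hbinj]
        simpa using hcx
    intro p hp
    rw [← this] at hp
    obtain ⟨i, _, hi⟩ := mem_image.1 hp
    exact ⟨i, hi⟩
  have hasurj : ∀ p ∈ insert y S, ∃ i, a' i = p := by
    have : univ.image a' = insert y S := by
      apply eq_of_subset_of_card_le
      · intro p hp
        obtain ⟨i, _, rfl⟩ := mem_image.1 hp
        exact ha' i
      · rw [card_image_of_injective _ hainj]
        simpa using hcy
    intro p hp
    rw [← this] at hp
    obtain ⟨i, _, hi⟩ := mem_image.1 hp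
    exact ⟨i, hi⟩
  -- the paths meet the separators only in their ends
  have hend : ∀ i, ∀ z ∈ insert (a i) (vs (P i)), z ∈ insert x S → z = b i := by
    intro i z hz hzS
    obtain ⟨j, hj⟩ := hbsurj z hzS
    by_cases hij : i = j
    · rw [hij, hj]
    · exact absurd (hj ▸ (hP j).end_mem) (Finset.disjoint_left.1 (hd i j hij) hz)
  have hstart : ∀ i, ∀ z ∈ insert (a' i) (vs (P' i)), z ∈ insert y S → z = a' i := by
    intro i z hz hzS
    obtain ⟨j, hj⟩ := hasurj z hzS
    by_cases hij : i = j
    · rw [hij, hj]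
    · exact absurd (hj ▸ mem_insert_self _ _) (Finset.disjoint_left.1 (hd' i j hij) hz)
  -- intersections
  have hint : ∀ i j z, z ∈ insert (a i) (vs (P i)) → z ∈ insert (a' j) (vs (P' j)) → z ∈ S := by
    intro i j z hz hz'
    by_contra hzS
    have r1 := (hP i).reachable_del_of_end hz
      (fun w hw hwS => hend i w hw (mem_insert_of_mem hwS)) hzS
    have hz'' : z ∈ insert (b' j) (vs (P' j)) := by rwa [← (hP' j).insert_vs]
    have r2 := (hP' j).symm.reachable_del_of_end hz''
      (fun w hw hwS => hstart j w (by rwa [(hP' j).insert_vs]) (mem_insert_of_mem hwS)) hzS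
    exact vsep_iff.1 hS (a i) (ha i) (b' j) (hb' j) (reachable_del_notMem_left r1 hzS)
      (reachable_del_notMem_left r2 hzS) (r1.trans r2.symm)
  have hσ : ∀ i, ∃ j, a' j = if b i = x then y else b i := by
    intro i
    apply hasurj
    split_ifs with h
    · exact mem_insert_self _ _
    · exact mem_insert_of_mem ((mem_insert.1 (hb i)).resolve_left h)
  choose j hj using hσ
  -- `b i` lies in `S` unless it is `x`
  have hbS : ∀ i, b i ≠ x → b i ∈ S := fun i h => (mem_insert.1 (hb i)).resolve_left h
  have hS1 : ∀ i z, z ∈ S → z ∈ insert (a i) (vs (P i)) → z = b i :=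
    fun i z hzS hz => hend i z hz (mem_insert_of_mem hzS)
  have hS2 : ∀ i z, z ∈ S → z ∈ insert (a' (j i)) (vs (P' (j i))) → z = b i := by
    intro i z hzS hz
    have e := hstart _ z hz (mem_insert_of_mem hzS)
    rw [hj i] at e
    split_ifs at e with h
    · exact absurd (e ▸ hzS) hyS
    · exact e
  have hjj : ∀ i i', j i = j i' → i = i' := by
    intro i i' h
    have e : a' (j i) = a' (j i') := by rw [h]
    rw [hj, hj] at e
    apply hbinj
    split_ifs at e with h1 h2 h2
    · rw [h1, h2]
    · exact absurd (e ▸ hbS i' h2) hyS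
    · exact absurd (e ▸ hbS i h1) hyS
    · exact e
  set L : Fin k → Finset (Sym2 α) := fun i => if b i = x then {s(x, y)} else ∅ with hL
  have hLp : ∀ i, IsPth G (b i) (a' (j i)) (L i) := by
    intro i
    rw [hj, hL]
    by_cases h : b i = x
    · simp only [h, if_true]
      exact IsPth.edge hxy
    · simp only [h, if_false]
      exact IsPth.nil _
  have hLv : ∀ i z, z ∈ vs (L i) → b i = x ∧ (z = x ∨ z = y) := by
    intro i z hz
    rw [hL] at hz
    by_cases h : b i = x
    · refine ⟨h, ?_⟩
      simp only [h, if_true] at hz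
      rw [vs_singleton, mem_insert, mem_singleton] at hz
      exact hz
    · simp only [h, if_false, vs_empty, notMem_empty] at hz
  have hyj : ∀ i, b i = x → a' (j i) = y := fun i h => by rw [hj, if_pos h]
  have hR1 : ∀ i, IsPth G (a i) (a' (j i)) (P i ∪ L i) := by
    intro i
    refine ((hP i).mono (delE_le _ _ _)).append (hLp i) fun z hz => ?_
    rw [mem_inter] at hz
    obtain ⟨h1, rfl | rfl⟩ := hLv i z hz.2
    · rw [mem_singleton, h1]
    · have := hint i (j i) z (mem_insert_of_mem hz.1) (by rw [hyj i h1]; exact mem_insert_self _ _)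
      exact absurd this hyS
  have hR2 : ∀ i, IsPth G (a i) (b' (j i)) (P i ∪ L i ∪ P' (j i)) := by
    intro i
    refine (hR1 i).append ((hP' (j i)).mono (delE_le _ _ _)) fun z hz => ?_
    rw [mem_inter, mem_vs_union] at hz
    rw [mem_singleton]
    obtain ⟨hz1 | hz1, hz2⟩ := hz
    · have hzS := hint i (j i) z (mem_insert_of_mem hz1) (mem_insert_of_mem hz2)
      exact hstart _ z (mem_insert_of_mem hz2) (mem_insert_of_mem hzS)
    · obtain ⟨h1, rfl | rfl⟩ := hLv i z hz1
      · have := hint i (j i) z (by rw [← h1]; exact (hP i).end_mem) (mem_insert_of_mem hz2)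
        exact absurd this hxS
      · exact (hyj i h1).symm
  have hV : ∀ i z, z ∈ insert (a i) (vs (P i ∪ L i ∪ P' (j i))) →
      z ∈ insert (a i) (vs (P i)) ∨ z ∈ insert (a' (j i)) (vs (P' (j i))) := by
    intro i z hz
    rw [mem_insert, mem_vs_union, mem_vs_union] at hz
    rcases hz with rfl | (hz | hz) | hz
    · exact Or.inl (mem_insert_self _ _)
    · exact Or.inl (mem_insert_of_mem hz)
    · obtain ⟨h1, rfl | rfl⟩ := hLv i z hz
      · left; rw [← h1]; exact (hP i).end_mem
      · right; rw [hyj i h1]; exact mem_insert_self _ _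
    · exact Or.inr (mem_insert_of_mem hz)
  refine ⟨a, fun i => b' (j i), fun i => P i ∪ L i ∪ P' (j i), ha, fun i => hb' _, hR2, ?_⟩
  intro i i' hii
  rw [Finset.disjoint_left]
  intro z hz hz'
  rcases hV i z hz with h1 | h1 <;> rcases hV i' z hz' with h2 | h2
  · exact Finset.disjoint_left.1 (hd i i' hii) h1 h2
  · have hzS := hint i (j i') z h1 h2
    exact hii (hbinj ((hS1 i z hzS h1).symm.trans (hS2 i' z hzS h2)))
  · have hzS := hint i' (j i) z h2 h1
    exact hii (hbinj ((hS2 i z hzS h1).symm.trans (hS1 i' z hzS h2)))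
  · exact Finset.disjoint_left.1 (hd' (j i) (j i') fun e => hii (hjj i i' e)) h1 h2

theorem menger_aux (k : ℕ) :
    ∀ (n : ℕ) (A B : Finset α) (G : SimpleGraph α), G.edgeSet.ncard = n →
      (∀ S, VSep G A B S → k ≤ S.card) → Linked G A B k := by
  classical
  intro n
  induction n using Nat.strong_induction_on with
  | _ n ih =>
    intro A B G hn hmin
    by_cases h0 : G.edgeSet = ∅
    · have h1 : VSep G A B (A ∩ B) := by
        intro a ha b hb P hP
        have hP0 : P = ∅ := by
          rw [eq_empty_iff_forall_notMem]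
          intro e he
          have := hP.subset e he
          rw [h0] at this
          exact this
        subst hP0
        have := hP.eq_of_empty
        subst this
        exact ⟨a, mem_insert_self _ _, mem_inter.2 ⟨ha, hb⟩⟩
      have h2 := hmin _ h1
      have h3 : Fintype.card (Fin k) ≤ Fintype.card (A ∩ B : Finset α) := by
        rw [Fintype.card_fin, Fintype.card_coe]; exact h2
      obtain ⟨f⟩ := Function.Embedding.nonempty_of_card_le h3
      refine ⟨fun i => (f i : α), fun i => (f i : α), fun _ => ∅,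
        fun i => (mem_inter.1 (f i).2).1, fun i => (mem_inter.1 (f i).2).2,
        fun i => IsPth.nil _, fun i j hij => ?_⟩
      rw [vs_empty, insert_empty_eq, insert_empty_eq, disjoint_singleton]
      exact fun e => hij (f.injective (Subtype.ext e))
    · obtain ⟨e, he⟩ := Set.nonempty_iff_ne_empty.2 h0
      induction e using Sym2.ind with
      | _ x0 y0 =>
        have hadj : G.Adj x0 y0 := he
        have hlt : (delE G x0 y0).edgeSet.ncard < n := by
          rw [← hn]
          apply Set.ncard_lt_ncard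
          · rw [delE, edgeSet_deleteEdges]
            refine ⟨Set.sdiff_subset, fun h => ?_⟩
            exact (h he).2 rfl
          · exact Set.toFinite _
        by_cases h : ∀ S, VSep (delE G x0 y0) A B S → k ≤ S.card
        · exact (ih _ hlt _ _ _ rfl h).mono (delE_le _ _ _)
        · push Not at h
          obtain ⟨S, hS, hSk⟩ := h
          have hnot : ¬ VSep G A B S := fun h => absurd (hmin S h) (not_le.2 hSk)
          unfold VSep at hnot
          push Not at hnot
          obtain ⟨a, ha, b, hb, R, hR, hRS⟩ := hnot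
          have haS : a ∉ S := hRS a (mem_insert_self _ _)
          have hbS : b ∉ S := hRS b hR.end_mem
          have hxyR : s(x0, y0) ∈ R := by
            by_contra h
            obtain ⟨v, hv, hvS⟩ := hS a ha b hb R (isPth_delE.2 ⟨hR, h⟩)
            exact hRS v hv hvS
          have key : ∀ x y, G.Adj x y → delE G x y = delE G x0 y0 → x ∉ S → y ∉ S →
              (del (delE G x0 y0) S).Reachable a x → (del (delE G x0 y0) S).Reachable y b →
              Linked G A B k := by
            intro x y hxy hd hxS hyS hax hyb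
            have hlt' : (delE G x y).edgeSet.ncard < n := by rw [hd]; exact hlt
            rw [← hd] at hS hax hyb
            refine goring_join hxy hS hxS hyS hSk ?_ ?_
            · refine ih _ hlt' _ _ _ rfl fun T hT => hmin T ?_
              exact goring_aux hS hxS hyS hb hbS hyb hT
            · refine ih _ hlt' _ _ _ rfl fun T hT => hmin T ?_
              have hS' := hS.symm
              have hT' := hT.symm
              rw [delE_comm] at hS' hT' hax
              exact (goring_aux hS' hyS hxS ha haS hax.symm hT').symm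
          obtain ⟨R1, R2, h1, h2, h3, h4⟩ := hR.split_edge hxyR
          have hR1R : R1 ⊆ R := (subset_union_left (s₂ := R2)).trans (h2 ▸ sdiff_subset)
          have hR2R : R2 ⊆ R := (subset_union_right (s₁ := R1)).trans (h2 ▸ sdiff_subset)
          have hx0S : x0 ∉ S := hRS x0 (mem_insert_of_mem (left_mem_vs hxyR))
          have hy0S : y0 ∉ S := hRS y0 (mem_insert_of_mem (right_mem_vs hxyR))
          have hn1 : s(x0, y0) ∉ R1 := fun h => by
            have := h2 ▸ mem_union_left R2 h
            simp at this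
          have hn2 : s(x0, y0) ∉ R2 := fun h => by
            have := h2 ▸ mem_union_right R1 h
            simp at this
          have r1 : ∀ u, IsPth G a u R1 → (del (delE G x0 y0) S).Reachable a u := by
            intro u hu
            refine IsPth.reachable_del (P := R1) (isPth_delE.2 ⟨hu, hn1⟩) fun z hz => ?_
            rw [mem_insert] at hz
            exact hRS z (mem_insert.2 (hz.imp id fun h => vs_mono hR1R h))
          have r2 : ∀ u, IsPth G u b R2 → (del (delE G x0 y0) S).Reachable u b := by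
            intro u hu
            refine (IsPth.reachable_del (P := R2) (isPth_delE.2 ⟨hu.symm, hn2⟩) fun z hz => ?_).symm
            rw [mem_insert] at hz
            rcases hz with rfl | hz
            · exact hbS
            · exact hRS z (mem_insert_of_mem (vs_mono hR2R hz))
          rcases h1 with ⟨p1, p2⟩ | ⟨p1, p2⟩
          · exact key x0 y0 hadj rfl hx0S hy0S (r1 _ p1) (r2 _ p2)
          · exact key y0 x0 hadj.symm (delE_comm _ _ _) hy0S hx0S (r1 _ p1) (r2 _ p2)

/-- **MENGER's theorem** -/
theorem menger_linked {A B : Finset α} {k : ℕ} (h : ∀ S, VSep G A B S → k ≤ S.card) :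
    Linked G A B k := menger_aux k _ A B G rfl h

/-- shortening a path from `A` to `B` -/
theorem IsPth.trim {s t : α} {P : Finset (Sym2 α)} (h : IsPth G s t P) {A B : Finset α}
    (hs : s ∈ A) (ht : t ∈ B) :
    ∃ a b Q, a ∈ A ∧ b ∈ B ∧ IsPth G a b Q ∧ insert a (vs Q) ⊆ insert s (vs P) ∧ Q ⊆ P ∧
      (∀ z ∈ insert a (vs Q), z ∈ A → z = a) ∧ (∀ z ∈ insert a (vs Q), z ∈ B → z = b) := by
  obtain ⟨b, P1, P2, hbB, hP1, _, h12, _, _, hf, _⟩ := h.first (X := (B : Set α)) (by
    by_cases hst : s = t
    · left; rw [hst]; exact ht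
    · right; exact ⟨t, h.right_mem hst, ht⟩)
  obtain ⟨a, Q1, Q2, haA, hQ1, _, h34, _, _, hg, _⟩ := hP1.symm.first (X := (A : Set α)) (by
    by_cases hst : s = b
    · left; rw [← hst]; exact hs
    · right; exact ⟨s, hP1.left_mem hst, hs⟩)
  have hQP1 : Q1 ⊆ P1 := h34 ▸ subset_union_left
  have hP1P : P1 ⊆ P := h12 ▸ subset_union_left
  refine ⟨a, b, Q1, haA, hbB, hQ1.symm, ?_, hQP1.trans hP1P, ?_, ?_⟩
  · rw [hQ1.symm.insert_vs]
    intro z hz
    rw [mem_insert] at hz
    rcases hz with rfl | hz
    · have := hP1.end_mem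
      rw [mem_insert] at this ⊢
      exact this.imp id fun h => vs_mono hP1P h
    · exact mem_insert_of_mem (vs_mono (hQP1.trans hP1P) hz)
  · intro z hz hzA
    rw [mem_insert] at hz
    rcases hz with rfl | hz
    · rfl
    · exact hg z hz hzA
  · intro z hz hzB
    rw [hQ1.symm.insert_vs, mem_insert] at hz
    rcases hz with rfl | hz
    · rfl
    · exact hf z (vs_mono hQP1 hz) hzB

/-- **MENGER's theorem**, with paths which meet `A` only in the start and `B` only in the end -/
theorem menger {A B : Finset α} {k : ℕ} (h : ∀ S, VSep G A B S → k ≤ S.card) :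
    ∃ (a b : Fin k → α) (P : Fin k → Finset (Sym2 α)), (∀ i, a i ∈ A) ∧ (∀ i, b i ∈ B) ∧
      (∀ i, IsPth G (a i) (b i) (P i)) ∧
      (∀ i j, i ≠ j → Disjoint (insert (a i) (vs (P i))) (insert (a j) (vs (P j)))) ∧
      (∀ i, ∀ z ∈ insert (a i) (vs (P i)), z ∈ A → z = a i) ∧
      (∀ i, ∀ z ∈ insert (a i) (vs (P i)), z ∈ B → z = b i) := by
  obtain ⟨a, b, P, ha, hb, hP, hd⟩ := menger_linked h
  choose a' b' P' h1 h2 h3 h4 _ h6 h7 using fun i => (hP i).trim (ha i) (hb i)
  exact ⟨a', b', P', h1, h2, h3, fun i j hij =>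
    disjoint_of_subset_left (h4 i) (disjoint_of_subset_right (h4 j) (hd i j hij)), h6, h7⟩

/-- **MENGER's theorem**, hypothesis in terms of reachability -/
theorem menger' {A B : Finset α} {k : ℕ}
    (h : ∀ S : Finset α, S.card < k → ∃ a ∈ A, ∃ b ∈ B, a ∉ S ∧ b ∉ S ∧ (del G S).Reachable a b) :
    ∃ (a b : Fin k → α) (P : Fin k → Finset (Sym2 α)), (∀ i, a i ∈ A) ∧ (∀ i, b i ∈ B) ∧
      (∀ i, IsPth G (a i) (b i) (P i)) ∧
      (∀ i j, i ≠ j → Disjoint (insert (a i) (vs (P i))) (insert (a j) (vs (P j)))) ∧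
      (∀ i, ∀ z ∈ insert (a i) (vs (P i)), z ∈ A → z = a i) ∧
      (∀ i, ∀ z ∈ insert (a i) (vs (P i)), z ∈ B → z = b i) := by
  refine menger fun S hS => ?_
  by_contra hk
  obtain ⟨a, ha, b, hb, haS, hbS, hr⟩ := h S (not_le.1 hk)
  exact vsep_iff.1 hS a ha b hb haS hbS hr

/-- **FAN lemma** -/
theorem fan {v : α} {B : Finset α} {k : ℕ} (hv : v ∉ B)
    (h : ∀ T : Finset α, v ∉ T → T.card < k → ∃ b ∈ B, b ∉ T ∧ (del G T).Reachable v b) :
    ∃ (b : Fin k → α) (P : Fin k → Finset (Sym2 α)), (∀ i, b i ∈ B) ∧ Function.Injective b ∧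
      (∀ i, IsPth G v (b i) (P i)) ∧ (∀ i j, i ≠ j → vs (P i) ∩ vs (P j) ⊆ {v}) ∧
      (∀ i, ∀ z ∈ vs (P i), z ∈ B → z = b i) := by
  classical
  have hm := menger (G := del G {v}) (A := univ.filter fun u => G.Adj v u) (B := B) (k := k) (by
    intro S hS
    by_contra hk
    obtain ⟨b, hb, hbT, hr⟩ := h (S.erase v) (notMem_erase _ _)
      (lt_of_le_of_lt (card_erase_le) (not_le.1 hk))
    obtain ⟨R, hR⟩ := exists_isPth hr
    have hvb : v ≠ b := fun e => hv (e ▸ hb)
    obtain ⟨u, hu, _, hu2, hu3⟩ := hR.uncons hvb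
    obtain ⟨q1, q2⟩ := DL.isPth_del.1 hu3
    obtain ⟨z, hz, hzS⟩ := hS u (by simpa using hu.1) b hb (R \ {s(v, u)})
      (DL.isPth_del.2 ⟨q1, disjoint_singleton_right.2 hu2⟩)
    rw [mem_insert] at hz
    rcases hz with rfl | hz
    · exact hu.2.2 (mem_erase.2 ⟨hu.1.ne.symm, hzS⟩)
    · have hzv : z ≠ v := fun e => hu2 (e ▸ hz)
      exact Finset.disjoint_left.1 q2 hz (mem_erase.2 ⟨hzv, hzS⟩))
  obtain ⟨a, b, P, ha, hb, hP, hd, _, hB⟩ := hm
  have ha' : ∀ i, G.Adj v (a i) := fun i => by simpa using ha i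
  have hP' := fun i => DL.isPth_del.1 (hP i)
  have hvP : ∀ i, v ∉ vs (P i) := fun i => disjoint_singleton_right.1 (hP' i).2
  have hbinj : Function.Injective b := by
    intro i j hij
    by_contra hne
    exact Finset.disjoint_left.1 (hd i j hne) (hP i).end_mem (hij ▸ (hP j).end_mem)
  refine ⟨b, fun i => insert s(v, a i) (P i), hb, hbinj,
    fun i => (hP' i).1.cons (ha' i) (hvP i), ?_, ?_⟩
  · intro i j hij z hz
    rw [mem_inter, vs_insert, vs_insert, mem_union, mem_union, mem_insert, mem_singleton,
      mem_insert, mem_singleton] at hz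
    rw [mem_singleton]
    by_contra hzv
    have h1 : z ∈ insert (a i) (vs (P i)) := by
      rw [mem_insert]; tauto
    have h2 : z ∈ insert (a j) (vs (P j)) := by
      rw [mem_insert]; tauto
    exact Finset.disjoint_left.1 (hd i j hij) h1 h2
  · intro i z hz hzB
    rw [vs_insert, mem_union, mem_insert, mem_singleton] at hz
    have hzv : z ≠ v := fun e => hv (e ▸ hzB)
    exact hB i z (by rw [mem_insert]; tauto) hzB

/-- **internally disjoint paths**, `a`, `b` not adjacent -/
theorem kpaths {a b : α} {k : ℕ} (hab : a ≠ b) (hnadj : ¬ G.Adj a b)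
    (h : ∀ T : Finset α, a ∉ T → b ∉ T → T.card < k → (del G T).Reachable a b) :
    ∃ P : Fin k → Finset (Sym2 α), Function.Injective P ∧ (∀ i, IsPth G a b (P i)) ∧
      (∀ i j, i ≠ j → vs (P i) ∩ vs (P j) ⊆ {a, b}) := by
  classical
  obtain ⟨c, P, hc, hcinj, hP, hd, hB⟩ := fan (G := del G {b}) (v := a)
    (B := univ.filter fun u => G.Adj b u) (k := k)
    (by simpa using fun h => hnadj (Adj.symm h)) (by
    intro T haT hT
    have hr := h (T.erase b) (fun h => haT (mem_of_mem_erase h)) (notMem_erase _ _)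
      (lt_of_le_of_lt card_erase_le hT)
    obtain ⟨R, hR⟩ := exists_isPth hr
    obtain ⟨u, hu, _, hu2, hu3⟩ := hR.symm.uncons hab.symm
    obtain ⟨q1, q2⟩ := DL.isPth_del.1 hu3
    have huT : u ∉ T := fun h => hu.2.2 (mem_erase.2 ⟨hu.1.ne.symm, h⟩)
    refine ⟨u, by simpa using hu.1, huT, ?_⟩
    rw [del_del]
    refine (IsPth.reachable_del (P := R \ {s(b, u)}) q1.symm fun z hz hz' => ?_)
    rw [mem_union, mem_singleton] at hz'
    rw [q1.symm.insert_vs, mem_insert] at hz
    rcases hz with rfl | hz
    · rcases hz' with h' | h'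
      · exact hu.1.ne h'.symm
      · exact huT h'
    · have hzb : z ≠ b := fun e => hu2 (e ▸ hz)
      exact Finset.disjoint_left.1 q2 hz (mem_erase.2 ⟨hzb, hz'.resolve_left hzb⟩))
  have hc' : ∀ i, G.Adj b (c i) := fun i => by simpa using hc i
  have hP' := fun i => DL.isPth_del.1 (hP i)
  have hbP : ∀ i, b ∉ vs (P i) := fun i => disjoint_singleton_right.1 (hP' i).2
  have hac : ∀ i, a ≠ c i := fun i e => hnadj (by rw [e]; exact (hc' i).symm)
  have hd' : ∀ i j, i ≠ j → vs (insert s(c i, b) (P i)) ∩ vs (insert s(c j, b) (P j)) ⊆ {a, b} := by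
    intro i j hij z hz
    rw [mem_inter, vs_insert, vs_insert, mem_union, mem_union, mem_insert, mem_singleton,
      mem_insert, mem_singleton] at hz
    rw [mem_insert, mem_singleton]
    by_cases hzb : z = b
    · exact Or.inr hzb
    · left
      have h1 : z ∈ vs (P i) := by
        rcases hz.1 with (rfl | h) | h
        · exact (hP i).right_mem (hac i)
        · exact absurd h hzb
        · exact h
      have h2 : z ∈ vs (P j) := by
        rcases hz.2 with (rfl | h) | h
        · exact (hP j).right_mem (hac j)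
        · exact absurd h hzb
        · exact h
      simpa using hd i j hij (mem_inter.2 ⟨h1, h2⟩)
  refine ⟨fun i => insert s(c i, b) (P i), ?_, fun i => (hP' i).1.concat (hc' i).symm (hbP i), hd'⟩
  intro i j hij
  by_contra hne
  simp only at hij
  have h1 := hd' i j hne
  rw [← hij, inter_self] at h1
  have h2 : c i ∈ vs (insert s(c i, b) (P i)) := left_mem_vs (mem_insert_self _ _)
  have h3 := h1 h2
  rw [mem_insert, mem_singleton] at h3
  rcases h3 with h3 | h3
  · exact hac i h3.symm
  · exact (hc' i).ne h3.symm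

/-- **internally disjoint paths**, `a`, `b` adjacent -/
theorem kpaths_adj {a b : α} {k : ℕ} (hab : G.Adj a b)
    (h : ∀ T : Finset α, a ∉ T → b ∉ T → T.card < k → (del (delE G a b) T).Reachable a b) :
    ∃ P : Fin (k + 1) → Finset (Sym2 α), Function.Injective P ∧ (∀ i, IsPth G a b (P i)) ∧
      (∀ i j, i ≠ j → vs (P i) ∩ vs (P j) ⊆ {a, b}) ∧ P 0 = {s(a, b)} ∧
      ∀ i, s(a, b) ∉ P (Fin.succ i) := by
  obtain ⟨P, h1, h2, h3⟩ := kpaths (G := delE G a b) hab.ne (fun h' => (delE_adj.1 h').2 rfl) h
  have h2' := fun i => isPth_delE.1 (h2 i)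
  refine ⟨Fin.cons {s(a, b)} P, ?_, ?_, ?_, rfl, ?_⟩
  · rw [Fin.cons_injective_iff]
    refine ⟨?_, h1⟩
    rintro ⟨i, hi⟩
    exact (h2' i).2 (hi ▸ mem_singleton_self _)
  · intro i
    refine Fin.cases ?_ (fun i => ?_) i
    · exact IsPth.edge hab
    · exact (h2' i).1
  · intro i j
    refine Fin.cases ?_ (fun i => ?_) i <;> refine Fin.cases ?_ (fun j => ?_) j
    · intro h; exact absurd rfl h
    · intro _
      rw [Fin.cons_zero, vs_singleton]
      exact inter_subset_left
    · intro _
      rw [Fin.cons_zero, vs_singleton]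
      exact inter_subset_right
    · intro hij
      exact h3 i j fun e => hij (by rw [e])
  · intro i
    exact (h2' i).2

end DL
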