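import Mathlib
import Pool.Agent.DL.Defs
import Pool.Agent.DL.Z1
import Pool.Agent.DL.PC
import Pool.Agent.DL.PC2
import Pool.Agent.DL.MENG

/-!
MP_3ff0f8_gt, ALGEBRA HALF: connectivity.  (helper59)
-/

open SimpleGraph Finset

namespace DL

set_option linter.unusedSectionVars false
set_option linter.unusedFintypeInType false
set_option linter.unusedDecidableInType false

variable {α : Type*} [Fintype α] [DecidableEq α] {G H : SimpleGraph α}

/-! ## Vertices and neighbours -/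

theorem mem_VS {v : α} : v ∈ VS G ↔ ∃ w, G.Adj v w := by
  classical
  simp [VS, SimpleGraph.mem_support]

theorem left_mem_VS {a b : α} (h : G.Adj a b) : a ∈ VS G := mem_VS.2 ⟨b, h⟩

theorem right_mem_VS {a b : α} (h : G.Adj a b) : b ∈ VS G := mem_VS.2 ⟨a, h.symm⟩

theorem VS_mono (h : H ≤ G) : VS H ⊆ VS G := fun v hv => by
  obtain ⟨w, hw⟩ := mem_VS.1 hv
  exact mem_VS.2 ⟨w, h hw⟩

theorem vs_subset_VS {C : Finset (Sym2 α)} (h : ∀ e ∈ C, e ∈ G.edgeSet) : vs C ⊆ VS G := by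
  intro v hv
  obtain ⟨e, he, hve⟩ := mem_vs.1 hv
  obtain ⟨w, rfl⟩ := Sym2.mem_iff_exists.1 hve
  exact mem_VS.2 ⟨w, h _ he⟩

theorem IsCyc.vs_subset {C : Finset (Sym2 α)} (h : IsCyc G C) : vs C ⊆ VS G :=
  vs_subset_VS h.subset

theorem IsPth.vs_subset {s t : α} {P : Finset (Sym2 α)} (h : IsPth G s t P) : vs P ⊆ VS G :=
  vs_subset_VS h.subset

open Classical in
/-- the neighbours of `v` -/
noncomputable def nbs (G : SimpleGraph α) (v : α) : Finset α := univ.filter fun w => G.Adj v w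

theorem mem_nbs {v w : α} : w ∈ nbs G v ↔ G.Adj v w := by simp [nbs]

theorem nbs_subset (v : α) : nbs G v ⊆ VS G := fun _ h => right_mem_VS (mem_nbs.1 h)

theorem notMem_nbs_self (v : α) : v ∉ nbs G v := fun h => (mem_nbs.1 h).ne rfl

/-- the start of a nontrivial walk has a neighbour -/
theorem exists_adj_of_reachable {a b : α} (h : G.Reachable a b) (hab : a ≠ b) :
    ∃ u, G.Adj a u := by
  obtain ⟨w⟩ := h
  cases w with
  | nil => exact absurd rfl hab
  | cons h p => exact ⟨_, h⟩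

/-- a set closed under adjacency contains everything reachable -/
theorem mem_of_reachable {a b : α} {X : Set α} (h : G.Reachable a b) (ha : a ∈ X)
    (hX : ∀ u v, G.Adj u v → u ∈ X → v ∈ X) : b ∈ X := by
  obtain ⟨w⟩ := h
  induction w with
  | nil => exact ha
  | cons h p ih => exact ih (hX _ _ h ha)

theorem VS_del_subset (S : Finset α) : VS (del G S) ⊆ VS G \ S := fun v hv => by
  obtain ⟨w, hw⟩ := mem_VS.1 hv
  exact mem_sdiff.2 ⟨mem_VS.2 ⟨w, hw.1⟩, hw.2.1⟩

theorem nbs_del {S : Finset α} {v : α} (hv : v ∉ S) : nbs (del G S) v = nbs G v \ S := by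
  ext w
  rw [mem_sdiff, mem_nbs, mem_nbs, del_adj]
  tauto

/-! ## `k`-connected graphs -/

theorem KConn.reach {k : ℕ} (hG : KConn k G) {S : Finset α} (hS : S.card < k) {a b : α}
    (ha : a ∈ VS G) (hb : b ∈ VS G) (haS : a ∉ S) (hbS : b ∉ S) : (del G S).Reachable a b :=
  hG.2 S hS a ha b hb haS hbS

theorem KConn.mono {k l : ℕ} (hG : KConn l G) (hkl : k ≤ l) : KConn k G :=
  ⟨lt_of_le_of_lt hkl hG.1, fun S hS => hG.2 S (lt_of_lt_of_le hS hkl)⟩

/-- a vertex outside a small set -/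
theorem KConn.exists_notMem {k : ℕ} (hG : KConn k G) {S : Finset α} (hS : S.card ≤ k) :
    ∃ w ∈ VS G, w ∉ S := by
  have h : (VS G \ S).Nonempty := by
    rw [← card_pos]
    have := le_card_sdiff S (VS G)
    have := hG.1
    omega
  obtain ⟨w, hw⟩ := h
  exact ⟨w, (mem_sdiff.1 hw).1, (mem_sdiff.1 hw).2⟩

/-- **degrees** -/
theorem KConn.le_nbs {k : ℕ} (hG : KConn k G) {v : α} (hv : v ∈ VS G) : k ≤ (nbs G v).card := by
  by_contra hk
  rw [not_le] at hk
  obtain ⟨w, hw, hwS⟩ := hG.exists_notMem (S := insert v (nbs G v))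
    ((card_insert_le _ _).trans hk)
  rw [mem_insert, not_or] at hwS
  have hr := hG.reach hk hv hw (notMem_nbs_self v) hwS.2
  obtain ⟨u, hu⟩ := exists_adj_of_reachable hr (Ne.symm hwS.1)
  exact hu.2.2 (mem_nbs.2 hu.1)

theorem KConn.VS_del {k : ℕ} (hG : KConn k G) {S : Finset α} (hS : S.card < k) :
    VS (del G S) = VS G \ S := by
  apply Subset.antisymm (VS_del_subset S)
  intro v hv
  rw [mem_sdiff] at hv
  obtain ⟨w, hw, hwS⟩ := hG.exists_notMem (S := insert v S) ((card_insert_le _ _).trans hS)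
  rw [mem_insert, not_or] at hwS
  have hr := hG.reach hS hv.1 hw hv.2 hwS.2
  exact mem_VS.2 (exists_adj_of_reachable hr (Ne.symm hwS.1))

/-- **deleting vertices** -/
theorem KConn.del' {k m : ℕ} (hk : 0 < k) (hG : KConn (k + m) G) {S : Finset α}
    (hS : S.card ≤ m) : KConn k (del G S) := by
  have hVS := hG.VS_del (S := S) (by omega)
  constructor
  · rw [hVS]
    have := le_card_sdiff S (VS G)
    have := hG.1
    omega
  · intro T hT a ha b hb haT hbT
    rw [hVS, mem_sdiff] at ha hb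
    rw [del_del]
    refine hG.reach ?_ ha.1 hb.1 ?_ ?_
    · have := card_union_le S T
      omega
    · rw [mem_union, not_or]; exact ⟨ha.2, haT⟩
    · rw [mem_union, not_or]; exact ⟨hb.2, hbT⟩

theorem KConn.del_vertex {k : ℕ} (hk : 0 < k) (hG : KConn (k + 1) G) (u : α) :
    KConn k (del G {u}) := hG.del' hk (by simp)

theorem KConn.del_pair {k : ℕ} (hk : 0 < k) (hG : KConn (k + 2) G) (u v : α) :
    KConn k (del G {u, v}) := hG.del' hk card_le_two

theorem KConn.connected {k : ℕ} (hk : 0 < k) (hG : KConn k G) {a b : α} (ha : a ∈ VS G)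
    (hb : b ∈ VS G) : G.Reachable a b := by
  have := hG.reach (S := ∅) (by simpa using hk) ha hb (by simp) (by simp)
  rwa [del_empty] at this

theorem VS_delE {a b : α} (h : ∀ v ∈ VS G, 2 ≤ (nbs G v).card) : VS (delE G a b) = VS G := by
  apply Subset.antisymm (VS_mono (delE_le _ _ _))
  intro v hv
  obtain ⟨x, hx, y, hy, hxy⟩ := one_lt_card.1 (h v hv)
  rw [mem_nbs] at hx hy
  rw [mem_VS]
  by_cases h1 : s(v, x) = s(a, b)
  · refine ⟨y, delE_adj.2 ⟨hy, fun h2 => hxy ?_⟩⟩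
    rw [← h1, Sym2.eq_iff] at h2
    rcases h2 with ⟨_, h2⟩ | ⟨h2, h3⟩
    · exact h2.symm
    · exact absurd h2 hx.ne
  · exact ⟨x, delE_adj.2 ⟨hx, h1⟩⟩

/-- **deleting an edge** -/
theorem KConn.delE {k : ℕ} (hk : 0 < k) (hG : KConn (k + 1) G) (a b : α) :
    KConn k (delE G a b) := by
  have hVS : VS (DL.delE G a b) = VS G :=
    VS_delE fun v hv => le_trans (by omega) (hG.le_nbs hv)
  constructor
  · rw [hVS]
    exact lt_of_le_of_lt (Nat.le_succ k) hG.1
  · intro T hT u hu w hw huT hwT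
    rw [hVS] at hu hw
    -- the ends of the deleted edge are connected
    have hab : G.Adj a b → a ∉ T → b ∉ T → (del (DL.delE G a b) T).Reachable a b := by
      intro hab haT hbT
      obtain ⟨z, hz, hzS⟩ := hG.exists_notMem (S := insert a (insert b T))
        ((card_insert_le _ _).trans (Nat.succ_le_succ ((card_insert_le _ _).trans hT)))
      rw [mem_insert, mem_insert, not_or, not_or] at hzS
      have key : ∀ x y, s(x, y) = s(a, b) → x ≠ y → x ∈ VS G → z ≠ x → z ≠ y → x ∉ T →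
          (del (DL.delE G a b) T).Reachable x z := by
        intro x y hxy hne hx hzx hzy hxT
        have hr := hG.reach (S := insert y T)
          (lt_of_le_of_lt (card_insert_le _ _) (Nat.succ_lt_succ hT)) hx hz
          (by rw [mem_insert, not_or]; exact ⟨hne, hxT⟩)
          (by rw [mem_insert, not_or]; exact ⟨hzy, hzS.2.2⟩)
        refine hr.mono fun p q hpq => ?_
        rw [del_adj, mem_insert, mem_insert, not_or, not_or] at hpq
        refine ⟨delE_adj.2 ⟨hpq.1, fun e => ?_⟩, hpq.2.1.2, hpq.2.2.2⟩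
        rw [← hxy, Sym2.eq_iff] at e
        rcases e with ⟨_, e⟩ | ⟨e, _⟩
        · exact hpq.2.2.1 e
        · exact hpq.2.1.1 e
      exact (key a b rfl hab.ne (left_mem_VS hab) hzS.1 hzS.2.1 haT).trans
        (key b a Sym2.eq_swap hab.ne.symm (right_mem_VS hab) hzS.2.1 hzS.1 hbT).symm
    have hr := hG.reach (hT.trans (Nat.lt_succ_self k)) hu hw huT hwT
    obtain ⟨W⟩ := hr
    clear hu hw
    induction W with
    | nil => exact Reachable.refl _
    | @cons p q r hpq W ih =>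
      refine Reachable.trans ?_ (ih hpq.2.2 hwT)
      by_cases he : s(p, q) = s(a, b)
      · rw [Sym2.eq_iff] at he
        rcases he with ⟨rfl, rfl⟩ | ⟨rfl, rfl⟩
        · exact hab hpq.1 hpq.2.1 hpq.2.2
        · exact (hab hpq.1.symm hpq.2.2 hpq.2.1).symm
      · exact Adj.reachable ⟨delE_adj.2 ⟨hpq.1, he⟩, hpq.2.1, hpq.2.2⟩

/-- **`k` disjoint paths between two large sets** -/
theorem KConn.linked {k : ℕ} (hG : KConn k G) {A B : Finset α} (hA : A ⊆ VS G) (hB : B ⊆ VS G)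
    (hkA : k ≤ A.card) (hkB : k ≤ B.card) :
    ∃ (a b : Fin k → α) (P : Fin k → Finset (Sym2 α)), (∀ i, a i ∈ A) ∧ (∀ i, b i ∈ B) ∧
      (∀ i, IsPth G (a i) (b i) (P i)) ∧
      (∀ i j, i ≠ j → Disjoint (insert (a i) (vs (P i))) (insert (a j) (vs (P j)))) ∧
      (∀ i, ∀ z ∈ insert (a i) (vs (P i)), z ∈ A → z = a i) ∧
      (∀ i, ∀ z ∈ insert (a i) (vs (P i)), z ∈ B → z = b i) := by
  refine menger' fun S hS => ?_
  obtain ⟨a, ha, haS⟩ := exists_mem_notMem_of_card_lt_card (lt_of_lt_of_le hS hkA)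
  obtain ⟨b, hb, hbS⟩ := exists_mem_notMem_of_card_lt_card (lt_of_lt_of_le hS hkB)
  exact ⟨a, ha, b, hb, haS, hbS, hG.reach hS (hA ha) (hB hb) haS hbS⟩

/-- **fans** -/
theorem KConn.fan {k : ℕ} (hG : KConn k G) {v : α} {B : Finset α} (hv : v ∈ VS G)
    (hB : B ⊆ VS G) (hvB : v ∉ B) (hkB : k ≤ B.card) :
    ∃ (b : Fin k → α) (P : Fin k → Finset (Sym2 α)), (∀ i, b i ∈ B) ∧ Function.Injective b ∧
      (∀ i, IsPth G v (b i) (P i)) ∧ (∀ i j, i ≠ j → vs (P i) ∩ vs (P j) ⊆ {v}) ∧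
      (∀ i, ∀ z ∈ vs (P i), z ∈ B → z = b i) := by
  refine DL.fan hvB fun T hvT hT => ?_
  obtain ⟨b, hb, hbT⟩ := exists_mem_notMem_of_card_lt_card (lt_of_lt_of_le hT hkB)
  exact ⟨b, hb, hbT, hG.reach hT hv (hB hb) hvT hbT⟩

/-- **`k` internally disjoint paths** -/
theorem KConn.paths {k : ℕ} (hG : KConn (k + 1) G) {a b : α} (ha : a ∈ VS G) (hb : b ∈ VS G)
    (hab : a ≠ b) :
    ∃ P : Fin (k + 1) → Finset (Sym2 α), Function.Injective P ∧ (∀ i, IsPth G a b (P i)) ∧
      (∀ i j, i ≠ j → vs (P i) ∩ vs (P j) ⊆ {a, b}) := by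
  by_cases h : G.Adj a b
  · obtain ⟨P, h1, h2, h3, _, _⟩ := kpaths_adj (k := k) h fun T haT hbT hT => by
      have hk : 0 < k := by omega
      have h1 := hG.delE hk a b
      have hVS : VS (DL.delE G a b) = VS G :=
        VS_delE fun v hv => le_trans (by omega) (hG.le_nbs hv)
      exact h1.reach hT (by rw [hVS]; exact ha) (by rw [hVS]; exact hb) haT hbT
    exact ⟨P, h1, h2, h3⟩
  · exact kpaths hab h fun T haT hbT hT => hG.reach hT ha hb haT hbT

/-! ## 2-connected graphs -/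

/-- **two disjoint paths** between `{a, b}` and `{c, d}` -/
theorem KConn.two_paths (hG : KConn 2 G) {a b c d : α} (ha : a ∈ VS G) (hb : b ∈ VS G)
    (hc : c ∈ VS G) (hd : d ∈ VS G) (hab : a ≠ b) (hcd : c ≠ d) :
    ∃ c' d' P Q, ((c' = c ∧ d' = d) ∨ (c' = d ∧ d' = c)) ∧ IsPth G a c' P ∧ IsPth G b d' Q ∧
      Disjoint (insert a (vs P)) (insert b (vs Q)) := by
  have hAB : ({a, b} : Finset α) ⊆ VS G := by
    intro z hz; rw [mem_insert, mem_singleton] at hz; rcases hz with rfl | rfl <;> assumption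
  have hCD : ({c, d} : Finset α) ⊆ VS G := by
    intro z hz; rw [mem_insert, mem_singleton] at hz; rcases hz with rfl | rfl <;> assumption
  obtain ⟨x, y, P, hx, hy, hP, hdis, _, _⟩ := hG.linked (A := {a, b}) (B := {c, d}) hAB hCD
    (by rw [card_pair hab]) (by rw [card_pair hcd])
  have h01 := hdis 0 1 (by decide)
  have hx01 : x 0 ≠ x 1 := fun e =>
    Finset.disjoint_left.1 h01 (mem_insert_self _ _) (e ▸ mem_insert_self _ _)
  have hy01 : y 0 ≠ y 1 := fun e =>
    Finset.disjoint_left.1 h01 (hP 0).end_mem (e ▸ (hP 1).end_mem)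
  have hx0 := hx 0
  have hx1 := hx 1
  have hy0 := hy 0
  have hy1 := hy 1
  rw [mem_insert, mem_singleton] at hx0 hx1 hy0 hy1
  have hY : (y 0 = c ∧ y 1 = d) ∨ (y 0 = d ∧ y 1 = c) := by
    rcases hy0 with h | h <;> rcases hy1 with h' | h'
    · exact absurd (h.trans h'.symm) hy01
    · exact Or.inl ⟨h, h'⟩
    · exact Or.inr ⟨h, h'⟩
    · exact absurd (h.trans h'.symm) hy01
  have hX : (x 0 = a ∧ x 1 = b) ∨ (x 0 = b ∧ x 1 = a) := by
    rcases hx0 with h | h <;> rcases hx1 with h' | h'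
    · exact absurd (h.trans h'.symm) hx01
    · exact Or.inl ⟨h, h'⟩
    · exact Or.inr ⟨h, h'⟩
    · exact absurd (h.trans h'.symm) hx01
  have hP0 := hP 0
  have hP1 := hP 1
  rcases hX with ⟨h1, h2⟩ | ⟨h1, h2⟩
  · rw [h1, h2] at h01
    rw [h1] at hP0
    rw [h2] at hP1
    exact ⟨y 0, y 1, P 0, P 1, hY, hP0, hP1, h01⟩
  · rw [h1, h2] at h01
    rw [h1] at hP0
    rw [h2] at hP1
    exact ⟨y 1, y 0, P 1, P 0, hY.symm.imp And.symm And.symm, hP1, hP0, h01.symm⟩

/-- joining two disjoint paths by an edge -/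
theorem IsPth.join {a b c d : α} {P Q : Finset (Sym2 α)} (hP : IsPth G a c P)
    (hQ : IsPth G b d Q) (hcd : G.Adj c d) (h : Disjoint (insert a (vs P)) (insert b (vs Q))) :
    IsPth G a b (insert s(c, d) (P ∪ Q)) := by
  have hcP := hP.end_mem
  have hdQ := hQ.end_mem
  have hdP : d ∉ vs P := fun h' => Finset.disjoint_left.1 h (mem_insert_of_mem h') hdQ
  have h1 : IsPth G a d (insert s(c, d) P) := hP.concat hcd hdP
  have h2 := h1.append hQ.symm (fun z hz => by
    rw [mem_inter, vs_insert, mem_union, mem_insert, mem_singleton] at hz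
    rw [mem_singleton]
    rcases hz.1 with (rfl | rfl) | h'
    · exact absurd (mem_insert_of_mem hz.2) (Finset.disjoint_left.1 h hcP)
    · rfl
    · exact absurd (mem_insert_of_mem hz.2) (Finset.disjoint_left.1 h (mem_insert_of_mem h')))
  rwa [insert_union] at h2

/-- **a path from `a` to `b` through a given edge** -/
theorem KConn.path_through_edge (hG : KConn 2 G) {a b c d : α} (ha : a ∈ VS G) (hb : b ∈ VS G)
    (hab : a ≠ b) (hcd : G.Adj c d) :
    ∃ P, IsPth G a b P ∧ s(c, d) ∈ P ∧ (s(a, b) ≠ s(c, d) → s(a, b) ∉ P) := by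
  obtain ⟨c', d', P, Q, h1, hP, hQ, hdis⟩ := hG.two_paths ha hb (left_mem_VS hcd)
    (right_mem_VS hcd) hab hcd.ne
  have h2 : G.Adj c' d' ∧ s(c', d') = s(c, d) := by
    rcases h1 with ⟨rfl, rfl⟩ | ⟨rfl, rfl⟩
    · exact ⟨hcd, rfl⟩
    · exact ⟨hcd.symm, Sym2.eq_swap⟩
  refine ⟨_, hP.join hQ h2.1 hdis, ?_, ?_⟩
  · rw [h2.2]; exact mem_insert_self _ _
  · intro hne hmem
    rw [mem_insert, mem_union, h2.2] at hmem
    rcases hmem with h | h | h
    · exact hne h
    · exact Finset.disjoint_left.1 hdis (mem_insert_of_mem (right_mem_vs h)) (mem_insert_self _ _)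
    · exact Finset.disjoint_left.1 hdis (mem_insert_self _ _) (mem_insert_of_mem (left_mem_vs h))

/-- **a path from `a` to `b` through a given vertex** -/
theorem KConn.path_through_vertex (hG : KConn 2 G) {a b c : α} (ha : a ∈ VS G) (hb : b ∈ VS G)
    (hab : a ≠ b) (hc : c ∈ VS G) : ∃ P, IsPth G a b P ∧ c ∈ vs P := by
  obtain ⟨d, hd⟩ := mem_VS.1 hc
  obtain ⟨P, h1, h2, _⟩ := hG.path_through_edge ha hb hab hd
  exact ⟨P, h1, left_mem_vs h2⟩

/-- **a cycle through two given edges** -/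
theorem KConn.cycle_through_edges (hG : KConn 2 G) {a b c d : α} (hab : G.Adj a b)
    (hcd : G.Adj c d) (hne : s(a, b) ≠ s(c, d)) :
    ∃ C, IsCyc G C ∧ s(a, b) ∈ C ∧ s(c, d) ∈ C := by
  obtain ⟨P, h1, h2, h3⟩ := hG.path_through_edge (left_mem_VS hab) (right_mem_VS hab) hab.ne hcd
  exact ⟨_, h1.isCyc hab (h3 hne), mem_insert_self _ _, mem_insert_of_mem h2⟩

/-- a second edge at an end of an edge -/
theorem KConn.exists_adj_ne (hG : KConn 2 G) {a : α} (ha : a ∈ VS G) (b : α) :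
    ∃ c, G.Adj a c ∧ c ≠ b := by
  obtain ⟨x, hx, y, hy, hxy⟩ := one_lt_card.1 (hG.le_nbs ha)
  rw [mem_nbs] at hx hy
  by_cases h : x = b
  · exact ⟨y, hy, fun e => hxy (h.trans e.symm)⟩
  · exact ⟨x, hx, h⟩

/-- **a cycle through an edge** -/
theorem KConn.cycle_through_edge (hG : KConn 2 G) {a b : α} (hab : G.Adj a b) :
    ∃ C, IsCyc G C ∧ s(a, b) ∈ C := by
  obtain ⟨c, hc, hcb⟩ := hG.exists_adj_ne (left_mem_VS hab) b
  obtain ⟨C, h1, h2, _⟩ := hG.cycle_through_edges hab hc (by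
    intro e
    rw [Sym2.eq_iff] at e
    rcases e with ⟨_, e⟩ | ⟨e, _⟩
    · exact hcb e.symm
    · exact hc.ne e)
  exact ⟨C, h1, h2⟩

/-- **a cycle through an edge and a vertex** -/
theorem KConn.cycle_through_edge_vertex (hG : KConn 2 G) {a b c : α} (hab : G.Adj a b)
    (hc : c ∈ VS G) : ∃ C, IsCyc G C ∧ s(a, b) ∈ C ∧ c ∈ vs C := by
  by_cases hca : c = a
  · subst hca
    obtain ⟨C, h1, h2⟩ := hG.cycle_through_edge hab
    exact ⟨C, h1, h2, left_mem_vs h2⟩
  · obtain ⟨d, hd, hda⟩ := hG.exists_adj_ne hc a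
    obtain ⟨C, h1, h2, h3⟩ := hG.cycle_through_edges hab hd (by
      intro e
      rw [Sym2.eq_iff] at e
      rcases e with ⟨e, _⟩ | ⟨e, _⟩
      · exact hca e.symm
      · exact hda e.symm)
    exact ⟨C, h1, h2, left_mem_vs h3⟩

/-- **a cycle through two vertices** -/
theorem KConn.cycle_through_vertices (hG : KConn 2 G) {a b : α} (ha : a ∈ VS G)
    (hb : b ∈ VS G) : ∃ C, IsCyc G C ∧ a ∈ vs C ∧ b ∈ vs C := by
  obtain ⟨c, hc⟩ := mem_VS.1 ha
  obtain ⟨C, h1, h2, h3⟩ := hG.cycle_through_edge_vertex hc hb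
  exact ⟨C, h1, left_mem_vs h2, h3⟩

/-! ## Separations -/

theorem Sep.symm {S P Q : Finset α} (h : Sep G S P Q) : Sep G S Q P := by
  obtain ⟨h1, h2, h3, h4, h5⟩ := h
  exact ⟨by rw [union_assoc, union_comm Q P, ← union_assoc]; exact h1, h3, h2, h4.symm,
    fun a ha b hb hab => h5 b hb a ha hab.symm⟩

theorem Sep.mem_or {S P Q : Finset α} (h : Sep G S P Q) {v : α} (hv : v ∈ VS G) :
    v ∈ S ∨ v ∈ P ∨ v ∈ Q := by
  have := h.1 ▸ hv
  rw [mem_union, mem_union] at this
  tauto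

theorem Sep.subS {S P Q : Finset α} (h : Sep G S P Q) : S ⊆ VS G := by
  rw [← h.1]; exact subset_union_left.trans subset_union_left

theorem Sep.subP {S P Q : Finset α} (h : Sep G S P Q) : P ⊆ VS G := by
  rw [← h.1]; exact subset_union_right.trans subset_union_left

theorem Sep.subQ {S P Q : Finset α} (h : Sep G S P Q) : Q ⊆ VS G := by
  rw [← h.1]; exact subset_union_right

theorem Sep.mem_of_reachable {S P Q : Finset α} (h : Sep G S P Q) {a b : α} (ha : a ∈ P)
    (hr : (del G S).Reachable a b) : b ∈ P := by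
  refine DL.mem_of_reachable (X := {x | x ∈ P}) hr ha fun u v huv hu => ?_
  rcases h.mem_or (right_mem_VS huv.1) with h' | h' | h'
  · exact absurd h' huv.2.2
  · exact h'
  · exact absurd huv.1 (h.2.2.2.2 u hu v h')

theorem Sep.not_reachable {S P Q : Finset α} (h : Sep G S P Q) {a b : α} (ha : a ∈ P)
    (hb : b ∈ Q) : ¬ (del G S).Reachable a b := fun hr =>
  Finset.disjoint_left.1 h.2.2.2.1 (h.mem_of_reachable ha hr) hb

/-- the order of a separation -/
theorem KConn.le_of_sep {k : ℕ} (hG : KConn k G) {S P Q : Finset α} (h : Sep G S P Q)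
    (hP : P.Nonempty) (hQ : Q.Nonempty) : k ≤ S.card := by
  by_contra hk
  obtain ⟨a, ha⟩ := hP
  obtain ⟨b, hb⟩ := hQ
  exact h.not_reachable ha hb (hG.reach (not_le.1 hk) (h.subP ha) (h.subQ hb)
    (Finset.disjoint_right.1 h.2.1 ha) (Finset.disjoint_right.1 h.2.2.1 hb))

/-- moving a vertex of `S` without neighbours in `P` to `Q` -/
theorem Sep.move {S P Q : Finset α} (h : Sep G S P Q) {s : α} (hs : s ∈ S)
    (hsP : ∀ p ∈ P, ¬ G.Adj p s) : Sep G (S.erase s) P (insert s Q) := by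
  obtain ⟨h1, h2, h3, h4, h5⟩ := h
  refine ⟨?_, ?_, ?_, ?_, ?_⟩
  · rw [← h1]
    ext x
    simp only [mem_union, mem_erase, mem_insert]
    by_cases hx : x = s
    · subst hx; simp [hs]
    · simp only [hx, ne_eq, not_false_eq_true, true_and, false_or]
  · exact disjoint_of_subset_left (erase_subset _ _) h2
  · rw [disjoint_insert_right]
    exact ⟨notMem_erase _ _, disjoint_of_subset_left (erase_subset _ _) h3⟩
  · rw [disjoint_insert_right]
    exact ⟨Finset.disjoint_left.1 h2 hs, h4⟩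
  · intro a ha b hb
    rw [mem_insert] at hb
    rcases hb with rfl | hb
    · exact hsP a ha
    · exact h5 a ha b hb

/-- **in a separation of minimal order every vertex of `S` has neighbours in `P` (and `Q`)** -/
theorem KConn.exists_adj_of_sep {k : ℕ} (hG : KConn k G) {S P Q : Finset α} (h : Sep G S P Q)
    (hP : P.Nonempty) (hS : S.card ≤ k) {s : α} (hs : s ∈ S) : ∃ p ∈ P, G.Adj s p := by
  by_contra hc
  push Not at hc
  have h1 := hG.le_of_sep (h.move hs fun p hp hps => hc p hp hps.symm) hP (insert_nonempty _ _)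
  have h2 := card_erase_lt_of_mem hs
  omega

/-- **a disconnected graph has a separation** -/
theorem exists_sep_of_not_reachable {S : Finset α} {a b : α} (ha : a ∈ VS G) (hb : b ∈ VS G)
    (haS : a ∉ S) (hbS : b ∉ S) (h : ¬ (del G S).Reachable a b) :
    ∃ P Q, Sep G (S ∩ VS G) P Q ∧ a ∈ P ∧ b ∈ Q ∧ (∀ v ∈ P, (del G S).Reachable a v) := by
  classical
  refine ⟨(VS G).filter fun v => v ∉ S ∧ (del G S).Reachable a v,
    (VS G).filter fun v => v ∉ S ∧ ¬ (del G S).Reachable a v, ⟨?_, ?_, ?_, ?_, ?_⟩, ?_, ?_, ?_⟩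
  · ext x
    simp only [mem_union, mem_inter, mem_filter]
    tauto
  · rw [Finset.disjoint_left]
    intro x hx hx'
    exact (mem_filter.1 hx').2.1 (mem_inter.1 hx).1
  · rw [Finset.disjoint_left]
    intro x hx hx'
    exact (mem_filter.1 hx').2.1 (mem_inter.1 hx).1
  · rw [Finset.disjoint_left]
    intro x hx hx'
    exact (mem_filter.1 hx').2.2 (mem_filter.1 hx).2.2
  · intro x hx y hy hxy
    rw [mem_filter] at hx hy
    exact hy.2.2 (hx.2.2.trans (Adj.reachable ⟨hxy, hx.2.1, hy.2.1⟩))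
  · exact mem_filter.2 ⟨ha, haS, Reachable.refl _⟩
  · exact mem_filter.2 ⟨hb, hbS, h⟩
  · intro v hv
    exact (mem_filter.1 hv).2.2

/-- **`k`-connected by separations** -/
theorem kconn_iff_sep {k : ℕ} : KConn k G ↔ k < (VS G).card ∧
    ∀ S P Q, Sep G S P Q → S.card < k → P = ∅ ∨ Q = ∅ := by
  constructor
  · intro h
    refine ⟨h.1, fun S P Q hs hk => ?_⟩
    by_contra hc
    rw [not_or, ← ne_eq, ← ne_eq, ← nonempty_iff_ne_empty, ← nonempty_iff_ne_empty] at hc
    exact absurd (h.le_of_sep hs hc.1 hc.2) (not_le.2 hk)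
  · rintro ⟨h1, h2⟩
    refine ⟨h1, fun S hS a ha b hb haS hbS => ?_⟩
    by_contra hr
    obtain ⟨P, Q, h3, h4, h5, _⟩ := exists_sep_of_not_reachable ha hb haS hbS hr
    rcases h2 _ P Q h3 (lt_of_le_of_lt (card_le_card inter_subset_left) hS) with rfl | rfl
    · simp at h4
    · simp at h5

/-! ## Contraction -/

theorem contr_adj {a b u w : α} : (contr G a b).Adj u w ↔
    u ≠ b ∧ w ≠ b ∧ u ≠ w ∧ (G.Adj u w ∨ (u = a ∧ G.Adj b w) ∨ (w = a ∧ G.Adj u b)) := Iff.rfl

theorem contr_adj_of_adj {a b u w : α} (h : G.Adj u w) (hu : u ≠ b) (hw : w ≠ b) :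
    (contr G a b).Adj u w := ⟨hu, hw, h.ne, Or.inl h⟩

/-- the projection to the contracted graph -/
def cpr (a b v : α) : α := if v = b then a else v

theorem cpr_self (a b : α) : cpr a b b = a := if_pos rfl

theorem cpr_of_ne {a b v : α} (h : v ≠ b) : cpr a b v = v := if_neg h

theorem contr_cpr {a b u w : α} (hab : a ≠ b) (h : G.Adj u w) (hne : cpr a b u ≠ cpr a b w) :
    (contr G a b).Adj (cpr a b u) (cpr a b w) := by
  by_cases hu : u = b
  · subst hu
    have hw : w ≠ u := h.ne.symm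
    rw [cpr_self, cpr_of_ne hw] at *
    exact ⟨hab, hw, hne, Or.inr (Or.inl ⟨rfl, h⟩)⟩
  · by_cases hw : w = b
    · subst hw
      rw [cpr_self, cpr_of_ne hu] at *
      exact ⟨hu, hab, hne, Or.inr (Or.inr ⟨rfl, h⟩)⟩
    · rw [cpr_of_ne hu, cpr_of_ne hw]
      exact contr_adj_of_adj h hu hw

theorem contr_reach {a b u w : α} {T : Finset α} (hab : a ≠ b) (haT : a ∉ T)
    (h : (del G T).Reachable u w) :
    (del (contr G a b) T).Reachable (cpr a b u) (cpr a b w) := by
  obtain ⟨W⟩ := h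
  induction W with
  | nil => exact Reachable.refl _
  | @cons p q r hpq W ih =>
    refine Reachable.trans ?_ ih
    by_cases he : cpr a b p = cpr a b q
    · rw [he]
    · refine Adj.reachable ⟨contr_cpr hab hpq.1 he, ?_, ?_⟩
      · by_cases hp : p = b
        · rw [hp, cpr_self]; exact haT
        · rw [cpr_of_ne hp]; exact hpq.2.1
      · by_cases hq : q = b
        · rw [hq, cpr_self]; exact haT
        · rw [cpr_of_ne hq]; exact hpq.2.2

theorem contr_reach' {a b u w : α} {T : Finset α} (h : (del G (insert b T)).Reachable u w) :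
    (del (contr G a b) T).Reachable u w := by
  refine h.mono fun p q hpq => ?_
  rw [del_adj, mem_insert, mem_insert, not_or, not_or] at hpq
  exact ⟨contr_adj_of_adj hpq.1 hpq.2.1.1 hpq.2.2.1, hpq.2.1.2, hpq.2.2.2⟩

theorem VS_contr_subset (a b : α) (hab : a ∈ VS G) : VS (contr G a b) ⊆ (VS G).erase b := by
  intro v hv
  obtain ⟨w, h1, h2, h3, h4⟩ := mem_VS.1 hv
  rw [mem_erase]
  refine ⟨h1, ?_⟩
  rcases h4 with h4 | ⟨rfl, h4⟩ | ⟨rfl, h4⟩
  · exact left_mem_VS h4
  · exact hab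
  · exact left_mem_VS h4

theorem VS_contr {a b : α} (hab : G.Adj a b) (h : ∀ v ∈ VS G, 2 ≤ (nbs G v).card) :
    VS (contr G a b) = (VS G).erase b := by
  apply Subset.antisymm (VS_contr_subset a b (left_mem_VS hab))
  intro v hv
  rw [mem_erase] at hv
  rw [mem_VS]
  -- a neighbour of `v` different from `b`
  obtain ⟨x, hx, y, hy, hxy⟩ := one_lt_card.1 (h v hv.2)
  rw [mem_nbs] at hx hy
  by_cases h1 : x = b
  · exact ⟨y, contr_adj_of_adj hy hv.1 fun e => hxy (h1.trans e.symm)⟩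
  · exact ⟨x, contr_adj_of_adj hx hv.1 h1⟩

/-- **contraction of an edge which is in no separator of order `≤ k`** -/
theorem KConn.contr {k : ℕ} (hk : 2 ≤ k) (hG : KConn k G) {a b : α} (hab : G.Adj a b)
    (hcard : k + 1 < (VS G).card)
    (h : ∀ T : Finset α, a ∈ T → b ∈ T → T.card ≤ k → ConnOff G T) : KConn k (contr G a b) := by
  have hVS := VS_contr hab fun v hv => hk.trans (hG.le_nbs hv)
  constructor
  · rw [hVS, card_erase_of_mem (right_mem_VS hab)]
    omega
  · intro T hT u hu w hw huT hwT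
    rw [hVS, mem_erase] at hu hw
    by_cases haT : a ∈ T
    · refine contr_reach' (h (insert b T) (mem_insert_of_mem haT) (mem_insert_self _ _)
        ((card_insert_le _ _).trans hT) u hu.2 w hw.2 ?_ ?_)
      · rw [mem_insert, not_or]; exact ⟨hu.1, huT⟩
      · rw [mem_insert, not_or]; exact ⟨hw.1, hwT⟩
    · -- we may forget `b ∈ T`
      have h1 := hG.reach (S := T.erase b) (lt_of_le_of_lt card_erase_le hT) hu.2 hw.2
        (fun h => huT (mem_of_mem_erase h)) (fun h => hwT (mem_of_mem_erase h))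
      have h2 := contr_reach (T := T.erase b) (a := a) (b := b) hab.ne
        (fun h => haT (mem_of_mem_erase h)) h1
      rw [cpr_of_ne hu.1, cpr_of_ne hw.1] at h2
      refine h2.mono ?_
      intro p q hpq
      exact ⟨hpq.1, fun hp => hpq.2.1 (mem_erase.2 ⟨hpq.1.1, hp⟩),
        fun hq => hpq.2.2 (mem_erase.2 ⟨hpq.1.2.1, hq⟩)⟩

/-- contraction loses at most one -/
theorem KConn.contr_of_succ {k : ℕ} (hk : 2 ≤ k) (hG : KConn (k + 1) G) {a b : α}
    (hab : G.Adj a b) : KConn k (DL.contr G a b) :=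
  (hG.mono (Nat.le_succ k)).contr hk hab hG.1 fun T _ _ hT => hG.2 T (Nat.lt_succ_of_le hT)

end DL
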