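import Mathlib
import Pool.Agent.DL.Defs
import Pool.Agent.DL.Z1
import Pool.Agent.DL.PC
import Pool.Agent.DL.PC2
import Pool.Agent.DL.MENG
import Pool.Agent.DL.KC

/-!
MP_3ff0f8_gt, ALGEBRA HALF: trees, the paths `tp`, 2-bead chains.  (helper59)
-/

open SimpleGraph Finset

namespace DL

set_option linter.unusedSectionVars false
set_option linter.unusedFintypeInType false
set_option linter.unusedDecidableInType false

variable {α : Type*} [Fintype α] [DecidableEq α] {G H : SimpleGraph α}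

/-! ## Trees on a vertex set -/

/-- `T` is a tree with vertex set `Y` -/
structure RTree (Y : Finset α) (T : SimpleGraph α) : Prop where
  inY : ∀ v w, T.Adj v w → v ∈ Y
  conn : ∀ v ∈ Y, ∀ w ∈ Y, T.Reachable v w
  acyc : T.IsAcyclic

theorem RTree.inY' {Y : Finset α} {T : SimpleGraph α} (h : RTree Y T) {v w : α}
    (hvw : T.Adj v w) : w ∈ Y := h.inY w v hvw.symm

/-- the one-vertex tree -/
theorem RTree.single (x : α) : RTree {x} (⊥ : SimpleGraph α) where
  inY := fun _ _ h => h.elim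
  conn := fun v hv w hw => by
    rw [mem_singleton] at hv hw
    rw [hv, hw]
  acyc := isAcyclic_bot

theorem RTree.mem_of_reachable {Y : Finset α} {T : SimpleGraph α} (h : RTree Y T) {v w : α}
    (hv : v ∈ Y) (hr : T.Reachable v w) : w ∈ Y :=
  DL.mem_of_reachable (X := {x | x ∈ Y}) hr hv fun _ _ huv _ => h.inY' huv

/-- the graph with the edge set `P` -/
abbrev gr (P : Finset (Sym2 α)) : SimpleGraph α := fromEdgeSet (P : Set (Sym2 α))

theorem gr_adj {P : Finset (Sym2 α)} {a b : α} : (gr P).Adj a b ↔ s(a, b) ∈ P ∧ a ≠ b := by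
  rw [gr, fromEdgeSet_adj, mem_coe]

theorem gr_le {P : Finset (Sym2 α)} (h : ∀ e ∈ P, e ∈ G.edgeSet) : gr P ≤ G := by
  intro a b hab
  exact h _ (gr_adj.1 hab).1

theorem gr_union (P Q : Finset (Sym2 α)) : gr (P ∪ Q) = gr P ⊔ gr Q := by
  ext a b
  rw [sup_adj, gr_adj, gr_adj, gr_adj, mem_union]
  tauto

theorem gr_insert (e : Sym2 α) (Q : Finset (Sym2 α)) : gr (insert e Q) = gr {e} ⊔ gr Q := by
  rw [insert_eq, gr_union]

@[simp] theorem gr_empty : gr (∅ : Finset (Sym2 α)) = ⊥ := by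
  ext a b
  rw [gr_adj]
  simp

/-- adding a leaf -/
theorem RTree.add_leaf {Y : Finset α} {T : SimpleGraph α} (h : RTree Y T) {x u : α}
    (hx : x ∈ Y) (hu : u ∉ Y) : RTree (insert u Y) (T ⊔ gr {s(x, u)}) where
  inY := by
    intro v w hvw
    rw [sup_adj, gr_adj, mem_singleton] at hvw
    rcases hvw with hvw | ⟨hvw, _⟩
    · exact mem_insert_of_mem (h.inY v w hvw)
    · rw [Sym2.eq_iff] at hvw
      rcases hvw with ⟨rfl, _⟩ | ⟨rfl, _⟩
      · exact mem_insert_of_mem hx
      · exact mem_insert_self _ _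
  conn := by
    have hxu : x ≠ u := fun e => hu (e ▸ hx)
    have h1 : ∀ v ∈ Y, (T ⊔ gr {s(x, u)}).Reachable v x := fun v hv =>
      (h.conn v hv x hx).mono le_sup_left
    have h2 : (T ⊔ gr {s(x, u)}).Reachable u x := by
      refine Adj.reachable ?_
      rw [sup_adj]
      exact Or.inr (gr_adj.2 ⟨by rw [Sym2.eq_swap]; exact mem_singleton_self _, hxu.symm⟩)
    have h3 : ∀ v ∈ insert u Y, (T ⊔ gr {s(x, u)}).Reachable v x := by
      intro v hv
      rw [mem_insert] at hv
      rcases hv with rfl | hv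
      · exact h2
      · exact h1 v hv
    exact fun v hv w hw => (h3 v hv).trans (h3 w hw).symm
  acyc := by
    have hn : ¬ T.Reachable x u := fun hr => hu (h.mem_of_reachable hx hr)
    have := (isAcyclic_add_edge_iff_of_not_reachable x u hn).2 h.acyc
    have e : edge x u = gr {s(x, u)} := by
      rw [edge, gr, coe_singleton]
    rwa [e] at this

/-- adding a path starting in the tree -/
theorem RTree.add_path {x u : α} {P : Finset (Sym2 α)} (hP : IsPth G x u P) :
    ∀ {Y : Finset α} {T : SimpleGraph α}, RTree Y T → x ∈ Y → (∀ z ∈ vs P, z ∈ Y → z = x) →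
      RTree (Y ∪ vs P) (T ⊔ gr P) := by
  refine IsPth.rec_left (motive := fun x P => ∀ {Y : Finset α} {T : SimpleGraph α}, RTree Y T →
    x ∈ Y → (∀ z ∈ vs P, z ∈ Y → z = x) → RTree (Y ∪ vs P) (T ⊔ gr P)) ?_ ?_ hP
  · intro Y T hT _ _
    simpa using hT
  · intro v w Q hvw hv _ hwQ ih Y T hT hvY hd
    have hwY : w ∉ Y := by
      intro hw
      have := hd w (by rw [vs_insert]; simp) hw
      exact hvw.ne this.symm
    have h1 := hT.add_leaf hvY hwY
    have h2 := ih h1 (mem_insert_self _ _) (fun z hz hzY => by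
      rw [mem_insert] at hzY
      rcases hzY with hzY | hzY
      · exact hzY
      · have := hd z (by rw [vs_insert]; exact mem_union_right _ hz) hzY
        exact absurd (this ▸ hz) hv)
    have e1 : insert w Y ∪ vs Q = Y ∪ vs (insert s(v, w) Q) := by
      rw [vs_insert]
      ext z
      simp only [mem_union, mem_insert, mem_singleton]
      constructor
      · rintro ((rfl | h) | h)
        · exact Or.inr (Or.inl (Or.inr rfl))
        · exact Or.inl h
        · exact Or.inr (Or.inr h)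
      · rintro (h | (rfl | rfl) | h)
        · exact Or.inl (Or.inr h)
        · exact Or.inl (Or.inr hvY)
        · exact Or.inl (Or.inl rfl)
        · exact Or.inr h
    have e2 : T ⊔ gr {s(v, w)} ⊔ gr Q = T ⊔ gr (insert s(v, w) Q) := by
      rw [gr_insert, sup_assoc]
    rw [e1, e2] at h2
    exact h2

/-- a path is a tree -/
theorem IsPth.treeOn {x u : α} {P : Finset (Sym2 α)} (hP : IsPth G x u P) :
    RTree (insert x (vs P)) (gr P) := by
  have := RTree.add_path hP (RTree.single x) (mem_singleton_self _) fun z _ hz => by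
    rwa [mem_singleton] at hz
  rwa [bot_sup_eq] at this

/-! ## The paths `tp` -/

/-- paths of a forest are unique -/
theorem IsPth.unique {T : SimpleGraph α} (hT : T.IsAcyclic) {v w : α} {P Q : Finset (Sym2 α)}
    (hP : IsPth T v w P) (hQ : IsPth T v w Q) : P = Q := by
  obtain ⟨p, hp, rfl⟩ := hP
  obtain ⟨q, hq, rfl⟩ := hQ
  have := (hT.subsingleton_path v w).elim ⟨p, hp⟩ ⟨q, hq⟩
  rw [Subtype.mk.injEq] at this
  rw [this]

theorem tp_eq {T : SimpleGraph α} (hT : T.IsAcyclic) {v w : α} {P : Finset (Sym2 α)}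
    (hP : IsPth T v w P) : tp T v w = P := by
  have h : ∃ P, IsPth T v w P := ⟨P, hP⟩
  rw [tp, dif_pos h]
  exact h.choose_spec.unique hT hP

theorem tp_isPth {T : SimpleGraph α} {v w : α} (h : T.Reachable v w) :
    IsPth T v w (tp T v w) := by
  have h : ∃ P, IsPth T v w P := exists_isPth h
  rw [tp, dif_pos h]
  exact h.choose_spec

theorem tp_self {T : SimpleGraph α} (hT : T.IsAcyclic) (v : α) : tp T v v = ∅ :=
  tp_eq hT (IsPth.nil v)

theorem tp_comm {T : SimpleGraph α} (hT : T.IsAcyclic) (v w : α) : tp T v w = tp T w v := by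
  by_cases h : T.Reachable v w
  · exact (tp_eq hT (tp_isPth h).symm).symm
  · have h1 : ¬ ∃ P, IsPth T v w P := fun ⟨P, hP⟩ => h hP.reachable
    have h2 : ¬ ∃ P, IsPth T w v P := fun ⟨P, hP⟩ => h hP.reachable.symm
    rw [tp, tp, dif_neg h1, dif_neg h2]

theorem RTree.tp_isPth {Y : Finset α} {T : SimpleGraph α} (h : RTree Y T) {v w : α}
    (hv : v ∈ Y) (hw : w ∈ Y) : IsPth T v w (tp T v w) := DL.tp_isPth (h.conn v hv w hw)

theorem RTree.vs_subset {Y : Finset α} {T : SimpleGraph α} (h : RTree Y T)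
    {P : Finset (Sym2 α)} (hP : ∀ e ∈ P, e ∈ T.edgeSet) : vs P ⊆ Y := by
  intro z hz
  obtain ⟨u, hu⟩ := mem_VS.1 (vs_subset_VS hP hz)
  exact h.inY z u hu

theorem RTree.vs_tp {Y : Finset α} {T : SimpleGraph α} (h : RTree Y T) {v w : α}
    (hv : v ∈ Y) (hw : w ∈ Y) : vs (tp T v w) ⊆ Y := h.vs_subset (h.tp_isPth hv hw).subset

/-- the tree path of a bigger tree -/
theorem tp_mono {T T' : SimpleGraph α} (hT' : T'.IsAcyclic) (hle : T ≤ T') {v w : α}
    (h : T.Reachable v w) : tp T' v w = tp T v w :=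
  tp_eq hT' ((tp_isPth h).mono hle)

/-- the tree path given by an explicit path -/
theorem RTree.tp_eq {Y : Finset α} {T : SimpleGraph α} (h : RTree Y T) {v w : α}
    {P : Finset (Sym2 α)} (hP : IsPth G v w P) (hPT : gr P ≤ T) : tp T v w = P :=
  DL.tp_eq h.acyc (hP.transfer fun e he => by
    have := hP.not_isDiag e he
    induction e using Sym2.ind with
    | _ a b => exact hPT (gr_adj.2 ⟨he, by simpa using this⟩))

/-- in a forest no nonzero chain is a cycle -/
theorem eq_zero_of_acyclic {T : SimpleGraph α} (hT : T.IsAcyclic) {c : Chain α} (hc : c ∈ Z1 T) :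
    c = 0 :=
  eq_zero_of_no_cyc hc fun _ hC _ => by
    obtain ⟨v, w, hw, _⟩ := hC
    exact hT w hw

/-- **tree paths**: `tp a c + tp a d + tp b c + tp b d = 0` -/
theorem RTree.four {Y : Finset α} {T : SimpleGraph α} (h : RTree Y T) {a b c d : α}
    (ha : a ∈ Y) (hb : b ∈ Y) (hc : c ∈ Y) (hd : d ∈ Y) :
    chi (tp T a c) + chi (tp T a d) + (chi (tp T b c) + chi (tp T b d)) = 0 := by
  refine eq_zero_of_acyclic h.acyc ⟨fun e he => ?_, fun v => ?_⟩
  · have key : ∀ x y, x ∈ Y → y ∈ Y → e ∈ csupp (chi (tp T x y)) → e ∈ T.edgeSet := by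
      intro x y hx hy he
      rw [csupp_chi] at he
      exact (h.tp_isPth hx hy).subset e he
    rcases mem_union.1 (csupp_add _ _ (mem_csupp.2 he)) with h1 | h1 <;>
      rcases mem_union.1 (csupp_add _ _ h1) with h2 | h2
    · exact key _ _ ha hc h2
    · exact key _ _ ha hd h2
    · exact key _ _ hb hc h2
    · exact key _ _ hb hd h2
  · rw [bdy_add, bdy_add, bdy_add, (h.tp_isPth ha hc).bdy_chi, (h.tp_isPth ha hd).bdy_chi,
      (h.tp_isPth hb hc).bdy_chi, (h.tp_isPth hb hd).bdy_chi]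
    generalize (if v = a then (1 : ZMod 2) else 0) = x
    generalize (if v = b then (1 : ZMod 2) else 0) = y
    generalize (if v = c then (1 : ZMod 2) else 0) = z
    generalize (if v = d then (1 : ZMod 2) else 0) = w
    revert x y z w; decide

/-! ## 2-bead chains -/

/-- a 2-bead chain from `s` to `t` in minor form -/
structure Chn2 (G : SimpleGraph α) (s t : α) where
  Y0 : Finset α
  Y1 : Finset α
  Y2 : Finset α
  T0 : SimpleGraph α
  T1 : SimpleGraph α
  T2 : SimpleGraph α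
  d01 : Disjoint Y0 Y1
  d02 : Disjoint Y0 Y2
  d12 : Disjoint Y1 Y2
  t0 : RTree Y0 T0
  t1 : RTree Y1 T1
  t2 : RTree Y2 T2
  le0 : T0 ≤ G
  le1 : T1 ≤ G
  le2 : T2 ≤ G
  p0 : Bool → α
  q0 : Bool → α
  p1 : Bool → α
  q1 : Bool → α
  hp0 : ∀ b, p0 b ∈ Y0
  hq0 : ∀ b, q0 b ∈ Y1
  hp1 : ∀ b, p1 b ∈ Y1
  hq1 : ∀ b, q1 b ∈ Y2
  adj0 : ∀ b, G.Adj (p0 b) (q0 b)
  adj1 : ∀ b, G.Adj (p1 b) (q1 b)
  ne0 : s(p0 false, q0 false) ≠ s(p0 true, q0 true)
  ne1 : s(p1 false, q1 false) ≠ s(p1 true, q1 true)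
  hs : s ∈ Y0
  ht : t ∈ Y2

namespace Chn2

variable {s t : α} (c : Chn2 G s t)

/-- the part of the path after leaving `Y0` -/
noncomputable def out (e e' : Bool) : Finset (Sym2 α) :=
  insert s(c.p0 e, c.q0 e) (tp c.T1 (c.q0 e) (c.p1 e') ∪
    insert s(c.p1 e', c.q1 e') (tp c.T2 (c.q1 e') t))

/-- the four paths of a 2-bead chain -/
noncomputable def pth (e e' : Bool) : Finset (Sym2 α) := tp c.T0 s (c.p0 e) ∪ c.out e e'

theorem vs_tail (e' : Bool) : vs (insert s(c.p1 e', c.q1 e') (tp c.T2 (c.q1 e') t)) ⊆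
    insert (c.p1 e') c.Y2 := by
  rw [vs_insert]
  intro z hz
  rw [mem_union, mem_insert, mem_singleton] at hz
  rcases hz with (rfl | rfl) | hz
  · exact mem_insert_self _ _
  · exact mem_insert_of_mem (c.hq1 _)
  · exact mem_insert_of_mem (c.t2.vs_tp (c.hq1 _) c.ht hz)

theorem isPth_tail (e' : Bool) :
    IsPth G (c.p1 e') t (insert s(c.p1 e', c.q1 e') (tp c.T2 (c.q1 e') t)) := by
  refine ((c.t2.tp_isPth (c.hq1 e') c.ht).mono c.le2).cons (c.adj1 e') fun h => ?_
  exact Finset.disjoint_left.1 c.d12 (c.hp1 e') (c.t2.vs_tp (c.hq1 _) c.ht h)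

theorem inter_tail (e e' : Bool) : vs (tp c.T1 (c.q0 e) (c.p1 e')) ∩
    vs (insert s(c.p1 e', c.q1 e') (tp c.T2 (c.q1 e') t)) ⊆ {c.p1 e'} := by
  intro z hz
  rw [mem_inter] at hz
  have h1 := c.t1.vs_tp (c.hq0 e) (c.hp1 e') hz.1
  have h2 := c.vs_tail e' hz.2
  rw [mem_insert] at h2
  rcases h2 with h2 | h2
  · rw [h2]; exact mem_singleton_self _
  · exact absurd h2 (Finset.disjoint_left.1 c.d12 h1)

theorem isPth_mid (e e' : Bool) :
    IsPth G (c.q0 e) t (tp c.T1 (c.q0 e) (c.p1 e') ∪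
      insert s(c.p1 e', c.q1 e') (tp c.T2 (c.q1 e') t)) :=
  ((c.t1.tp_isPth (c.hq0 e) (c.hp1 e')).mono c.le1).append (c.isPth_tail e') (c.inter_tail e e')

theorem vs_mid (e e' : Bool) : vs (tp c.T1 (c.q0 e) (c.p1 e') ∪
      insert s(c.p1 e', c.q1 e') (tp c.T2 (c.q1 e') t)) ⊆ c.Y1 ∪ c.Y2 := by
  rw [vs_union]
  refine union_subset ((c.t1.vs_tp (c.hq0 e) (c.hp1 e')).trans subset_union_left) ?_
  intro z hz
  have h2 := c.vs_tail e' hz
  rw [mem_insert] at h2
  rcases h2 with h2 | h2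
  · rw [h2]; exact mem_union_left _ (c.hp1 _)
  · exact mem_union_right _ h2

theorem notMem_mid (e e' : Bool) {z : α} (hz : z ∈ c.Y0) :
    z ∉ vs (tp c.T1 (c.q0 e) (c.p1 e') ∪
      insert s(c.p1 e', c.q1 e') (tp c.T2 (c.q1 e') t)) := fun h => by
  have := c.vs_mid e e' h
  rw [mem_union] at this
  rcases this with h' | h'
  · exact Finset.disjoint_left.1 c.d01 hz h'
  · exact Finset.disjoint_left.1 c.d02 hz h'

theorem isPth_out (e e' : Bool) : IsPth G (c.p0 e) t (c.out e e') :=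
  (c.isPth_mid e e').cons (c.adj0 e) (c.notMem_mid e e' (c.hp0 e))

theorem vs_out (e e' : Bool) {z : α} (hz : z ∈ vs (c.out e e')) :
    z = c.p0 e ∨ z ∈ c.Y1 ∨ z ∈ c.Y2 := by
  rw [out, vs_insert, mem_union, mem_insert, mem_singleton] at hz
  rcases hz with (rfl | rfl) | hz
  · exact Or.inl rfl
  · exact Or.inr (Or.inl (c.hq0 e))
  · exact Or.inr (mem_union.1 (c.vs_mid e e' hz))

theorem out_exit (e e' : Bool) {z : α} (hz : z ∈ vs (c.out e e')) (h0 : z ∈ c.Y0) :
    z = c.p0 e := by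
  rcases c.vs_out e e' hz with h | h | h
  · exact h
  · exact absurd h (Finset.disjoint_left.1 c.d01 h0)
  · exact absurd h (Finset.disjoint_left.1 c.d02 h0)

theorem inter_out (e e' : Bool) : vs (tp c.T0 s (c.p0 e)) ∩ vs (c.out e e') ⊆ {c.p0 e} := by
  intro z hz
  rw [mem_inter] at hz
  rw [mem_singleton]
  exact c.out_exit e e' hz.2 (c.t0.vs_tp c.hs (c.hp0 e) hz.1)

/-- the four paths are paths from `s` to `t` -/
theorem isPth (e e' : Bool) : IsPth G s t (c.pth e e') :=
  ((c.t0.tp_isPth c.hs (c.hp0 e)).mono c.le0).append (c.isPth_out e e') (c.inter_out e e')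

theorem chi_pth (e e' : Bool) : chi (c.pth e e') = chi (tp c.T0 s (c.p0 e)) +
    (chi {s(c.p0 e, c.q0 e)} + (chi (tp c.T1 (c.q0 e) (c.p1 e')) +
      (chi {s(c.p1 e', c.q1 e')} + chi (tp c.T2 (c.q1 e') t)))) := by
  rw [pth, chi_union, out, chi_insert, chi_union, chi_insert]
  · intro h
    exact Finset.disjoint_left.1 c.d12 (c.hp1 e') (c.t2.vs_tp (c.hq1 _) c.ht (left_mem_vs h))
  · exact disjoint_of_vs_subset (c.t1.tp_isPth (c.hq0 e) (c.hp1 e')).not_isDiag
      (c.inter_tail e e')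
  · intro h
    exact c.notMem_mid e e' (c.hp0 e) (left_mem_vs h)
  · exact disjoint_of_vs_subset (c.t0.tp_isPth c.hs (c.hp0 e)).not_isDiag (c.inter_out e e')

/-- **the four paths have sum zero** -/
theorem sum_chi : ∑ e, ∑ e', chi (c.pth e e') = 0 := by
  have h1 := c.t1.four (c.hq0 true) (c.hq0 false) (c.hp1 true) (c.hp1 false)
  simp only [Fintype.sum_bool, chi_pth]
  generalize chi (tp c.T0 s (c.p0 true)) = a1 at *
  generalize chi (tp c.T0 s (c.p0 false)) = a2 at *
  generalize chi {s(c.p0 true, c.q0 true)} = a3 at *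
  generalize chi {s(c.p0 false, c.q0 false)} = a4 at *
  generalize chi (tp c.T1 (c.q0 true) (c.p1 true)) = b1 at *
  generalize chi (tp c.T1 (c.q0 true) (c.p1 false)) = b2 at *
  generalize chi (tp c.T1 (c.q0 false) (c.p1 true)) = b3 at *
  generalize chi (tp c.T1 (c.q0 false) (c.p1 false)) = b4 at *
  generalize chi {s(c.p1 true, c.q1 true)} = a5 at *
  generalize chi {s(c.p1 false, c.q1 false)} = a6 at *
  generalize chi (tp c.T2 (c.q1 true) t) = a7 at *
  generalize chi (tp c.T2 (c.q1 false) t) = a8 at *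
  funext g
  have h2 := congrFun h1 g
  simp only [Pi.add_apply, Pi.zero_apply] at h2 ⊢
  generalize b1 g = y1 at *
  generalize b2 g = y2 at *
  generalize b3 g = y3 at *
  generalize b4 g = y4 at *
  have e1 := zmod2_add_self (a1 g)
  have e2 := zmod2_add_self (a2 g)
  have e3 := zmod2_add_self (a3 g)
  have e4 := zmod2_add_self (a4 g)
  have e5 := zmod2_add_self (a5 g)
  have e6 := zmod2_add_self (a6 g)
  have e7 := zmod2_add_self (a7 g)
  have e8 := zmod2_add_self (a8 g)
  linear_combination h2 + e1 + e2 + e3 + e4 + e5 + e6 + e7 + e8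

/-- a linear function has sum zero over the four paths -/
theorem sum_linear {W : Type*} [AddCommGroup W] [Module (ZMod 2) W] (w : Sym2 α → W) :
    ∑ e, ∑ e', ∑ g ∈ c.pth e e', w g = 0 := by
  have h0 : ∀ P : Finset (Sym2 α), ∑ g ∈ P, w g = ∑ g, chi P g • w g := by
    intro P
    simp [chi_apply, ite_smul]
  simp only [h0]
  have h1 : ∑ e, ∑ e', ∑ g, chi (c.pth e e') g • w g =
      ∑ g, (∑ e, ∑ e', chi (c.pth e e')) g • w g := by
    simp only [Fintype.sum_bool, Pi.add_apply, add_smul, sum_add_distrib]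
  rw [h1, c.sum_chi]
  simp

end Chn2

end DL
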