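import Mathlib
import Pool.Agent.DL.Defs
import Pool.Agent.DL.Z1
import Pool.Agent.DL.PC
import Pool.Agent.DL.PC2
import Pool.Agent.DL.MENG
import Pool.Agent.DL.KC
import Pool.Agent.DL.TREE

/-!
MP_3ff0f8_gt, ALGEBRA HALF: the affine lemma RT_1 (a function on the `s`-`t` paths which has sum zero
over the four paths of every 2-bead chain is affine).  (helper59)

Proof by induction over a tree `(X, TX)` which contains `s`.
-/

open SimpleGraph Finset

namespace DL

set_option linter.unusedSectionVars false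
set_option linter.unusedFintypeInType false
set_option linter.unusedDecidableInType false

variable {α : Type*} [Fintype α] [DecidableEq α] {G H : SimpleGraph α}

namespace RT1M

/-- a path from `x ∈ X` to `t` which meets `X` only in `x` -/
structure Ex (G : SimpleGraph α) (X : Finset α) (x t : α) (P : Finset (Sym2 α)) : Prop where
  mem : x ∈ X
  pth : IsPth G x t P
  only : ∀ z ∈ vs P, z ∈ X → z = x

/-- the hypothesis of RT_1 relative to the tree `(X, TX)` -/
def Kill {W : Type*} [AddCommGroup W] (G : SimpleGraph α) (s t : α) (X : Finset α)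
    (TX : SimpleGraph α) (φ : Finset (Sym2 α) → W) : Prop :=
  ∀ c : Chn2 G s t, X ⊆ c.Y0 → TX ≤ c.T0 → ∑ e, ∑ e', φ (c.pth e e') = 0

theorem Kill.add_linear {W : Type*} [AddCommGroup W] [Module (ZMod 2) W] {s t : α} {X : Finset α}
    {TX : SimpleGraph α} {φ : Finset (Sym2 α) → W} (h : Kill G s t X TX φ) (w : Sym2 α → W) :
    Kill G s t X TX fun S => φ S + ∑ e ∈ S, w e := by
  intro c h1 h2
  simp only [sum_add_distrib]
  rw [h c h1 h2, c.sum_linear, add_zero]

/-- the exit edge lies in no edge of the tree: edges of `P` are not inside `X` -/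
theorem Ex.not_inside {X : Finset α} {x t : α} {P : Finset (Sym2 α)} (h : Ex G X x t P) {a b : α}
    (hab : s(a, b) ∈ P) : ¬ (a ∈ X ∧ b ∈ X) := by
  rintro ⟨ha, hb⟩
  have h1 := h.only a (left_mem_vs hab) ha
  have h2 := h.only b (right_mem_vs hab) hb
  exact (h.pth.adj_of_mem hab).ne (h1.trans h2.symm)

/-- the chain in case (i) of the proof: all four paths are explicit.  A general builder of 2-bead
chains from trees -/
theorem kill_of_trees {W : Type*} [AddCommGroup W] {s t : α} {X : Finset α} {TX : SimpleGraph α}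
    {φ : Finset (Sym2 α) → W} (hK : Kill G s t X TX φ) (hTX : RTree X TX) (hle : TX ≤ G)
    (hs : s ∈ X) {Y1 Y2 : Finset α} {T1 T2 : SimpleGraph α} (h1 : RTree Y1 T1)
    (h2 : RTree Y2 T2) (l1 : T1 ≤ G) (l2 : T2 ≤ G) (d01 : Disjoint X Y1) (d02 : Disjoint X Y2)
    (d12 : Disjoint Y1 Y2) {x x' y y' u u' v v' : α} (hx : x ∈ X) (hx' : x' ∈ X) (hy : y ∈ Y1)
    (hy' : y' ∈ Y1) (hu : u ∈ Y1) (hu' : u' ∈ Y1) (hv : v ∈ Y2) (hv' : v' ∈ Y2) (ht : t ∈ Y2)
    (a1 : G.Adj x y) (a2 : G.Adj x' y') (a3 : G.Adj u v) (a4 : G.Adj u' v')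
    (n0 : s(x, y) ≠ s(x', y')) (n1 : s(u, v) ≠ s(u', v')) :
    ∃ c : Chn2 G s t, c.Y0 = X ∧ c.Y1 = Y1 ∧ c.Y2 = Y2 ∧
      c.out false false = insert s(x, y) (tp T1 y u ∪ insert s(u, v) (tp T2 v t)) ∧
      c.out false true = insert s(x, y) (tp T1 y u' ∪ insert s(u', v') (tp T2 v' t)) ∧
      c.out true false = insert s(x', y') (tp T1 y' u ∪ insert s(u, v) (tp T2 v t)) ∧
      c.out true true = insert s(x', y') (tp T1 y' u' ∪ insert s(u', v') (tp T2 v' t)) ∧
      c.p0 false = x ∧ c.p0 true = x' ∧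
      φ (tp TX s x ∪ c.out false false) + φ (tp TX s x ∪ c.out false true) +
        (φ (tp TX s x' ∪ c.out true false) + φ (tp TX s x' ∪ c.out true true)) = 0 := by
  let c : Chn2 G s t :=
    { Y0 := X, Y1 := Y1, Y2 := Y2, T0 := TX, T1 := T1, T2 := T2, d01 := d01, d02 := d02, d12 := d12
      t0 := hTX, t1 := h1, t2 := h2, le0 := hle, le1 := l1, le2 := l2
      p0 := fun b => if b then x' else x
      q0 := fun b => if b then y' else y
      p1 := fun b => if b then u' else u
      q1 := fun b => if b then v' else v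
      hp0 := fun b => by cases b <;> simp [hx, hx']
      hq0 := fun b => by cases b <;> simp [hy, hy']
      hp1 := fun b => by cases b <;> simp [hu, hu']
      hq1 := fun b => by cases b <;> simp [hv, hv']
      adj0 := fun b => by cases b <;> simp [a1, a2]
      adj1 := fun b => by cases b <;> simp [a3, a4]
      ne0 := by simpa using n0
      ne1 := by simpa using n1
      hs := hs, ht := ht }
  refine ⟨c, rfl, rfl, rfl, rfl, rfl, rfl, rfl, rfl, rfl, ?_⟩
  have := hK c subset_rfl le_rfl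
  rw [Fintype.sum_bool, Fintype.sum_bool, Fintype.sum_bool] at this
  rw [← this]
  simp only [Chn2.pth, c]
  simp only [if_true, Bool.false_eq_true, if_false]
  abel

/-- the first edge of `P` put back -/
theorem insert_sdiff_union {e : Sym2 α} {P Q : Finset (Sym2 α)} (he : e ∈ P) :
    insert e (P \ {e} ∪ Q) = P ∪ Q := by
  rw [← insert_union, sdiff_singleton_eq_erase, insert_erase he]

/-- case (i) of the proof: the Wheatstone bridge -/
theorem wheat {W : Type*} [AddCommGroup W] {s t t' x0 x : α} {X : Finset α} {TX : SimpleGraph α}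
    {φ : Finset (Sym2 α) → W} (hK : Kill G s t X TX φ) (hTX : RTree X TX) (hle : TX ≤ G)
    (hs : s ∈ X) (htX : t ∉ X) (ht'X : t' ∉ X) (htt' : t' ≠ t) (hx0 : x0 ∈ X)
    (hadj : G.Adj x0 t')
    (hN1 : ∀ x P, Ex G X x t P → t' ∉ vs P → φ (tp TX s x ∪ P) = 0)
    (hN2 : ∀ P, Ex G X x0 t P → s(x0, t') ∈ P → φ (tp TX s x0 ∪ P) = 0)
    {P1 P2 : Finset (Sym2 α)} (hP1 : IsPth G x t' P1) (hP2 : IsPth G t' t P2)
    (h12 : vs P1 ∩ vs P2 ⊆ {t'}) (hx : x ∈ X) (hex1 : ∀ z ∈ vs P1, z ∈ X → z = x)
    (hex2 : ∀ z ∈ vs P2, z ∉ X) (he0 : s(x0, t') ∉ P1) {u : α} (hu : u ∈ vs P1)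
    (hr : (del G (insert t' X)).Reachable u t) : φ (tp TX s x ∪ (P1 ∪ P2)) = 0 := by
  have htS : t ∉ insert t' X := by
    rw [mem_insert, not_or]; exact ⟨htt'.symm, htX⟩
  obtain ⟨R, hR⟩ := exists_isPth hr
  -- the last vertex of `R` on `P1`
  obtain ⟨u1, R1, R2, hu1, hR1, _, hR12, _, _, hfirst, _⟩ :=
    hR.symm.first (X := (vs P1 : Set α)) (by
      by_cases htu : t = u
      · left; rw [htu]; exact hu
      · right; exact ⟨u, hR.symm.right_mem htu, hu⟩)
  have hu1' : u1 ∈ vs P1 := hu1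
  have htP2 : t ∈ vs P2 := hP2.right_mem htt'
  obtain ⟨y, ρ, R3, hy, hρ, _, hρR, _, _, hfirst2, _⟩ :=
    hR1.symm.first (X := (vs P2 : Set α)) (by
      by_cases htu : u1 = t
      · left; rw [htu]; exact htP2
      · right; exact ⟨t, hR1.symm.right_mem htu, htP2⟩)
  have hy' : y ∈ vs P2 := hy
  have hρR1 : ρ ⊆ R1 := hρR ▸ subset_union_left
  have hu1S : u1 ∉ insert t' X := by
    by_cases htu : t = u1
    · rw [← htu]; exact htS
    · exact Finset.disjoint_left.1 (DL.isPth_del.1 hR1).2 (hR1.right_mem htu)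
  have hu1X : u1 ∉ X := fun h => hu1S (mem_insert_of_mem h)
  have hu1t' : u1 ≠ t' := fun h => hu1S (h ▸ mem_insert_self _ _)
  have hyu1 : u1 ≠ y := by
    rintro rfl
    have := h12 (mem_inter.2 ⟨hu1', hy'⟩)
    exact hu1t' (mem_singleton.1 this)
  obtain ⟨hρG, hρS⟩ := DL.isPth_del.1 hρ
  have hρ1 : ∀ z ∈ vs ρ, z ∈ vs P1 → z = u1 := fun z hz hz' => hfirst z (vs_mono hρR1 hz) hz'
  have hρ2 : ∀ z ∈ vs ρ, z ∈ vs P2 → z = y := fun z hz hz' => hfirst2 z hz hz'
  have hρt' : t' ∉ vs ρ := fun h => Finset.disjoint_left.1 hρS h (mem_insert_self _ _)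
  have hyt' : t' ≠ y := fun e => hρt' (e ▸ hρG.right_mem hyu1)
  have hxu1 : x ≠ u1 := fun e => hu1X (e ▸ hx)
  have hxt' : x ≠ t' := fun e => ht'X (e ▸ hx)
  obtain ⟨Pa, Pb, hPa, hPb, hPab, _, hPab'⟩ := hP1.split (Or.inr hu1')
  obtain ⟨Pc, Pd, hPc, hPd, hPcd, _, hPcd'⟩ := hP2.split (Or.inr hy')
  have hPaP : Pa ⊆ P1 := hPab ▸ subset_union_left
  have hPbP : Pb ⊆ P1 := hPab ▸ subset_union_right
  have hPcP : Pc ⊆ P2 := hPcd ▸ subset_union_left
  have hPdP : Pd ⊆ P2 := hPcd ▸ subset_union_right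
  obtain ⟨y1, hy1, hy1', hxPa, hPa'⟩ := hPa.uncons hxu1
  obtain ⟨p2, hp2, hp2', htPc, hPc'⟩ := hPc.uncons hyt'
  obtain ⟨r1, hr1, hr1', huρ, hρ'⟩ := hρG.uncons hyu1
  have hPa'P : Pa \ {s(x, y1)} ⊆ Pa := sdiff_subset
  have hPc'P : Pc \ {s(t', p2)} ⊆ Pc := sdiff_subset
  have hρ'ρ : ρ \ {s(u1, r1)} ⊆ ρ := sdiff_subset
  have hab : ∀ z ∈ vs Pa, z ∈ vs Pb → z = u1 := fun z hz hz' =>
    mem_singleton.1 (hPab' (mem_inter.2 ⟨hz, hz'⟩))
  have hcd : ∀ z ∈ vs Pc, z ∈ vs Pd → z = y := fun z hz hz' =>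
    mem_singleton.1 (hPcd' (mem_inter.2 ⟨hz, hz'⟩))
  have h12' : ∀ z ∈ vs P1, z ∈ vs P2 → z = t' := fun z hz hz' =>
    mem_singleton.1 (h12 (mem_inter.2 ⟨hz, hz'⟩))
  have ht'Pb : t' ∈ vs Pb := hPb.right_mem hu1t'
  have ht'Pa : t' ∉ vs Pa := fun h => hu1t' (hab t' h ht'Pb).symm
  have ht'Pd : t' ∉ vs Pd := fun h => hyt' (hcd t' (hPc.left_mem hyt') h)
  -- the two trees
  have t1 : RTree (insert u1 (vs (Pa \ {s(x, y1)})) ∪ vs Pb) (gr (Pa \ {s(x, y1)}) ⊔ gr Pb) := by
    refine RTree.add_path hPb hPa'.symm.treeOn (mem_insert_self _ _) fun z hz hz' => ?_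
    rw [mem_insert] at hz'
    rcases hz' with hz' | hz'
    · exact hz'
    · exact hab z (vs_mono hPa'P hz') hz
  have t2 : RTree (insert y (vs (Pc \ {s(t', p2)})) ∪ vs Pd ∪ vs (ρ \ {s(u1, r1)}))
      (gr (Pc \ {s(t', p2)}) ⊔ gr Pd ⊔ gr (ρ \ {s(u1, r1)})) := by
    have t3 : RTree (insert y (vs (Pc \ {s(t', p2)})) ∪ vs Pd)
        (gr (Pc \ {s(t', p2)}) ⊔ gr Pd) := by
      refine RTree.add_path hPd hPc'.symm.treeOn (mem_insert_self _ _) fun z hz hz' => ?_
      rw [mem_insert] at hz'
      rcases hz' with hz' | hz'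
      · exact hz'
      · exact hcd z (vs_mono hPc'P hz') hz
    refine RTree.add_path hρ'.symm t3 (mem_union_left _ (mem_insert_self _ _)) fun z hz hz' => ?_
    rw [mem_union, mem_insert] at hz'
    rcases hz' with (hz' | hz') | hz'
    · exact hz'
    · exact hρ2 z (vs_mono hρ'ρ hz) (vs_mono (hPc'P.trans hPcP) hz')
    · exact hρ2 z (vs_mono hρ'ρ hz) (vs_mono hPdP hz')
  have l1 : gr (Pa \ {s(x, y1)}) ⊔ gr Pb ≤ G := sup_le (gr_le hPa'.subset) (gr_le hPb.subset)
  have l2 : gr (Pc \ {s(t', p2)}) ⊔ gr Pd ⊔ gr (ρ \ {s(u1, r1)}) ≤ G :=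
    sup_le (sup_le (gr_le hPc'.subset) (gr_le hPd.subset)) (gr_le hρ'.subset)
  have s1 : ∀ z ∈ insert u1 (vs (Pa \ {s(x, y1)})) ∪ vs Pb, z ∈ vs P1 := by
    intro z hz
    rw [mem_union, mem_insert] at hz
    rcases hz with (rfl | hz) | hz
    · exact hu1'
    · exact vs_mono (hPa'P.trans hPaP) hz
    · exact vs_mono hPbP hz
  have s2 : ∀ z ∈ insert y (vs (Pc \ {s(t', p2)})) ∪ vs Pd ∪ vs (ρ \ {s(u1, r1)}),
      (z ∈ vs P2 ∧ z ≠ t') ∨ z ∈ vs (ρ \ {s(u1, r1)}) := by
    intro z hz
    rw [mem_union, mem_union, mem_insert] at hz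
    rcases hz with ((rfl | hz) | hz) | hz
    · exact Or.inl ⟨hy', hyt'.symm⟩
    · exact Or.inl ⟨vs_mono (hPc'P.trans hPcP) hz, fun e => htPc (e ▸ hz)⟩
    · exact Or.inl ⟨vs_mono hPdP hz, fun e => ht'Pd (e ▸ hz)⟩
    · exact Or.inr hz
  have d01 : Disjoint X (insert u1 (vs (Pa \ {s(x, y1)})) ∪ vs Pb) := by
    rw [Finset.disjoint_left]
    intro z hz hz'
    have hzx := hex1 z (s1 z hz') hz
    subst hzx
    rw [mem_union, mem_insert] at hz'
    rcases hz' with (h | h) | h
    · exact hxu1 h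
    · exact hxPa h
    · exact hxu1 (hab z (hPa.left_mem hxu1) h)
  have d02 : Disjoint X
      (insert y (vs (Pc \ {s(t', p2)})) ∪ vs Pd ∪ vs (ρ \ {s(u1, r1)})) := by
    rw [Finset.disjoint_left]
    intro z hz hz'
    rcases s2 z hz' with h | h
    · exact hex2 z h.1 hz
    · exact Finset.disjoint_left.1 hρS (vs_mono hρ'ρ h) (mem_insert_of_mem hz)
  have d12 : Disjoint (insert u1 (vs (Pa \ {s(x, y1)})) ∪ vs Pb)
      (insert y (vs (Pc \ {s(t', p2)})) ∪ vs Pd ∪ vs (ρ \ {s(u1, r1)})) := by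
    rw [Finset.disjoint_left]
    intro z hz hz'
    rcases s2 z hz' with h | h
    · exact h.2 (h12' z (s1 z hz) h.1)
    · exact huρ (hρ1 z (vs_mono hρ'ρ h) (s1 z hz) ▸ h)
  have m1 : y1 ∈ insert u1 (vs (Pa \ {s(x, y1)})) ∪ vs Pb :=
    mem_union_left _ hPa'.symm.end_mem
  have m2 : t' ∈ insert u1 (vs (Pa \ {s(x, y1)})) ∪ vs Pb := mem_union_right _ ht'Pb
  have m3 : u1 ∈ insert u1 (vs (Pa \ {s(x, y1)})) ∪ vs Pb :=
    mem_union_left _ (mem_insert_self _ _)
  have m4 : p2 ∈ insert y (vs (Pc \ {s(t', p2)})) ∪ vs Pd ∪ vs (ρ \ {s(u1, r1)}) :=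
    mem_union_left _ (mem_union_left _ hPc'.symm.end_mem)
  have m5 : r1 ∈ insert y (vs (Pc \ {s(t', p2)})) ∪ vs Pd ∪ vs (ρ \ {s(u1, r1)}) := by
    have := hρ'.symm.end_mem
    rw [mem_insert] at this
    rcases this with h | h
    · rw [h]; exact mem_union_left _ (mem_union_left _ (mem_insert_self _ _))
    · exact mem_union_right _ h
  have m6 : t ∈ insert y (vs (Pc \ {s(t', p2)})) ∪ vs Pd ∪ vs (ρ \ {s(u1, r1)}) := by
    have := hPd.end_mem
    rw [mem_insert] at this
    rcases this with h | h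
    · rw [h]; exact mem_union_left _ (mem_union_left _ (mem_insert_self _ _))
    · exact mem_union_left _ (mem_union_right _ h)
  have n0 : s(x, y1) ≠ s(x0, t') := fun e => he0 (e ▸ hPaP hy1')
  have n1 : s(t', p2) ≠ s(u1, r1) := fun e => hρt' (left_mem_vs (e ▸ hr1'))
  obtain ⟨c, c0, _, _, o1, o2, o3, o4, q1, q2, hsum⟩ := kill_of_trees hK hTX hle hs t1 t2 l1 l2
    d01 d02 d12 hx hx0 m1 m2 m2 m3 m4 m5 m6 hy1 hadj hp2 hr1 n0 n1
  -- the explicit paths
  have e1 : tp (gr (Pa \ {s(x, y1)}) ⊔ gr Pb) y1 t' = Pa \ {s(x, y1)} ∪ Pb :=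
    t1.tp_eq (hPa'.append hPb fun z hz => by
      rw [mem_inter] at hz
      rw [mem_singleton]
      exact hab z (vs_mono hPa'P hz.1) hz.2) (by rw [gr_union])
  have e2 : tp (gr (Pa \ {s(x, y1)}) ⊔ gr Pb) y1 u1 = Pa \ {s(x, y1)} :=
    t1.tp_eq hPa' le_sup_left
  have e3 : tp (gr (Pc \ {s(t', p2)}) ⊔ gr Pd ⊔ gr (ρ \ {s(u1, r1)})) p2 t =
      Pc \ {s(t', p2)} ∪ Pd :=
    t2.tp_eq (hPc'.append hPd fun z hz => by
      rw [mem_inter] at hz
      rw [mem_singleton]
      exact hcd z (vs_mono hPc'P hz.1) hz.2) (by rw [gr_union]; exact le_sup_left)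
  have e4 : tp (gr (Pc \ {s(t', p2)}) ⊔ gr Pd ⊔ gr (ρ \ {s(u1, r1)})) r1 t =
      ρ \ {s(u1, r1)} ∪ Pd :=
    t2.tp_eq (hρ'.append hPd fun z hz => by
      rw [mem_inter] at hz
      rw [mem_singleton]
      exact hρ2 z (vs_mono hρ'ρ hz.1) (vs_mono hPdP hz.2)) (by
        rw [gr_union]
        exact sup_le le_sup_right (le_sup_right.trans le_sup_left))
  rw [e1, e3] at o1
  rw [e2, e4] at o2
  have o1' : c.out false false = P1 ∪ P2 := by
    rw [o1, insert_sdiff_union hp2', union_assoc (Pa \ {s(x, y1)}) Pb, insert_sdiff_union hy1',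
      hPcd, ← hPab, union_assoc]
  -- the other three paths
  have ex2 : Ex G X x t (c.out false true) :=
    ⟨hx, q1 ▸ c.isPth_out false true, fun z hz hzX => q1 ▸ c.out_exit false true hz (c0 ▸ hzX)⟩
  have ex3 : Ex G X x0 t (c.out true false) :=
    ⟨hx0, q2 ▸ c.isPth_out true false, fun z hz hzX => q2 ▸ c.out_exit true false hz (c0 ▸ hzX)⟩
  have ex4 : Ex G X x0 t (c.out true true) :=
    ⟨hx0, q2 ▸ c.isPth_out true true, fun z hz hzX => q2 ▸ c.out_exit true true hz (c0 ▸ hzX)⟩
  have z2 : φ (tp TX s x ∪ c.out false true) = 0 := by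
    refine hN1 x _ ex2 ?_
    rw [o2, insert_sdiff_union hr1', vs_insert, vs_union, vs_union]
    simp only [mem_union, mem_insert, mem_singleton, not_or]
    refine ⟨⟨hxt'.symm, fun e => ?_⟩, fun h => ht'Pa (vs_mono hPa'P h), hρt', ht'Pd⟩
    exact ht'Pa (e ▸ right_mem_vs hy1')
  have z3 : φ (tp TX s x0 ∪ c.out true false) = 0 := by
    refine hN2 _ ex3 ?_
    rw [o3]; exact mem_insert_self _ _
  have z4 : φ (tp TX s x0 ∪ c.out true true) = 0 := by
    refine hN2 _ ex4 ?_
    rw [o4]; exact mem_insert_self _ _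
  rw [z2, z3, z4, o1', add_zero, add_zero, add_zero] at hsum
  exact hsum

/-- case (ii) of the proof: a bead move on the part after `t'` does not change the value -/
theorem bead_step {W : Type*} [AddCommGroup W] {s t t' x0 x : α} {X : Finset α}
    {TX : SimpleGraph α} {φ : Finset (Sym2 α) → W} (hK : Kill G s t X TX φ) (hTX : RTree X TX)
    (hle : TX ≤ G) (hs : s ∈ X) (ht'X : t' ∉ X) (hx0 : x0 ∈ X) (hadj : G.Adj x0 t')
    (hN2 : ∀ P, Ex G X x0 t P → s(x0, t') ∈ P → φ (tp TX s x0 ∪ P) = 0)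
    {P1 : Finset (Sym2 α)} (hP1 : IsPth G x t' P1) (hx : x ∈ X)
    (hex1 : ∀ z ∈ vs P1, z ∈ X → z = x) (he0 : s(x0, t') ∉ P1) {E Q Q' : Finset (Sym2 α)}
    (hB : Bead (del G X) t' t E Q Q') (hd : ∀ z ∈ vs P1, z ∈ vs Q → z = t')
    (hd' : ∀ z ∈ vs P1, z ∈ vs Q' → z = t') :
    φ (tp TX s x ∪ (P1 ∪ Q)) + φ (tp TX s x ∪ (P1 ∪ Q')) = 0 := by
  obtain ⟨a, b, A, R, B, D, hab, hA, hR, hBp, hD, hQ, hQ', h1, h2, h3, h4, h5, h6, h7, hne⟩ :=
    hB.data
  obtain ⟨hAG, hAX⟩ := DL.isPth_del.1 hA
  obtain ⟨hRG, hRX⟩ := DL.isPth_del.1 hR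
  obtain ⟨hBG, hBX⟩ := DL.isPth_del.1 hBp
  obtain ⟨hDG, hDX⟩ := DL.isPth_del.1 hD
  have k1 : ∀ z ∈ vs A, z ∈ vs R → z = a := fun z hz hz' =>
    mem_singleton.1 (h1 (mem_inter.2 ⟨hz, hz'⟩))
  have k2 : ∀ z ∈ vs A, z ∈ vs B → z = a := fun z hz hz' =>
    mem_singleton.1 (h2 (mem_inter.2 ⟨hz, hz'⟩))
  have k5 : ∀ z ∈ vs (A ∪ R), z ∈ vs D → z = b := fun z hz hz' =>
    mem_singleton.1 (h5 (mem_inter.2 ⟨hz, hz'⟩))
  have k6 : ∀ z ∈ vs (A ∪ B), z ∈ vs D → z = b := fun z hz hz' =>
    mem_singleton.1 (h6 (mem_inter.2 ⟨hz, hz'⟩))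
  have k7 : ∀ z ∈ vs R, z ∈ vs B → z = a ∨ z = b := fun z hz hz' => by
    have := h7 (mem_inter.2 ⟨hz, hz'⟩)
    rwa [mem_insert, mem_singleton] at this
  have hxt' : x ≠ t' := fun e => ht'X (e ▸ hx)
  have haR : a ∈ vs R := hRG.left_mem hab
  have hbR : b ∈ vs R := hRG.right_mem hab
  have haB : a ∈ vs B := hBG.left_mem hab
  have hbB : b ∈ vs B := hBG.right_mem hab
  have ht'b : t' ≠ b := by
    rintro rfl
    exact hab (k1 t' (hAG.left_mem hab.symm) hbR).symm
  have hAQ : vs A ⊆ vs Q := vs_mono (hQ ▸ subset_union_left.trans subset_union_left)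
  have hRQ : vs R ⊆ vs Q := vs_mono (hQ ▸ subset_union_right.trans subset_union_left)
  have hDQ : vs D ⊆ vs Q := vs_mono (hQ ▸ subset_union_right)
  have hBQ : vs B ⊆ vs Q' := vs_mono (hQ' ▸ subset_union_right.trans subset_union_left)
  -- `t'` is on `A` or is `a`
  have ht'A : ∀ z, z = t' → z ∈ vs R → z = a := by
    rintro z rfl hz
    by_cases h : z = a
    · exact h
    · exact k1 z (hAG.left_mem h) hz
  have ht'A' : ∀ z, z = t' → z ∈ vs B → z = a := by
    rintro z rfl hz
    by_cases h : z = a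
    · exact h
    · exact k2 z (hAG.left_mem h) hz
  have ht'D : t' ∉ vs D := by
    intro h
    refine ht'b (k5 t' ?_ h)
    rw [mem_vs_union]
    by_cases h' : t' = a
    · right; rw [h']; exact haR
    · left; exact hAG.left_mem h'
  obtain ⟨y1, hy1, hy1', hxP1, hP1'⟩ := hP1.uncons hxt'
  obtain ⟨r, hr, hr1, hbR', hR'⟩ := hRG.symm.uncons hab.symm
  obtain ⟨r', hr', hr1', hbB', hB'⟩ := hBG.symm.uncons hab.symm
  have hP1'P : P1 \ {s(x, y1)} ⊆ P1 := sdiff_subset
  have hR'R : R \ {s(b, r)} ⊆ R := sdiff_subset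
  have hB'B : B \ {s(b, r')} ⊆ B := sdiff_subset
  set P1s := P1 \ {s(x, y1)} with hP1s
  set Rs := R \ {s(b, r)} with hRs
  set Bs := B \ {s(b, r')} with hBs
  -- the trees
  have t10 : RTree (insert t' (vs P1s) ∪ vs A) (gr P1s ⊔ gr A) := by
    refine RTree.add_path hAG hP1'.symm.treeOn (mem_insert_self _ _) fun z hz hz' => ?_
    rw [mem_insert] at hz'
    rcases hz' with hz' | hz'
    · exact hz'
    · exact hd z (vs_mono hP1'P hz') (hAQ hz)
  have haY : a ∈ insert t' (vs P1s) ∪ vs A := by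
    have := hAG.end_mem
    rw [mem_insert] at this
    rcases this with h | h
    · rw [h]; exact mem_union_left _ (mem_insert_self _ _)
    · exact mem_union_right _ h
  have t11 : RTree (insert t' (vs P1s) ∪ vs A ∪ vs Rs) (gr P1s ⊔ gr A ⊔ gr Rs) := by
    refine RTree.add_path hR'.symm t10 haY fun z hz hz' => ?_
    rw [mem_union, mem_insert] at hz'
    rcases hz' with (hz' | hz') | hz'
    · exact ht'A z hz' (vs_mono hR'R hz)
    · exact ht'A z (hd z (vs_mono hP1'P hz') (hRQ (vs_mono hR'R hz))) (vs_mono hR'R hz)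
    · exact k1 z hz' (vs_mono hR'R hz)
  have t1 : RTree (insert t' (vs P1s) ∪ vs A ∪ vs Rs ∪ vs Bs)
      (gr P1s ⊔ gr A ⊔ gr Rs ⊔ gr Bs) := by
    refine RTree.add_path hB'.symm t11 (mem_union_left _ haY) fun z hz hz' => ?_
    rw [mem_union, mem_union, mem_insert] at hz'
    rcases hz' with ((hz' | hz') | hz') | hz'
    · exact ht'A' z hz' (vs_mono hB'B hz)
    · exact ht'A' z (hd' z (vs_mono hP1'P hz') (hBQ (vs_mono hB'B hz))) (vs_mono hB'B hz)
    · exact k2 z hz' (vs_mono hB'B hz)
    · rcases k7 z (vs_mono hR'R hz') (vs_mono hB'B hz) with h | h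
      · exact h
      · exact absurd (h ▸ hz) hbB'
  have t2 : RTree (insert b (vs D)) (gr D) := hDG.treeOn
  have l1 : gr P1s ⊔ gr A ⊔ gr Rs ⊔ gr Bs ≤ G :=
    sup_le (sup_le (sup_le (gr_le hP1'.subset) (gr_le hAG.subset)) (gr_le hR'.subset))
      (gr_le hB'.subset)
  have l2 : gr D ≤ G := gr_le hDG.subset
  have mY : ∀ z, z ∈ insert t' (vs P1s) ∪ vs A ∪ vs Rs ∪ vs Bs ↔
      z = t' ∨ z ∈ vs P1s ∨ z ∈ vs A ∨ z ∈ vs Rs ∨ z ∈ vs Bs := by
    intro z
    simp only [mem_union, mem_insert, or_assoc]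
  have d01 : Disjoint X (insert t' (vs P1s) ∪ vs A ∪ vs Rs ∪ vs Bs) := by
    rw [Finset.disjoint_left]
    intro z hz hz'
    rcases (mY z).1 hz' with h | h | h | h | h
    · exact ht'X (h ▸ hz)
    · exact hxP1 (hex1 z (vs_mono hP1'P h) hz ▸ h)
    · exact Finset.disjoint_left.1 hAX h hz
    · exact Finset.disjoint_left.1 hRX (vs_mono hR'R h) hz
    · exact Finset.disjoint_left.1 hBX (vs_mono hB'B h) hz
  have d02 : Disjoint X (insert b (vs D)) := by
    rw [Finset.disjoint_left]
    intro z hz hz'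
    rw [mem_insert] at hz'
    rcases hz' with h | h
    · exact Finset.disjoint_left.1 hRX hbR (h ▸ hz)
    · exact Finset.disjoint_left.1 hDX h hz
  have d12 : Disjoint (insert t' (vs P1s) ∪ vs A ∪ vs Rs ∪ vs Bs) (insert b (vs D)) := by
    rw [Finset.disjoint_left]
    intro z hz hz'
    have hzQ : z ∈ vs Q := by
      rw [mem_insert] at hz'
      rcases hz' with h | h
      · rw [h]; exact hRQ hbR
      · exact hDQ h
    have hbA : b ∉ vs A := fun h => hab (k1 b h hbR).symm
    rw [mem_insert] at hz'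
    have c1 : z ≠ t' := by
      rintro rfl
      rcases hz' with h | h
      · exact ht'b h
      · exact ht'D h
    rcases (mY z).1 hz with h | h | h | h | h
    · exact c1 h
    · exact c1 (hd z (vs_mono hP1'P h) hzQ)
    · rcases hz' with h' | h'
      · exact hbA (h' ▸ h)
      · exact hbA (k5 z (mem_vs_union.2 (Or.inl h)) h' ▸ h)
    · rcases hz' with h' | h'
      · exact hbR' (h' ▸ h)
      · exact hbR' (k5 z (mem_vs_union.2 (Or.inr (vs_mono hR'R h))) h' ▸ h)
    · rcases hz' with h' | h'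
      · exact hbB' (h' ▸ h)
      · exact hbB' (k6 z (mem_vs_union.2 (Or.inr (vs_mono hB'B h))) h' ▸ h)
  have m1 : y1 ∈ insert t' (vs P1s) ∪ vs A ∪ vs Rs ∪ vs Bs := by
    have := hP1'.symm.end_mem
    rw [mem_insert] at this
    exact (mY y1).2 (this.imp id Or.inl)
  have m2 : t' ∈ insert t' (vs P1s) ∪ vs A ∪ vs Rs ∪ vs Bs := (mY t').2 (Or.inl rfl)
  have m3 : r ∈ insert t' (vs P1s) ∪ vs A ∪ vs Rs ∪ vs Bs := by
    have := hR'.symm.end_mem
    rw [mem_insert] at this
    rcases this with h | h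
    · rw [h]; exact mem_union_left _ (mem_union_left _ haY)
    · exact (mY r).2 (Or.inr (Or.inr (Or.inr (Or.inl h))))
  have m4 : r' ∈ insert t' (vs P1s) ∪ vs A ∪ vs Rs ∪ vs Bs := by
    have := hB'.symm.end_mem
    rw [mem_insert] at this
    rcases this with h | h
    · rw [h]; exact mem_union_left _ (mem_union_left _ haY)
    · exact (mY r').2 (Or.inr (Or.inr (Or.inr (Or.inr h))))
  have n0 : s(x, y1) ≠ s(x0, t') := fun e => he0 (e ▸ hy1')
  have n1 : s(r, b) ≠ s(r', b) := by
    intro e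
    have hrr : r = r' := by
      rw [Sym2.eq_iff] at e
      rcases e with ⟨e, _⟩ | ⟨e1, e2⟩
      · exact e
      · exact e1.trans e2
    subst hrr
    rcases k7 r (right_mem_vs hr1) (right_mem_vs hr1') with h | h
    · subst h
      have e1 := hRG.symm.eq_singleton hr1
      have e2 := hBG.symm.eq_singleton hr1'
      exact hne (e1.trans e2.symm)
    · exact hr.ne h.symm
  obtain ⟨c, c0, _, _, o1, o2, o3, o4, q1, q2, hsum⟩ := kill_of_trees hK hTX hle hs t1 t2 l1 l2
    d01 d02 d12 hx hx0 m1 m2 m3 m4 (mem_insert_self _ _) (mem_insert_self _ _) hDG.end_mem hy1 hadj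
    hr.symm hr'.symm n0 n1
  have gsub : ∀ {S : Finset (Sym2 α)}, S = P1s ∪ (A ∪ Rs) ∨ S = P1s ∪ (A ∪ Bs) →
      gr S ≤ gr P1s ⊔ gr A ⊔ gr Rs ⊔ gr Bs := by
    intro S hS
    rcases hS with rfl | rfl
    · rw [gr_union, gr_union, ← sup_assoc]
      exact le_sup_left
    · rw [gr_union, gr_union, ← sup_assoc]
      exact sup_le (le_sup_left.trans le_sup_left) le_sup_right
  have e1 : tp (gr P1s ⊔ gr A ⊔ gr Rs ⊔ gr Bs) y1 r = P1s ∪ (A ∪ Rs) := by
    refine t1.tp_eq (G := G) ?_ (gsub (Or.inl rfl))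
    refine hP1'.append (hAG.append hR'.symm fun z hz => ?_) fun z hz => ?_
    · rw [mem_inter] at hz
      rw [mem_singleton]
      exact k1 z hz.1 (vs_mono hR'R hz.2)
    · rw [mem_inter, mem_vs_union] at hz
      rw [mem_singleton]
      rcases hz.2 with h | h
      · exact hd z (vs_mono hP1'P hz.1) (hAQ h)
      · exact hd z (vs_mono hP1'P hz.1) (hRQ (vs_mono hR'R h))
  have e2 : tp (gr P1s ⊔ gr A ⊔ gr Rs ⊔ gr Bs) y1 r' = P1s ∪ (A ∪ Bs) := by
    refine t1.tp_eq (G := G) ?_ (gsub (Or.inr rfl))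
    refine hP1'.append (hAG.append hB'.symm fun z hz => ?_) fun z hz => ?_
    · rw [mem_inter] at hz
      rw [mem_singleton]
      exact k2 z hz.1 (vs_mono hB'B hz.2)
    · rw [mem_inter, mem_vs_union] at hz
      rw [mem_singleton]
      rcases hz.2 with h | h
      · exact hd z (vs_mono hP1'P hz.1) (hAQ h)
      · exact hd' z (vs_mono hP1'P hz.1) (hBQ (vs_mono hB'B h))
  have e3 : tp (gr D) b t = D := t2.tp_eq hDG le_rfl
  rw [e1, e3] at o1
  rw [e2, e3] at o2
  have o1' : c.out false false = P1 ∪ Q := by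
    rw [o1, union_assoc, ← insert_union, IsCyc.insert_sdiff hy1', ← hQ, Sym2.eq_swap (a := r)]
    congr 1
    rw [union_insert, ← insert_union, union_comm A, ← insert_union, IsCyc.insert_sdiff hr1,
      union_comm R]
  have o2' : c.out false true = P1 ∪ Q' := by
    rw [o2, union_assoc, ← insert_union, IsCyc.insert_sdiff hy1', ← hQ', Sym2.eq_swap (a := r')]
    congr 1
    rw [union_insert, ← insert_union, union_comm A, ← insert_union, IsCyc.insert_sdiff hr1',
      union_comm B]
  have ex3 : Ex G X x0 t (c.out true false) :=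
    ⟨hx0, q2 ▸ c.isPth_out true false, fun z hz hzX => q2 ▸ c.out_exit true false hz (c0 ▸ hzX)⟩
  have ex4 : Ex G X x0 t (c.out true true) :=
    ⟨hx0, q2 ▸ c.isPth_out true true, fun z hz hzX => q2 ▸ c.out_exit true true hz (c0 ▸ hzX)⟩
  have z3 : φ (tp TX s x0 ∪ c.out true false) = 0 := by
    refine hN2 _ ex3 ?_
    rw [o3]; exact mem_insert_self _ _
  have z4 : φ (tp TX s x0 ∪ c.out true true) = 0 := by
    refine hN2 _ ex4 ?_
    rw [o4]; exact mem_insert_self _ _
  rw [z3, z4, o1', o2', add_zero, add_zero] at hsum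
  exact hsum

theorem W_add_self {W : Type*} [AddCommGroup W] [Module (ZMod 2) W] (x : W) : x + x = 0 := by
  rw [← two_smul (ZMod 2) x]
  have : (2 : ZMod 2) = 0 := by decide
  rw [this, zero_smul]

theorem W_eq_of_add {W : Type*} [AddCommGroup W] [Module (ZMod 2) W] {x y : W} (h : x + y = 0) :
    x = y := by
  have h1 := W_add_self y
  rw [← h1] at h
  exact add_right_cancel h

/-- the main induction -/
theorem aux {W : Type*} [AddCommGroup W] [Module (ZMod 2) W] :
    ∀ (n : ℕ) (G : SimpleGraph α) (s t : α) (X : Finset α) (TX : SimpleGraph α)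
      (φ : Finset (Sym2 α) → W), RTree X TX → TX ≤ G → s ∈ X → t ∉ X → (VS G \ X).card = n →
      Kill G s t X TX φ →
      ∃ w : Sym2 α → W, ∀ x P, Ex G X x t P → φ (tp TX s x ∪ P) = ∑ e ∈ P, w e := by
  classical
  intro n
  induction n using Nat.strong_induction_on with
  | _ n ih =>
  intro G s t X TX φ hTX hle hs ht hn hK
  by_cases hA : ∀ x ∈ X, ∀ y, G.Adj x y → y ∉ X → y = t
  · refine ⟨fun e => if h : ∃ x ∈ X, s(x, t) = e then φ (tp TX s h.choose ∪ {e}) else 0,
      fun x P hP => ?_⟩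
    have hxt : x ≠ t := fun e => ht (e ▸ hP.mem)
    obtain ⟨y, hxy, hy1, _, _⟩ := hP.pth.uncons hxt
    have hyX : y ∉ X := fun h => hxy.ne (hP.only y (right_mem_vs hy1) h).symm
    have hyt := hA x hP.mem y hxy hyX
    subst hyt
    have hPe := hP.pth.eq_singleton hy1
    rw [hPe, sum_singleton]
    have hex : ∃ x' ∈ X, s(x', y) = s(x, y) := ⟨x, hP.mem, rfl⟩
    rw [dif_pos hex]
    have hc := hex.choose_spec.2
    have hcx : hex.choose = x := by
      rw [Sym2.eq_iff] at hc
      rcases hc with ⟨h, _⟩ | ⟨h1, h2⟩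
      · exact h
      · exact absurd h2.symm hxt
    rw [hcx]
  · push Not at hA
    obtain ⟨x0, hx0, t', hadj, ht'X, htt'⟩ := hA
    have hT' := hTX.add_leaf hx0 ht'X
    have hle' : TX ⊔ gr {s(x0, t')} ≤ G := sup_le hle (gr_le fun e he => by
      rw [mem_singleton] at he; rw [he]; exact hadj)
    have hcard : (VS G \ insert t' X).card < n := by
      rw [← hn]
      apply card_lt_card
      refine ⟨sdiff_subset_sdiff subset_rfl (subset_insert _ _), fun h => ?_⟩
      have := h (mem_sdiff.2 ⟨right_mem_VS hadj, ht'X⟩)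
      exact (mem_sdiff.1 this).2 (mem_insert_self _ _)
    have htX' : t ∉ insert t' X := by
      rw [mem_insert, not_or]; exact ⟨htt'.symm, ht⟩
    obtain ⟨w1, hw1⟩ := ih _ hcard G s t (insert t' X) (TX ⊔ gr {s(x0, t')}) φ hT' hle'
      (mem_insert_of_mem hs) htX' rfl
      (fun c h1 h2 => hK c ((subset_insert _ _).trans h1) (le_sup_left.trans h2))
    -- subtract the linear function
    set w2 : Sym2 α → W := fun e => if e = s(x0, t') then 0 else if e ∈ TX.edgeSet then 0 else w1 e
      with hw2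
    set φ' : Finset (Sym2 α) → W := fun S => φ S + ∑ e ∈ S, w2 e with hφ'
    have hKφ : Kill G s t X TX φ' := hK.add_linear w2
    have htpX : ∀ x ∈ X, ∀ a b, s(a, b) ∈ tp TX s x → a ∈ X ∧ b ∈ X ∧ s(a, b) ∈ TX.edgeSet := by
      intro x hx a b hab
      have h1 := (hTX.tp_isPth hs hx).subset _ hab
      exact ⟨hTX.inY _ _ h1, hTX.inY' h1, h1⟩
    have hin : ∀ {x P t1}, Ex G X x t1 P → ∀ e ∈ P, e ∉ TX.edgeSet := by
      intro x P t1 hP e he he'
      induction e using Sym2.ind with
      | _ a b => exact hP.not_inside he ⟨hTX.inY _ _ he', hTX.inY' he'⟩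
    have hφP : ∀ x P, Ex G X x t P → φ' (tp TX s x ∪ P) = φ (tp TX s x ∪ P) + ∑ e ∈ P, w2 e := by
      intro x P hP
      have hdis : Disjoint (tp TX s x) P := by
        rw [Finset.disjoint_left]
        intro e he he'
        induction e using Sym2.ind with
        | _ a b =>
          have := htpX x hP.mem a b he
          exact hP.not_inside he' ⟨this.1, this.2.1⟩
      have h0 : ∑ e ∈ tp TX s x, w2 e = 0 := by
        refine sum_eq_zero fun e he => ?_
        have := (hTX.tp_isPth hs hP.mem).subset e he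
        rw [hw2]
        simp only [this, if_true, ite_self]
      simp only [hφ']
      rw [sum_union hdis, h0, zero_add]
    -- non-chordal paths
    have hN1 : ∀ x P, Ex G X x t P → t' ∉ vs P → φ' (tp TX s x ∪ P) = 0 := by
      intro x P hP ht'P
      have h := hw1 x P ⟨mem_insert_of_mem hP.mem, hP.pth, fun z hz hz' => by
        rw [mem_insert] at hz'
        rcases hz' with rfl | hz'
        · exact absurd hz ht'P
        · exact hP.only z hz hz'⟩
      rw [tp_mono hT'.acyc le_sup_left (hTX.conn s hs x hP.mem)] at h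
      rw [hφP x P hP, h]
      have h2 : ∑ e ∈ P, w2 e = ∑ e ∈ P, w1 e := by
        refine sum_congr rfl fun e he => ?_
        have h3 : e ≠ s(x0, t') := fun h => ht'P (right_mem_vs (h ▸ he))
        simp only [hw2, h3, if_false, hin hP e he]
      rw [h2, W_add_self]
    have hN2 : ∀ P, Ex G X x0 t P → s(x0, t') ∈ P → φ' (tp TX s x0 ∪ P) = 0 := by
      intro P hP he
      have hx0t : x0 ≠ t := fun e => ht (e ▸ hx0)
      obtain ⟨u, hu, hu1, hu2, hu3⟩ := hP.pth.uncons hx0t
      have hut : u = t' := hP.pth.left_unique hu1 he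
      subst hut
      have h := hw1 u (P \ {s(x0, u)}) ⟨mem_insert_self _ _, hu3, fun z hz hz' => by
        rw [mem_insert] at hz'
        rcases hz' with rfl | hz'
        · rfl
        · have := hP.only z (vs_mono sdiff_subset hz) hz'
          exact absurd (this ▸ hz) hu2⟩
      have htp : tp (TX ⊔ gr {s(x0, u)}) s u = insert s(x0, u) (tp TX s x0) := by
        have hp := (hTX.tp_isPth hs hx0)
        refine hT'.tp_eq (G := G) ((hp.mono hle).concat hu fun h => ?_) ?_
        · exact ht'X (hTX.vs_tp hs hx0 h)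
        · rw [gr_insert]
          exact sup_le le_sup_right ((gr_le hp.subset).trans le_sup_left)
      rw [htp, insert_union, ← union_insert, IsCyc.insert_sdiff he] at h
      rw [hφP x0 P hP, h]
      have h2 : ∑ e ∈ P, w2 e = ∑ e ∈ P \ {s(x0, u)}, w1 e := by
        have h3 : ∑ e ∈ P, w2 e = ∑ e ∈ P \ {s(x0, u)}, w2 e := by
          rw [sdiff_singleton_eq_erase, ← sum_erase_add P w2 he]
          have : w2 s(x0, u) = 0 := by simp only [hw2, if_true]
          rw [this, add_zero]
        rw [h3]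
        refine sum_congr rfl fun e he' => ?_
        rw [mem_sdiff, mem_singleton] at he'
        simp only [hw2, he'.2, if_false, hin hP e he'.1]
      rw [h2, W_add_self]
    suffices h : ∃ w3 : Sym2 α → W, ∀ x P, Ex G X x t P → φ' (tp TX s x ∪ P) = ∑ e ∈ P, w3 e by
      obtain ⟨w3, h3⟩ := h
      refine ⟨fun e => w2 e + w3 e, fun x P hP => ?_⟩
      have h4 := h3 x P hP
      rw [hφP x P hP] at h4
      rw [sum_add_distrib, ← h4, add_comm (∑ e ∈ P, w2 e), add_assoc, W_add_self, add_zero]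
    -- the part after `t'`
    have htail : ∀ {x P P1 P2}, Ex G X x t P → IsPth G x t' P1 → IsPth G t' t P2 → P1 ∪ P2 = P →
        vs P1 ∩ vs P2 ⊆ {t'} → IsPth (del G X) t' t P2 := by
      intro x P P1 P2 hP hP1 hP2 h12 h12'
      refine DL.isPth_del.2 ⟨hP2, ?_⟩
      rw [Finset.disjoint_left]
      intro z hz hzX
      have hzx := hP.only z (vs_mono (h12 ▸ subset_union_right) hz) hzX
      have hxt' : x ≠ t' := fun e => ht'X (e ▸ hP.mem)
      have := h12' (mem_inter.2 ⟨hP1.left_mem hxt', hzx ▸ hz⟩)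
      exact hxt' (mem_singleton.1 this)
    by_cases hP20 : ∃ P2, IsPth (del G X) t' t P2
    swap
    · refine ⟨fun _ => 0, fun x P hP => ?_⟩
      rw [sum_const_zero]
      refine hN1 x P hP fun ht'P => hP20 ?_
      obtain ⟨P1, P2, hP1, hP2, h12, _, h12'⟩ := hP.pth.split (Or.inr ht'P)
      exact ⟨P2, htail hP hP1 hP2 h12 h12'⟩
    obtain ⟨P20, hP20⟩ := hP20
    set K : Finset α := univ.filter fun v => v ∉ insert t' X ∧
      (del G (insert t' X)).Reachable v t with hKdef
    have memK : ∀ v, v ∈ K ↔ v ∉ insert t' X ∧ (del G (insert t' X)).Reachable v t := by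
      intro v; rw [hKdef, mem_filter]; simp
    have htK : t ∈ K := (memK t).2 ⟨htX', Reachable.refl _⟩
    have hXK : ∀ z ∈ X, z ∉ K := fun z hz hzK => ((memK z).1 hzK).1 (mem_insert_of_mem hz)
    have ht'K : t' ∉ K := fun h => ((memK t').1 h).1 (mem_insert_self _ _)
    -- vertices of the tails
    have tailK : ∀ {Q}, IsPth (del G X) t' t Q → ∀ z ∈ vs Q, z = t' ∨ z ∈ K := by
      intro Q hQ z hz
      by_cases hzt : z = t'
      · exact Or.inl hzt
      · right
        obtain ⟨hQ', hQX⟩ := DL.isPth_del.1 hQ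
        obtain ⟨Q1, Q2, h1, h2, h3, _, h5⟩ := hQ'.split (Or.inr hz)
        have hzX : z ∉ X := Finset.disjoint_left.1 hQX hz
        rw [memK, mem_insert, not_or]
        refine ⟨⟨hzt, hzX⟩, h2.reachable_del fun y hy hy' => ?_⟩
        have hyQ : y ∈ vs Q := by
          rw [mem_insert] at hy
          rcases hy with rfl | hy
          · exact hz
          · exact vs_mono (h3 ▸ subset_union_right) hy
        rw [mem_insert] at hy'
        rcases hy' with rfl | hy'
        · rw [mem_insert] at hy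
          rcases hy with hy | hy
          · exact hzt hy.symm
          · have := h5 (mem_inter.2 ⟨h1.left_mem (Ne.symm hzt), hy⟩)
            exact hzt (mem_singleton.1 this).symm
        · exact Finset.disjoint_left.1 hQX hyQ hy'
    have hP20G := (DL.isPth_del.1 hP20).1
    have hP20X := (DL.isPth_del.1 hP20).2
    -- the graph `J`
    have hleJ : TX ≤ del G K := fun a b hab =>
      ⟨hle hab, hXK a (hTX.inY _ _ hab), hXK b (hTX.inY' hab)⟩
    have hcardJ : (VS (del G K) \ X).card < n := by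
      rw [← hn]
      apply card_lt_card
      refine ⟨sdiff_subset_sdiff (VS_mono (del_le _ _)) subset_rfl, fun h => ?_⟩
      have h1 := h (mem_sdiff.2 ⟨hP20G.vs_subset (hP20G.right_mem htt'), ht⟩)
      have h2 := VS_del_subset K (mem_sdiff.1 h1).1
      exact (mem_sdiff.1 h2).2 htK
    set ψ : Finset (Sym2 α) → W := fun S => φ' (S ∪ P20) with hψ
    have hKψ : Kill (del G K) s t' X TX ψ := by
      intro c h1 h2
      have cl : ∀ {T : SimpleGraph α} {p v : α}, T ≤ del G K → p ∉ K → T.Reachable p v → v ∉ K := by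
        intro T p v hT hp hr
        exact DL.mem_of_reachable (X := {v | v ∉ K}) hr hp fun a b hab _ => (hT hab).2.2
      have k0 : ∀ z ∈ c.Y0, z ∉ K := fun z hz =>
        cl c.le0 (c.adj0 false).2.1 (c.t0.conn _ (c.hp0 false) z hz)
      have k1 : ∀ z ∈ c.Y1, z ∉ K := fun z hz =>
        cl c.le1 (c.adj0 false).2.2 (c.t1.conn _ (c.hq0 false) z hz)
      have k2 : ∀ z ∈ c.Y2, z ∉ K := fun z hz =>
        cl c.le2 (c.adj1 false).2.2 (c.t2.conn _ (c.hq1 false) z hz)
      have t2' : RTree (c.Y2 ∪ vs P20) (c.T2 ⊔ gr P20) :=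
        RTree.add_path hP20G c.t2 c.ht fun z hz hz' => by
          rcases tailK hP20 z hz with h | h
          · exact h
          · exact absurd h (k2 z hz')
      let c' : Chn2 G s t :=
        { Y0 := c.Y0, Y1 := c.Y1, Y2 := c.Y2 ∪ vs P20, T0 := c.T0, T1 := c.T1, T2 := c.T2 ⊔ gr P20
          d01 := c.d01
          d02 := by
            rw [Finset.disjoint_left]
            intro z hz hz'
            rw [mem_union] at hz'
            rcases hz' with h | h
            · exact Finset.disjoint_left.1 c.d02 hz h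
            · rcases tailK hP20 z h with h | h
              · exact Finset.disjoint_left.1 c.d02 hz (h ▸ c.ht)
              · exact k0 z hz h
          d12 := by
            rw [Finset.disjoint_left]
            intro z hz hz'
            rw [mem_union] at hz'
            rcases hz' with h | h
            · exact Finset.disjoint_left.1 c.d12 hz h
            · rcases tailK hP20 z h with h | h
              · exact Finset.disjoint_left.1 c.d12 hz (h ▸ c.ht)
              · exact k1 z hz h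
          t0 := c.t0, t1 := c.t1, t2 := t2'
          le0 := c.le0.trans (del_le _ _), le1 := c.le1.trans (del_le _ _)
          le2 := sup_le (c.le2.trans (del_le _ _)) (gr_le hP20G.subset)
          p0 := c.p0, q0 := c.q0, p1 := c.p1, q1 := c.q1
          hp0 := c.hp0, hq0 := c.hq0, hp1 := c.hp1
          hq1 := fun b => mem_union_left _ (c.hq1 b)
          adj0 := fun b => (c.adj0 b).1, adj1 := fun b => (c.adj1 b).1
          ne0 := c.ne0, ne1 := c.ne1, hs := c.hs
          ht := mem_union_right _ (hP20G.right_mem htt') }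
      have hpth : ∀ e e', c'.pth e e' = c.pth e e' ∪ P20 := by
        intro e e'
        have htp : tp (c.T2 ⊔ gr P20) (c.q1 e') t = tp c.T2 (c.q1 e') t' ∪ P20 := by
          refine t2'.tp_eq (G := G) (((c.t2.tp_isPth (c.hq1 e') c.ht).mono
            (c.le2.trans (del_le _ _))).append hP20G fun z hz => ?_) ?_
          · rw [mem_inter] at hz
            rw [mem_singleton]
            rcases tailK hP20 z hz.2 with h | h
            · exact h
            · exact absurd h (k2 z (c.t2.vs_tp (c.hq1 e') c.ht hz.1))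
          · rw [gr_union]
            exact sup_le ((gr_le (c.t2.tp_isPth (c.hq1 e') c.ht).subset).trans le_sup_left)
              le_sup_right
        change tp c.T0 s (c.p0 e) ∪ insert s(c.p0 e, c.q0 e) (tp c.T1 (c.q0 e) (c.p1 e') ∪
          insert s(c.p1 e', c.q1 e') (tp (c.T2 ⊔ gr P20) (c.q1 e') t)) = _
        rw [htp, Chn2.pth, Chn2.out]
        simp only [union_assoc, insert_union]
      have := hKφ c' h1 h2
      simp only [hpth] at this
      exact this
    obtain ⟨w3, hw3⟩ := ih _ hcardJ (del G K) s t' X TX ψ hTX hleJ hs ht'X rfl hKψ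
    refine ⟨fun e => if e ∈ (del G K).edgeSet then w3 e else 0, fun x P hP => ?_⟩
    have notJ : ∀ {a b : α}, (a ∈ K ∨ b ∈ K) → s(a, b) ∉ (del G K).edgeSet := by
      intro a b h h'
      have h2 : (del G K).Adj a b := h'
      rcases h with h | h
      · exact h2.2.1 h
      · exact h2.2.2 h
    have hxt' : x ≠ t' := fun e => ht'X (e ▸ hP.mem)
    by_cases ht'P : t' ∈ vs P
    swap
    · rw [hN1 x P hP ht'P]
      symm
      refine sum_eq_zero fun e he => ?_
      -- every vertex other than `x` lies in `K`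
      have hz : ∀ z ∈ vs P, z ≠ x → z ∈ K := by
        intro z hz hzx
        obtain ⟨Q1, Q2, h1, h2, h3, _, h5⟩ := hP.pth.split (Or.inr hz)
        have hav : ∀ y ∈ insert z (vs Q2), y ∉ insert t' X := by
          intro y hy hy'
          have hyP : y ∈ vs P := by
            rw [mem_insert] at hy
            rcases hy with rfl | hy
            · exact hz
            · exact vs_mono (h3 ▸ subset_union_right) hy
          rw [mem_insert] at hy'
          rcases hy' with rfl | hy'
          · exact ht'P hyP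
          · have hyx := hP.only y hyP hy'
            subst hyx
            rw [mem_insert] at hy
            rcases hy with hy | hy
            · exact hzx hy.symm
            · have := h5 (mem_inter.2 ⟨h1.left_mem (Ne.symm hzx), hy⟩)
              exact hzx (mem_singleton.1 this).symm
        exact (memK z).2 ⟨hav z (mem_insert_self _ _), h2.reachable_del hav⟩
      induction e using Sym2.ind with
      | _ a b =>
        have hab := (hP.pth.adj_of_mem he).ne
        rw [if_neg]
        apply notJ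
        by_cases hax : a = x
        · exact Or.inr (hz b (right_mem_vs he) fun h => hab (hax.trans h.symm))
        · exact Or.inl (hz a (left_mem_vs he) hax)
    obtain ⟨P1, P2, hP1, hP2, h12, hdis, h12'⟩ := hP.pth.split (Or.inr ht'P)
    have hP2X := htail hP hP1 hP2 h12 h12'
    have h12z : ∀ z ∈ vs P1, z ∈ vs P2 → z = t' := fun z hz hz' =>
      mem_singleton.1 (h12' (mem_inter.2 ⟨hz, hz'⟩))
    have hex1 : ∀ z ∈ vs P1, z ∈ X → z = x := fun z hz =>
      hP.only z (vs_mono (h12 ▸ subset_union_left) hz)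
    -- the sum over `P2` vanishes
    have hsumP2 : ∑ e ∈ P2, (if e ∈ (del G K).edgeSet then w3 e else 0) = 0 := by
      refine sum_eq_zero fun e he => ?_
      induction e using Sym2.ind with
      | _ a b =>
        have hab := (hP2.adj_of_mem he).ne
        rw [if_neg]
        apply notJ
        rcases tailK hP2X a (left_mem_vs he) with h | h
        · rcases tailK hP2X b (right_mem_vs he) with h' | h'
          · exact absurd (h.trans h'.symm) hab
          · exact Or.inr h'
        · exact Or.inl h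
    rw [← h12, sum_union hdis, hsumP2, add_zero]
    by_cases he0 : s(x0, t') ∈ P1
    · have hx0x : x0 = x := hex1 x0 (left_mem_vs he0) hx0
      subst hx0x
      have hP1e := hP1.eq_singleton he0
      have hPE : Ex G X x0 t (P1 ∪ P2) := by rw [h12]; exact hP
      rw [hN2 _ hPE (mem_union_left _ he0), hP1e, sum_singleton]
      have hJ : s(x0, t') ∈ (del G K).edgeSet :=
        (show (del G K).Adj x0 t' from ⟨hadj, hXK x0 hx0, ht'K⟩)
      rw [if_pos hJ]
      have h5 := hw3 x0 {s(x0, t')} ⟨hx0, IsPth.edge hJ, fun z hz hz' => by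
        rw [vs_singleton, mem_insert, mem_singleton] at hz
        rcases hz with rfl | rfl
        · rfl
        · exact absurd hz' ht'X⟩
      rw [sum_singleton] at h5
      rw [← h5]
      simp only [hψ]
      rw [union_assoc]
      symm
      refine hN2 _ ⟨hx0, (IsPth.edge hadj).append hP20G ?_, ?_⟩
        (mem_union_left _ (mem_singleton_self _))
      · intro z hz
        rw [vs_singleton, mem_inter, mem_insert, mem_singleton] at hz
        rw [mem_singleton]
        rcases hz.1 with h | h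
        · exact absurd (h ▸ hx0) (Finset.disjoint_left.1 hP20X hz.2)
        · exact h
      · intro z hz hz'
        rw [mem_vs_union, vs_singleton, mem_insert, mem_singleton] at hz
        rcases hz with (h | h) | h
        · exact h
        · exact absurd (h ▸ hz') ht'X
        · exact absurd hz' (Finset.disjoint_left.1 hP20X h)
    by_cases hU : ∃ u ∈ vs P1, u ∈ K
    · obtain ⟨u, hu, huK⟩ := hU
      have huX' := ((memK u).1 huK).1
      rw [mem_insert, not_or] at huX'
      have hux : u ≠ x := fun e => huX'.2 (e ▸ hP.mem)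
      rw [wheat hKφ hTX hle hs ht ht'X htt' hx0 hadj hN1 hN2 hP1 hP2 h12' hP.mem hex1
        (fun z hz hz' => Finset.disjoint_left.1 (DL.isPth_del.1 hP2X).2 hz hz') he0 hu
        ((memK u).1 huK).2]
      symm
      refine sum_eq_zero fun e he => ?_
      -- all inner vertices of `P1` lie in `K`
      have hz : ∀ z ∈ vs P1, z ≠ x → z ≠ t' → z ∈ K := by
        intro z hz hzx hzt
        have hzX : z ∉ X := fun h => hzx (hex1 z hz h)
        rw [memK, mem_insert, not_or]
        refine ⟨⟨hzt, hzX⟩, ?_⟩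
        refine Reachable.trans ?_ ((memK u).1 huK).2
        obtain ⟨Q1, Q2, g1, g2, g3, _, g5⟩ := hP1.split (Or.inr hz)
        have g5' : ∀ y ∈ vs Q1, y ∈ vs Q2 → y = z := fun y hy hy' =>
          mem_singleton.1 (g5 (mem_inter.2 ⟨hy, hy'⟩))
        have hu' : u ∈ vs Q1 ∨ u ∈ vs Q2 := by
          rw [← mem_vs_union, g3]; exact hu
        have hQ1 : Q1 ⊆ P1 := g3 ▸ subset_union_left
        have hQ2 : Q2 ⊆ P1 := g3 ▸ subset_union_right
        have hxQ1 : x ∈ vs Q1 := g1.left_mem (Ne.symm hzx)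
        have ht'Q2 : t' ∈ vs Q2 := g2.right_mem hzt
        rcases hu' with hu' | hu'
        · -- `u` before `z`
          obtain ⟨R1, R2, r1, r2, r3, _, r5⟩ := g1.split (Or.inr hu')
          have hR2 : R2 ⊆ Q1 := r3 ▸ subset_union_right
          have r5' : ∀ y ∈ vs R1, y ∈ vs R2 → y = u := fun y hy hy' =>
            mem_singleton.1 (r5 (mem_inter.2 ⟨hy, hy'⟩))
          refine (r2.reachable_del fun y hy hy' => ?_).symm
          rw [mem_insert] at hy hy'
          rcases hy with rfl | hy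
          · rcases hy' with h | h
            · exact huX'.1 h
            · exact huX'.2 h
          · rcases hy' with h | h
            · subst h
              exact hzt (g5' y (vs_mono hR2 hy) ht'Q2).symm
            · have hyx := hex1 y (vs_mono (hR2.trans hQ1) hy) h
              subst hyx
              exact hux (r5' y (r1.left_mem (Ne.symm hux)) hy).symm
        · -- `u` after `z`
          obtain ⟨R1, R2, r1, r2, r3, _, r5⟩ := g2.split (Or.inr hu')
          have hR1 : R1 ⊆ Q2 := r3 ▸ subset_union_left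
          have r5' : ∀ y ∈ vs R1, y ∈ vs R2 → y = u := fun y hy hy' =>
            mem_singleton.1 (r5 (mem_inter.2 ⟨hy, hy'⟩))
          refine r1.reachable_del fun y hy hy' => ?_
          rw [mem_insert] at hy hy'
          rcases hy with rfl | hy
          · rcases hy' with h | h
            · exact hzt h
            · exact hzX h
          · rcases hy' with h | h
            · subst h
              exact huX'.1 (r5' y hy (r2.right_mem huX'.1)).symm
            · have hyx := hex1 y (vs_mono (hR1.trans hQ2) hy) h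
              subst hyx
              exact hzx (g5' y hxQ1 (vs_mono hR1 hy)).symm
      induction e using Sym2.ind with
      | _ a b =>
        have hab := (hP1.adj_of_mem he).ne
        rw [if_neg]
        apply notJ
        by_contra hc
        rw [not_or] at hc
        have ha : a = x ∨ a = t' := by
          by_contra h
          rw [not_or] at h
          exact hc.1 (hz a (left_mem_vs he) h.1 h.2)
        have hb : b = x ∨ b = t' := by
          by_contra h
          rw [not_or] at h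
          exact hc.2 (hz b (right_mem_vs he) h.1 h.2)
        have he' : s(x, t') ∈ P1 := by
          rcases ha with rfl | rfl <;> rcases hb with rfl | rfl
          · exact absurd rfl hab
          · exact he
          · rwa [Sym2.eq_swap] at he
          · exact absurd rfl hab
        have h6 := hP1.eq_singleton he'
        rw [h6, vs_singleton, mem_insert, mem_singleton] at hu
        rcases hu with h | h
        · exact hux h
        · exact huX'.1 h
    · push Not at hU
      have hJ1 : ∀ e ∈ P1, e ∈ (del G K).edgeSet := by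
        intro e he
        induction e using Sym2.ind with
        | _ a b =>
          exact (show (del G K).Adj a b from
            ⟨hP1.adj_of_mem he, hU a (left_mem_vs he), hU b (right_mem_vs he)⟩)
      have h5 := hw3 x P1 ⟨hP.mem, hP1.transfer hJ1, hex1⟩
      have h6 : ∑ e ∈ P1, (if e ∈ (del G K).edgeSet then w3 e else 0) = ∑ e ∈ P1, w3 e :=
        sum_congr rfl fun e he => if_pos (hJ1 e he)
      rw [h6, ← h5]
      simp only [hψ]
      rw [union_assoc]
      -- bead moves
      have hb := bead_moves hP2X hP20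
      have key : ∀ Q Q', Relation.ReflTransGen (Bead (del G X) t' t (P2 ∪ P20)) Q Q' →
          φ' (tp TX s x ∪ (P1 ∪ Q)) = φ' (tp TX s x ∪ (P1 ∪ Q')) := by
        intro Q Q' hQ
        induction hQ with
        | refl => rfl
        | tail _ hstep ih' =>
          refine ih'.trans (W_eq_of_add ?_)
          refine bead_step hKφ hTX hle hs ht'X hx0 hadj hN2 hP1 hP.mem hex1 he0 hstep ?_ ?_
          · intro z hz hz'
            rcases tailK hstep.pthL z hz' with h | h
            · exact h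
            · exact absurd h (hU z hz)
          · intro z hz hz'
            rcases tailK hstep.pthR z hz' with h | h
            · exact h
            · exact absurd h (hU z hz)
      exact key _ _ hb

end RT1M

/-- **THE AFFINE LEMMA RT_1**: a function on the `s`-`t` paths with sum zero over the four paths of
every 2-bead chain is affine (linear, as `s ≠ t`) -/
theorem rt1 {W : Type*} [AddCommGroup W] [Module (ZMod 2) W] {s t : α} (hst : s ≠ t)
    (φ : Finset (Sym2 α) → W) (h : ∀ c : Chn2 G s t, ∑ e, ∑ e', φ (c.pth e e') = 0) :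
    ∃ w : Sym2 α → W, ∀ P, IsPth G s t P → φ P = ∑ e ∈ P, w e := by
  obtain ⟨w, hw⟩ := RT1M.aux _ G s t {s} ⊥ φ (RTree.single s) bot_le (mem_singleton_self _)
    (by simpa using hst.symm) rfl fun c _ _ => h c
  refine ⟨w, fun P hP => ?_⟩
  have := hw s P ⟨mem_singleton_self _, hP, fun z _ hz => mem_singleton.1 hz⟩
  rwa [tp_self isAcyclic_bot, empty_union] at this

/-- the converse -/
theorem rt1_conv {W : Type*} [AddCommGroup W] [Module (ZMod 2) W] {s t : α}
    (φ : Finset (Sym2 α) → W) (w : Sym2 α → W) (h : ∀ P, IsPth G s t P → φ P = ∑ e ∈ P, w e)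
    (c : Chn2 G s t) : ∑ e, ∑ e', φ (c.pth e e') = 0 := by
  rw [← c.sum_linear w]
  exact sum_congr rfl fun e _ => sum_congr rfl fun e' _ => h _ (c.isPth e e')

end DL
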