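import Pool.Agent.DL.EX.COB
import Pool.Agent.DL.EX.VRS
import Pool.Agent.DL.EX.D4C
import Pool.Agent.DL.EX.D4G
import Pool.Agent.DL.EX.PMB
import Pool.Agent.DL.EX.FEV
import Pool.Agent.DL.EX.INJ
import Pool.Agent.DL.EX.SEF
import Pool.Agent.DL.EX.LEX
import Pool.Agent.DL.EX.MEA
import Pool.Agent.DL.EX.MUE
import Pool.Agent.DL.EX.NOR
import Pool.Agent.DL.EX.PRL
import Pool.Agent.DL.EX.TRE
import Pool.Agent.DL.EX.VRW
import Pool.Agent.DL.EX.THO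
import Pool.Agent.DL.K.KY3
import Pool.Agent.DL.NP.TRC
import Pool.Agent.DL.NP.PAI
import Pool.Agent.DL.NP.N44
import Pool.Agent.DL.NP.NTW
import Pool.Agent.DL.NP.VKA
import Pool.Agent.DL.E.TWR
import Pool.Agent.DL.E.EDL
import Pool.Agent.DL.E.E3D
import Pool.Agent.DL.E.E3S
import Pool.Agent.DL.E.E3T
import Pool.Agent.DL.E.E4C
import Pool.Agent.DL.E.E4N
import Pool.Agent.DL.E.E4S
import Pool.Agent.DL.E.E5A
import Pool.Agent.DL.E.E5B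
import Pool.Agent.DL.E.E5D
import Pool.Agent.DL.E.E5X
import Pool.Agent.DL.E.E5O
import Pool.Agent.DL.E.E5M
import Pool.Agent.DL.E.E5N
import Pool.Agent.DL.E.E5Q
import Pool.Agent.DL.E.E5T
import Pool.Agent.DL.E.E5U
import Pool.Agent.DL.E.E5Y
import Pool.Agent.DL.E.E5Z
import Pool.Agent.DL.E.NCX
import Pool.Agent.DL.E.GLU
import Pool.Agent.DL.E.K34
import Pool.Agent.DL.E.LMA
import Pool.Agent.DL.E.LMC
import Pool.Agent.DL.E.M9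
import Pool.Agent.DL.E.XZ3
import Pool.Agent.DL.E.R3Y
import Pool.Agent.DL.E.R3E
import Pool.Agent.DL.E.XF7
import Pool.Agent.DL.E.S1P
import Pool.Agent.DL.E.X33R
import Pool.Agent.DL.E.XMB
import Pool.Agent.DL.E.XDD
import Pool.Agent.DL.E.XQ1
import Pool.Agent.DL.E.XDR
import Pool.Agent.DL.E.XLF
import Pool.Agent.DL.E.XF1
import Pool.Agent.DL.E.XTN
import Pool.Agent.DL.E.XF4
import Pool.Agent.DL.E.XQ2
import Pool.Agent.DL.E.XL2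
import Pool.Agent.DL.E.XL4
import Pool.Agent.DL.E.XRA
import Pool.Agent.DL.E.XRD
import Pool.Agent.DL.E.XZ4
import Pool.Agent.DL.G4.A6C
import Pool.Agent.DL.G4.C20
import Pool.Agent.DL.G4.N3A
import Pool.Agent.DL.G4.SX6
import Pool.Agent.DL.G4.MC0
import Pool.Agent.DL.G4.I33
import Pool.Agent.DL.G4.MP2
import Pool.Agent.DL.G4.N3B
import Pool.Agent.DL.G4.TFL
import Pool.Agent.DL.G4.N6B
import Pool.Agent.DL.G4.R5B
import Pool.Agent.DL.R1A.CL4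
import Pool.Agent.DL.R1A.CR2
import Pool.Agent.DL.R1A.CL8
import Pool.Agent.DL.R1A.CLA
import Pool.Agent.DL.R1A.M33
import Pool.Agent.DL.R1A.RCL
import Pool.Agent.DL.R1A.TPD
import Pool.Agent.DL.R1A.RP2
import Pool.Agent.DL.Y.YRJ
import Pool.Agent.DL.Y.VF3
import Pool.Agent.DL.Y.VMC
import Pool.Agent.DL.Y.VKR
import Pool.Agent.DL.Y.VTT
import Pool.Agent.DL.Y.VTR
import Pool.Agent.DL.Y.YKT
import Pool.Agent.DL.Y.YF1
import Pool.Agent.DL.Y.YKF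
import Pool.Agent.DL.Y.YKZ
import Pool.Agent.DL.Y.YU0
import Pool.Agent.DL.Y.YRB
import Pool.Agent.DL.Y.YRH
import Pool.Agent.DL.Y.YTU
import Pool.Agent.DL.Y.YZS
import Pool.Agent.DL.BASE.TopB
import Pool.Agent.DL.E.TopR
import Pool.Agent.DL.E.RNE

section
/-!
MP_3ff0f8_gt, ALGEBRA HALF: assembly of the blocks EX, K, NP (generated): every Spec without hypotheses.
-/
namespace DL
namespace All

theorem sKUR : SpecKUR :=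
  DL.specKUR
theorem sSTA : SpecSTA :=
  DL.specSTA
theorem sSM3 : SpecSM3 :=
  DL.specSM3 sSTA
theorem sSM4 : SpecSM4 :=
  DL.specSM4 sSTA
theorem sH1L : SpecH1L :=
  DL.H1LM.specH1L
theorem sH4A : SpecH4A :=
  DL.specH4A
theorem sH4B : SpecH4B :=
  DL.specH4B
theorem sHST : SpecHST :=
  DL.HSTM.specHST sH1L sH4A sH4B
theorem sTHL : SpecTHL :=
  DL.THLM.specTHL
theorem sHTH : SpecHTH :=
  DL.specHTH sH1L sHST sTHL
theorem sLEX : SpecLEX :=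
  DL.specLEX sHTH
theorem sLPE : SpecLPE :=
  DL.specLPE sLEX
theorem sKDD : SpecKDD :=
  DL.specKDD sKUR sLPE
theorem sS3F : SpecS3F :=
  DL.specS3F
theorem sKST : SpecKST :=
  DL.specKST sKUR sSM3 sS3F sLPE
theorem sKS4 : SpecKS4 :=
  DL.specKS4 sKUR sSM4 sS3F sLPE
theorem sPOL : SpecPOL :=
  DL.specPOL
theorem sVRW : SpecVRW :=
  DL.specVRW
theorem sCTA : SpecCTA :=
  DL.specCTA
theorem sCTB : SpecCTB :=
  DL.specCTB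
theorem sCTZ : SpecCTZ :=
  DL.specCTZ sCTA
theorem sSEF : SpecSEF :=
  DL.specSEF
theorem sL2M : SpecL2M :=
  DL.specL2M sPOL sCTA sCTB sCTZ sSEF
theorem sK2M : SpecK2M :=
  DL.specK2M sL2M sLPE sCTZ sSEF sS3F
theorem sK2G : SpecK2G :=
  DL.specK2G sPOL sVRW sL2M sK2M
theorem sKSU : SpecKSU :=
  DL.specKSU sK2G
theorem sKCD : SpecKCD :=
  DL.specKCD sKUR sK2G sLPE sCTA sCTZ sSEF
theorem sMAT : SpecMAT :=
  DL.MATM.specMAT sLPE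
theorem sKC0 : SpecKC0 :=
  DL.KC0M.specKC0 sKUR sK2G sMAT sCTZ
theorem sC1L : SpecC1L :=
  DL.specC1L
theorem sVKA : SpecVKA :=
  DL.specVKA
theorem sNPC : SpecNPC :=
  DL.specNPC sVKA sKUR sCTZ sSEF
theorem sNPM : SpecNPM :=
  DL.specNPM sNPC
theorem sNBF : SpecNBF :=
  DL.specNBF
theorem sTRC : SpecTRC :=
  DL.specTRC
theorem sNCR : SpecNCR :=
  DL.specNCR
theorem sNCS : SpecNCS :=
  DL.specNCS sVKA sLPE sKUR sS3F
theorem sNC1 : SpecNC1 :=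
  DL.specNC1 sNCR sNBF
theorem sNC2 : SpecNC2 :=
  DL.specNC2 sNCR sNBF
theorem sNCG : SpecNCG :=
  DL.specNCG sNCS sNC1 sNC2
theorem sNCN : SpecNCN :=
  DL.specNCN sVKA sNPC sKUR sLPE sS3F
theorem sGAL : SpecGAL :=
  DL.specGAL sVKA sKUR sLEX sTRC sNBF sNCN
theorem sF1N : SpecF1N :=
  DL.specF1N sVKA sKUR sNPC sNBF sTRC
theorem sF2N : SpecF2N :=
  DL.specF2N sVKA sKUR sNPC sNBF sSTA
theorem sF4N : SpecF4N :=
  DL.specF4N sVKA sNPC sKUR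
theorem sG1N : SpecG1N :=
  DL.specG1N sVKA sKUR sNPC sNBF sTRC
theorem sG2N : SpecG2N :=
  DL.specG2N sVKA sKUR sNPC sNBF sTRC
theorem sPAI : SpecPAI :=
  DL.specPAI
theorem sN44 : SpecN44 :=
  DL.specN44 sVKA sNPC sNBF sTRC sPAI
theorem sNTW : SpecNTW :=
  DL.specNTW sVKA sNPC sNBF sTRC sPAI sKUR
theorem sNI1 : SpecNI1 :=
  DL.specNI1 sVKA sNPC sNBF sKUR
theorem sDVS : SpecDVS :=
  DL.specDVS sPOL
theorem sTRA : SpecTRA :=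
  DL.specTRA sPOL
theorem sTRX : SpecTRX :=
  DL.specTRX sPOL
theorem sLTR : SpecLTR :=
  DL.specLTR
theorem sDIR : SpecDIR :=
  DL.specDIR sTRA sLTR
theorem sTHO : SpecTHO :=
  DL.specTHO
theorem sTRE : SpecTRE :=
  DL.specTRE
theorem sDCB : SpecDCB :=
  DL.specDCB sTRE
theorem sCTD : SpecCTD :=
  DL.specCTD sCTA sTRE sDCB
theorem sCTF : SpecCTF :=
  DL.specCTF sPOL sCTB sSEF sVRW
theorem sTWO : SpecTWO :=
  DL.specTWO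
theorem sPRL : SpecPRL :=
  DL.specPRL sPOL
theorem sPMA : SpecPMA :=
  DL.specPMA sPOL sTRA sDIR sS3F sCTA sSEF
theorem sPMB : SpecPMB :=
  DL.specPMB sPOL sTRA sTRX sPMA sPRL sTWO sSEF
theorem sST2 : SpecST2 :=
  DL.specST2 sTRA sTWO
theorem sST3 : SpecST3 :=
  DL.specST3 sTRA sTRX sTWO
theorem sK4B : SpecK4B :=
  DL.specK4B
theorem sI3K : SpecI3K :=
  DL.specI3K sTHO sPMB sST2 sST3 sK4B
theorem sSUP : SpecSUP :=
  DL.specSUP sPOL sTRA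
theorem sI3S : SpecI3S :=
  DL.specI3S sSUP sI3K
theorem sNOR : SpecNOR :=
  DL.specNOR sPOL
theorem sMUE : SpecMUE :=
  DL.specMUE
theorem sCOB : SpecCOB :=
  DL.specCOB
theorem sVRS : SpecVRS :=
  DL.specVRS sVRW sPOL
theorem sEXD : SpecEXD :=
  DL.specEXD sPOL sDVS sI3S sNOR sCOB sVRS
theorem sEXM : SpecEXM :=
  DL.specEXM sPOL sTRA sVRW sNOR sCOB sVRS sK2M sPMB sI3K
theorem sINJ : SpecINJ :=
  DL.specINJ sPOL sTRA sI3K sDIR sS3F sLPE sVRW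
theorem sRTI : SpecRTI :=
  DL.specRTI
theorem sRT1 : SpecRT1 :=
  DL.specRT1
theorem sD4G : SpecD4G :=
  DL.specD4G sTRE
theorem sD4C : SpecD4C :=
  DL.specD4C sD4G sTRE
theorem sMEA : SpecMEA :=
  DL.specMEA sCTA sCTD sCTF sSEF
theorem sMEB : SpecMEB :=
  DL.specMEB sPOL sCTA sCTB sCTF sSEF sEXD sMEA
theorem sFEV : SpecFEV :=
  DL.specFEV sPOL sTRE sDCB
theorem sME : SpecME :=
  DL.specME sMEB sD4C sDCB sRT1 sFEV sPOL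

end All
end DL
end

section
/-!
MP_3ff0f8_gt, ALGEBRA HALF: assembly of the blocks E, G4, R1A, Y (generated): every Spec without hypotheses.
-/
namespace DL
namespace All

theorem sFRG : SpecFRG :=
  DL.specFRG
theorem sCLS : SpecCLS :=
  DL.specCLS sFRG
theorem sA6C : SpecA6C :=
  DL.specA6C sFRG sCLS
theorem sA6N : SpecA6N :=
  DL.specA6N sFRG sNPM
theorem sBDF : SpecBDF :=
  DL.specBDF sTRE sDCB
theorem sTPD : SpecTPD :=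
  DL.specTPD sBDF sTRE
theorem sCWC : SpecCWC :=
  DL.specCWC sNBF
theorem sBS0 : SpecBS0 :=
  DL.specBS0 sTRE sTPD sCWC
theorem sBS1 : SpecBS1 :=
  DL.specBS1 sTPD sCWC sNBF
theorem sM33 : SpecM33 :=
  DL.specM33
theorem sBS2 : SpecBS2 :=
  DL.specBS2 sTRE sTPD sM33 sNBF
theorem sCCL : SpecCCL :=
  DL.specCCL
theorem sC20 : SpecC20 :=
  DL.specC20 sNBF sCCL
theorem sCBS : SpecCBS :=
  DL.specCBS
theorem sCCC : SpecCCC :=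
  DL.specCCC sCWC
theorem sCJ1 : SpecCJ1 :=
  DL.specCJ1 sNPC
theorem sCL8 : SpecCL8 :=
  DL.specCL8 sVKA sNPC sKUR
theorem sCL1 : SpecCL1 :=
  DL.specCL1 sCL8 sM33 sNBF sCWC
theorem sCL2 : SpecCL2 :=
  DL.specCL2 sCWC sCCC sCBS sNBF
theorem sCL3 : SpecCL3 :=
  DL.specCL3 sCWC sCCC sCBS sNBF
theorem sCL4 : SpecCL4 :=
  DL.specCL4 sCCC sCBS sNBF
theorem sCL5 : SpecCL5 :=
  DL.specCL5 sCWC sCCC sCBS sNBF
theorem sCL6 : SpecCL6 :=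
  DL.specCL6 sM33 sNBF
theorem sCLA : SpecCLA :=
  DL.specCLA sCL1 sCL2 sCL3 sCL4 sCL5 sCL6 sCCC
theorem sRCX : SpecRCX :=
  DL.specRCX sKUR
theorem sCR1 : SpecCR1 :=
  DL.specCR1 sTPD sRCX sTRE
theorem sCR2 : SpecCR2 :=
  DL.specCR2 sTPD sRCX sTRE
theorem sDST : SpecDST :=
  DL.specDST
theorem sCRL : SpecCRL :=
  DL.specCRL sDST sS3F
theorem sCRX : SpecCRX :=
  DL.specCRX
theorem sD4X : SpecD4X :=
  DL.specD4X sTRE sBDF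
theorem sGLU : SpecGLU :=
  DL.specGLU sPOL sFEV sEXD
theorem sLMA : SpecLMA :=
  DL.specLMA sEXD sLPE sKUR sVRS sNOR sI3S sDVS sPOL
theorem sLMC : SpecLMC :=
  DL.specLMC sI3K sDIR sS3F sTRA sPOL
theorem sLMB : SpecLMB :=
  DL.specLMB sLMA sLMC
theorem sDL3 : SpecDL3 :=
  DL.specDL3 sGLU sLMB sDST
theorem sDL5 : SpecDL5 :=
  DL.specDL5 sDL3 sKST sCRL sDST sS3F
theorem sDFV : SpecDFV :=
  DL.specDFV sDL5 sCRL sDST sNPC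
theorem sRDR : SpecRDR :=
  DL.specRDR sBDF sTRE
theorem sRPQ : SpecRPQ :=
  DL.specRPQ sPOL sBDF
theorem sHBF : SpecHBF :=
  DL.specHBF sRDR sRPQ sBDF
theorem sDGC : SpecDGC :=
  DL.specDGC sHBF sRT1 sLPE sPOL
theorem sDGM : SpecDGM :=
  DL.specDGM sTRC sCWC
theorem sE3C : SpecE3C :=
  DL.specE3C sCRX sNBF
theorem sE3S : SpecE3S :=
  DL.specE3S sE3C
theorem sE3T : SpecE3T :=
  DL.specE3T sE3C
theorem sFRM : SpecFRM :=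
  DL.specFRM sVKA
theorem sNCX : SpecNCX :=
  DL.specNCX sVKA sKUR sLPE sS3F sFRM
theorem sE3D : SpecE3D :=
  DL.specE3D sVKA sNBF sNCX sNCN
theorem sGK3 : SpecGK3 :=
  DL.specGK3 sVKA sNPM sKUR sLPE sS3F
theorem sE3G : SpecE3G :=
  DL.specE3G sGK3 sNBF
theorem sE3F : SpecE3F :=
  DL.specE3F sE3G sE3D sNCX sNCN sSTA sNBF
theorem sE34 : SpecE34 :=
  DL.specE34 sDFV sE3C sE3S sE3T sE3D sE3G sE3F sNCX sNCN sNPC
theorem sE4C : SpecE4C :=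
  DL.specE4C sCRX sNBF
theorem sE4N : SpecE4N :=
  DL.specE4N sNBF
theorem sE4S : SpecE4S :=
  DL.specE4S sNBF
theorem sEDB : SpecEDB :=
  DL.specEDB sNCX sNCN
theorem sEDL : SpecEDL :=
  DL.specEDL sNBF
theorem sEDG : SpecEDG :=
  DL.specEDG sGK3 sPAI sEDB sNBF
theorem sE5A : SpecE5A :=
  DL.specE5A sCRX sNPM sNBF
theorem sE5D : SpecE5D :=
  DL.specE5D sE5A
theorem sTWR : SpecTWR :=
  DL.specTWR sE5A sE5D sGLU sDL3 sLMB sCRL sDST sKDD sKSU sS3F sDCB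
theorem sE5J : SpecE5J :=
  DL.specE5J sNBF
theorem sK34 : SpecK34 :=
  DL.specK34 sKUR sKSU
theorem sE5K : SpecE5K :=
  DL.specE5K sTWR sE5D sE5J sK34 sNPM sDST
theorem sE44 : SpecE44 :=
  DL.specE44 sDFV sE4C sE4N sE4S sEDB sEDL sEDG sNCN sNPC sDST sE5K
theorem sE5B : SpecE5B :=
  DL.specE5B sNPM
theorem sE5N : SpecE5N :=
  DL.specE5N sVKA sKUR sSTA
theorem sE5G : SpecE5G :=
  DL.specE5G sTWR sE5D sE5J sE5N sNPC
theorem sE5M : SpecE5M :=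
  DL.specE5M sVKA sNCN sKUR sSTA sLPE
theorem sE5O : SpecE5O :=
  DL.specE5O sNPM sNBF
theorem sE5Q : SpecE5Q :=
  DL.specE5Q
theorem sT3S : SpecT3S :=
  DL.specT3S
theorem sISO : SpecISO :=
  DL.specISO
theorem sTRI : SpecTRI :=
  DL.specTRI sKUR sKSU sLPE sCTZ sISO
theorem sE5T : SpecE5T :=
  DL.specE5T sE5A sE5D sT3S sTRI sNPC sNBF sDST
theorem sE5U : SpecE5U :=
  DL.specE5U sE5D sNBF sNPC sDST sTRI
theorem sE5X : SpecE5X :=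
  DL.specE5X sE5D sE5M sE5Q sE5T sE5U
theorem sE5Y : SpecE5Y :=
  DL.specE5Y sTWR sE5D sE5J sE5N sE5O sE5B sE5Q sE5T sNPC
theorem sE5Z : SpecE5Z :=
  DL.specE5Z sTWR sE5J sE5X sE5Y sE5G sE5K sEDG sEDB sEDL sE4N sE4S sNCN sNCX
theorem sF2C : SpecF2C :=
  DL.specF2C sFRG
theorem sG12 : SpecG12 :=
  DL.specG12
theorem sGFN : SpecGFN :=
  DL.specGFN sVKA sLPE sKUR sS3F
theorem sGMC : SpecGMC :=
  DL.specGMC sVKA
theorem sHMS : SpecHMS :=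
  DL.specHMS sNBF
theorem sI33 : SpecI33 :=
  DL.specI33 sPOL sDCB sFEV
theorem sINQ : SpecINQ :=
  DL.specINQ sPOL sTRA sI3K sDIR sS3F
theorem sJS3 : SpecJS3 :=
  DL.specJS3 sNBF
theorem sK33 : SpecK33 :=
  DL.specK33
theorem sLIN : SpecLIN :=
  DL.specLIN
theorem sKIN : SpecKIN :=
  DL.specKIN sBDF
theorem sKJM : SpecKJM :=
  DL.specKJM sKIN
theorem sKIL : SpecKIL :=
  DL.specKIL sLIN sBS0 sBS1 sBS2 sCR1 sCR2 sKJM sBDF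
theorem sKRA : SpecKRA :=
  DL.specKRA sDGC sINQ sRPQ sRT1 sKIN sBDF sPOL
theorem sKRN : SpecKRN :=
  DL.specKRN sDGC sINQ sRPQ sRT1 sS3F sBDF sPOL
theorem sKY3 : SpecKY3 :=
  DL.specKY3 sKUR sK2G sLPE
theorem sKY4 : SpecKY4 :=
  DL.specKY4 sKUR sK2G sLPE
theorem sLCF : SpecLCF :=
  DL.specLCF sTRC sCWC
theorem sRCL : SpecRCL :=
  DL.specRCL sCWC
theorem sLDG : SpecLDG :=
  DL.specLDG sKRN sKRA sJS3 sCJ1 sKIN sKJM sRCL sCWC sDGM sLCF sCLA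
theorem sYC3 : SpecYC3 :=
  DL.specYC3 sTRE
theorem sVF1 : SpecVF1 :=
  DL.specVF1 sRT1 sYC3
theorem sVCS : SpecVCS :=
  DL.specVCS
theorem sVF2 : SpecVF2 :=
  DL.specVF2 sYC3 sVCS sTRE
theorem sVF3 : SpecVF3 :=
  DL.specVF3 sVF2
theorem sVLC : SpecVLC :=
  DL.specVLC
theorem sVFD : SpecVFD :=
  DL.specVFD sVF1 sVF3 sVLC
theorem sVMC : SpecVMC :=
  DL.specVMC sCTA sCTF sTRE
theorem sVKR : SpecVKR :=
  DL.specVKR sPOL
theorem sVKQ : SpecVKQ :=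
  DL.specVKQ sVMC sVKR sVCS
theorem sVK2 : SpecVK2 :=
  DL.specVK2 sVKQ sVLC
theorem sVRE : SpecVRE :=
  DL.specVRE sVCS
theorem sVCV : SpecVCV :=
  DL.specVCV sVFD sVK2 sVRE sVLC sVCS
theorem sVRG : SpecVRG :=
  DL.specVRG sVCS
theorem sVHP : SpecVHP :=
  DL.specVHP sVCS
theorem sVSQ : SpecVSQ :=
  DL.specVSQ sFEV sDCB sVCS
theorem sV3L : SpecV3L :=
  DL.specV3L sVCS
theorem sVTR : SpecVTR :=
  DL.specVTR sFEV sDCB sVCS sVLC sTRE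
theorem sVTT : SpecVTT :=
  DL.specVTT sV3L sVTR
theorem sVMU : SpecVMU :=
  DL.specVMU
theorem sLIV : SpecLIV :=
  DL.specVLI sVCV sVRG sVHP sVSQ sVTT sVMU sVLC sVCS
theorem sM9 : SpecM9 :=
  DL.specM9
theorem sMAL : SpecMAL :=
  DL.specMAL
theorem sMBE : SpecMBE :=
  DL.specMBE sFRG
theorem sMC0 : SpecMC0 :=
  DL.specMC0 sFRM sVKA sKUR sLPE sHMS sSTA sNBF
theorem sMCT : SpecMCT :=
  DL.specMCT sC20
theorem sMC1 : SpecMC1 :=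
  DL.specMC1 sMC0 sMCT sVKA sKUR
theorem sMP1 : SpecMP1 :=
  DL.specMP1 sVKA sKUR sNPC sTRC sF1N sFRM sC20
theorem sMP2 : SpecMP2 :=
  DL.specMP2 sVKA sKUR sLPE
theorem sMNP : SpecMNP :=
  DL.specMNP sMP1 sMP2 sMAL sMBE sFRG
theorem sMNZ : SpecMNZ :=
  DL.specMNZ sNCG sNCN
theorem sN3A : SpecN3A :=
  DL.specN3A sFRG sCLS
theorem sN3B : SpecN3B :=
  DL.specN3B sFRG sCLS
theorem sN4A : SpecN4A :=
  DL.specN4A sFRG sCLS
theorem sN4B : SpecN4B :=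
  DL.specN4B sFRG
theorem sN62 : SpecN62 :=
  DL.specN62 sFRG sNPM sCLS
theorem sN6A : SpecN6A :=
  DL.specN6A sFRG sNPM
theorem sSTB : SpecSTB :=
  DL.specSTB
theorem sN6B : SpecN6B :=
  DL.specN6B sNCG sGFN sNCN sSTA sSTB sFRG
theorem sN6C : SpecN6C :=
  DL.specN6C sN4A sN4B sN6A sN6B
theorem sTFA : SpecTFA :=
  DL.specTFA sFRG sGAL
theorem sTFB : SpecTFB :=
  DL.specTFB sFRG sNCN
theorem sTFL : SpecTFL :=
  DL.specTFL sMNZ sTFA sTFB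
theorem sR5A : SpecR5A :=
  DL.specR5A sMNZ sGAL sNCN sNBF
theorem sR5B : SpecR5B :=
  DL.specR5B sGAL sNCN
theorem sN6D : SpecN6D :=
  DL.specN6D sFRG sCLS sN3A sN3B sN4A sN4B sTFL sN62 sN6C sR5A sR5B
theorem sNO2 : SpecNO2 :=
  DL.specNO2 sF2C
theorem sRP1 : SpecRP1 :=
  DL.specRP1 sEXD sRDR sRPQ sDCB
theorem sRP2 : SpecRP2 :=
  DL.specRP2 sPOL sHBF sRT1 sDCB
theorem sR1Z : SpecR1Z :=
  DL.specR1Z sBDF sRP1 sRP2 sD4X sKJM sLDG sKIL sCJ1 sFEV sS3F sPOL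
theorem sR1A : SpecR1A :=
  DL.specR1A sR1Z sCJ1
theorem sR1B : SpecR1B :=
  DL.specR1B sBDF sRP1 sRP2 sD4X sKJM sLDG sKIL sCJ1 sFEV sS3F sPOL
theorem sR3Y : SpecR3Y :=
  DL.specR3Y
theorem sR3C : SpecR3C :=
  DL.specR3C sC1L
theorem sXF1 : SpecXF1 :=
  DL.specXF1 sVKA sNPC sKUR
theorem sXCC : SpecXCC :=
  DL.specXCC sF1N sNPC sFRG
theorem sR3N : SpecR3N :=
  DL.specR3N sXF1 sXCC sNPC sKUR sDST
theorem sR3K : SpecR3K :=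
  DL.specR3K sR3C sR3N sK2G sKUR sNPC sDST
theorem sR3P : SpecR3P :=
  DL.specR3P
theorem sR3D : SpecR3D :=
  DL.specR3D sR3N sCRL sNPC sDST
theorem sXF5 : SpecXF5 :=
  DL.specXF5
theorem sXCB : SpecXCB :=
  DL.specXCB sFRG
theorem sR3E : SpecR3E :=
  DL.specR3E sXF5 sXCB sCRL sDL5 sNPM sNPC sDST
theorem sXA3 : SpecXA3 :=
  DL.specXA3 sCRL sXCB sFRG
theorem sXCE : SpecXCE :=
  DL.specXCE sXCC sXCB sVKA sKUR sNPC sTRC sC20 sFRG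
theorem sXN3 : SpecXN3 :=
  DL.specXN3 sXCC sXCE sF1N sNPC sDST
theorem sX35 : SpecX35 :=
  DL.specX35 sXA3 sXN3 sXCB sXCC sDL5 sDST
theorem sR3B : SpecR3B :=
  DL.specR3B sR3Y sR3K sR3P sR3D sR3E sX35 sDL5 sDST
theorem sXC3 : SpecXC3 :=
  DL.specXC3
theorem sYRA : SpecYRA :=
  DL.specYRA sCRL sDST sXC3 sC20 sNPC sTRC sKUR sVKA
theorem sYRJ : SpecYRJ :=
  DL.specYRJ sCRL sDST sNBF
theorem sRKZ : SpecRKZ :=
  DL.specRKZ sKY4 sYRA sYRJ sDST sCRL sNPC sS3F sC1L sC20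
theorem sS1J : SpecS1J :=
  DL.specS1J sS3F
theorem sS1C : SpecS1C :=
  DL.specS1C sS1J sCRL sDL5 sDST sNBF sC1L sKSU sSTA sLPE sCTZ sKUR sNPC
theorem sS1F : SpecS1F :=
  DL.specS1F sCRL sDL5 sDST sNPC
theorem sS1G : SpecS1G :=
  DL.specS1G sCRL sDL5 sDST sNPC sNBF
theorem sSBD : SpecSBD :=
  DL.specSBD
theorem sS1K : SpecS1K :=
  DL.specS1K sCRL sDL3 sLMB sSBD sKST sDST sGLU sNPC sS3F
theorem sS1P : SpecS1P :=
  DL.specS1P sNPC sISO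
theorem sS1N : SpecS1N :=
  DL.specS1N sNCG sNCN sGMC sCRL sDL5 sDST
theorem sS1M : SpecS1M :=
  DL.specS1M sS1P sS1N sS1G sS1F sS1C sS1K
theorem sS1ME : SpecS1ME :=
  DL.specS1ME sS1P sS1N sS1G sS1F sS1C sS1K
theorem sS1MR : SpecS1MR :=
  DL.specS1MR sS1P sS1N sS1G sS1F sS1C sS1K
theorem sSX6 : SpecSX6 :=
  DL.specSX6 sNO2 sN6D sK33 sI33 sG12 sFRG sA6C sA6N sDL5 sDST
theorem sVLI : SpecVLI :=
  DL.specVLI sVCV sVRG sVHP sVSQ sVTT sVMU sVLC sVCS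
theorem sVRV : SpecVRV :=
  DL.specVRV
theorem sXMA : SpecXMA :=
  DL.specXMA sFRG
theorem sXMB : SpecXMB :=
  DL.specXMB sFRG
theorem sXMC : SpecXMC :=
  DL.specXMC sMCT sMC1 sXMA sXMB sFRG
theorem sXM3 : SpecXM3 :=
  DL.specXM3 sC20 sXCB sM9
theorem sXLF : SpecXLF :=
  DL.specXLF sME sEXM sCTA sCTB sCTF sTRA sXM3 sXC3 sC20 sS3F sPOL
theorem sXDM : SpecXDM :=
  DL.specXDM sFRG
theorem sXDD : SpecXDD :=
  DL.specXDD sDCB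
theorem sXDR : SpecXDR :=
  DL.specXDR sGLU sXDM sXDD
theorem sXTE : SpecXTE :=
  DL.specXTE
theorem sXRA : SpecXRA :=
  DL.specXRA sD4C sRT1 sC20 sXTE sSTA
theorem sXRB : SpecXRB :=
  DL.specXRB sC20
theorem sXRC : SpecXRC :=
  DL.specXRC
theorem sXRD : SpecXRD :=
  DL.specXRD sXRA sXRB sXRC
theorem sXU1 : SpecXU1 :=
  DL.specXU1 sXLF sXDR sXRD sGLU
theorem sXKA : SpecXKA :=
  DL.specXKA sFRG
theorem sXK1 : SpecXK1 :=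
  DL.specXK1 sKC0 sKDD sXKA sF1N sF2N sF4N sC20 sCRL sS3F sDST
theorem sXQ1 : SpecXQ1 :=
  DL.specXQ1 sXMC sXM3 sMNP sXU1 sXK1 sC20 sF1N sDST
theorem sXE2 : SpecXE2 :=
  DL.specXE2 sEXM sTRA sPOL
theorem sXLC : SpecXLC :=
  DL.specXLC
theorem sXL1 : SpecXL1 :=
  DL.specXL1 sTRE sDCB sC20
theorem sXL2 : SpecXL2 :=
  DL.specXL2 sTRE sDCB sC20
theorem sXL3 : SpecXL3 :=
  DL.specXL3 sD4C sRT1 sC20 sXTE
theorem sXL4 : SpecXL4 :=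
  DL.specXL4 sDCB sC20 sXCB
theorem sXLL : SpecXLL :=
  DL.specXLL sXLC sXL1 sXL2 sXL3 sXL4
theorem sXCD : SpecXCD :=
  DL.specXCD sXC3 sXCB sXCC sC20 sFRG
theorem sXU2 : SpecXU2 :=
  DL.specXU2 sME sGLU sXE2 sXLL sC20 sF1N sXCC sXCD sXCE sDST
theorem sXK2 : SpecXK2 :=
  DL.specXK2 sKCD sC20 sF1N sXCC sXCD sXC3 sS3F sDST
theorem sXC4 : SpecXC4 :=
  DL.specXC4 sC1L sC20 sXCB sXCD sXC3
theorem sXS4 : SpecXS4 :=
  DL.specXS4 sC20 sFRG sXC3 sXCB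
theorem sXN4 : SpecXN4 :=
  DL.specXN4 sXCC sVKA sKUR sNPC sTRC sXCB sC20 sFRG
theorem sXZ4 : SpecXZ4 :=
  DL.specXZ4 sXS4 sXN4 sXCB sNPC sKSU sDST
theorem sXQ2 : SpecXQ2 :=
  DL.specXQ2 sXU2 sXK2 sXC4 sXZ4
theorem sXPY : SpecXPY :=
  DL.specXPY sXCC sVKA sNPC sKUR sXCB sFRG
theorem sXTC : SpecXTC :=
  DL.specXTC sXA3 sCRL sDST sXCB
theorem sXTN : SpecXTN :=
  DL.specXTN sXPY sVKA sNPC sKUR sSTA sC20 sDST
theorem sXT3 : SpecXT3 :=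
  DL.specXT3 sXTC sXTN sTRI sC1L sXCB sFRG sDST
theorem sXI1 : SpecXI1 :=
  DL.specXI1 sXA3 sXPY sXT3 sX35 sDST
theorem sXF2 : SpecXF2 :=
  DL.specXF2 sXF1 sXCC sXCB
theorem sXF3 : SpecXF3 :=
  DL.specXF3 sXF1 sXCC sXCB
theorem sXF4 : SpecXF4 :=
  DL.specXF4 sFRG sXCB
theorem sXF6 : SpecXF6 :=
  DL.specXF6 sNPM
theorem sXF7 : SpecXF7 :=
  DL.specXF7 sNCG sNCN sGMC
theorem sXI3 : SpecXI3 :=
  DL.specXI3 sXA3 sXF2 sXF3 sXF4 sXF5 sXF6 sXF7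
theorem sXZ3 : SpecXZ3 :=
  DL.specXZ3 sXI1 sXI3 sX35 sXCB sDST
theorem sX33 : SpecX33 :=
  DL.specX33 sXQ1 sXQ2 sXZ3
theorem sXI3R : SpecXI3R :=
  DL.specXI3R sXA3 sXF2 sXF3 sXF4 sXF5 sXF6 sXF7
theorem sXZ3R : SpecXZ3R :=
  DL.specXZ3R sXI1 sXI3R sX35 sXCB sDST sR3B
theorem sX33E : SpecX33E :=
  DL.specX33E sXQ2 sXZ3R
theorem sXQ1R : SpecXQ1R :=
  DL.specXQ1R sXU1 sXK1 sC20 sF1N sDST
theorem sYC1 : SpecYC1 :=
  DL.specYC1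
theorem sYSB : SpecYSB :=
  DL.specYSB
theorem sYCT : SpecYCT :=
  DL.specYCT sYSB
theorem sYEQ : SpecYEQ :=
  DL.specYEQ
theorem sYNF : SpecYNF :=
  DL.specYNF sPOL
theorem sYPS : SpecYPS :=
  DL.specYPS sYSB sPOL
theorem sYIV : SpecYIV :=
  DL.specYIV sYSB
theorem sYKC : SpecYKC :=
  DL.specYKC sYC3
theorem sYF1 : SpecYF1 :=
  DL.specYF1 sYNF sYPS sYIV sYKC sPOL
theorem sYTC : SpecYTC :=
  DL.specYTC sYSB sYEQ
theorem sYFU : SpecYFU :=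
  DL.specYFU sYTC sYSB sPOL
theorem sYKF : SpecYKF :=
  DL.specYKF sYC3 sTRE sDCB
theorem sYKT : SpecYKT :=
  DL.specYKT sYEQ sKCD sC1L
theorem sYZS : SpecYZS :=
  DL.specYZS sVKA sKUR sTRC
theorem sYKZ : SpecYKZ :=
  DL.specYKZ sYZS sYCT sYTC sYEQ
theorem sYNP : SpecYNP :=
  DL.specYNP sYZS sYEQ sNPC
theorem sYTA : SpecYTA :=
  DL.specYTA sYTC sYEQ sCTD sDCB sTRE
theorem sYU0 : SpecYU0 :=
  DL.specYU0 sPOL sYTA sYNF sYPS sYIV sYTC sYFU sYEQ sYKC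
theorem sYT1 : SpecYT1 :=
  DL.specYT1 sYF1 sYKF sYEQ sCTA sCTB sCTD sYSB sPOL sDCB
theorem sYT2 : SpecYT2 :=
  DL.specYT2 sD4C sRT1 sPOL sDCB
theorem sYTU : SpecYTU :=
  DL.specYTU sYU0 sYT1 sYT2 sYEQ sFEV sPOL
theorem sYOK : SpecYOK :=
  DL.specYOK sLIV sYTU sYKZ sYKT sYC1 sYNP sYEQ
theorem sYRB : SpecYRB :=
  DL.specYRB sISO sCRL sNPC sDST
theorem sYRC : SpecYRC :=
  DL.specYRC
theorem sYRD : SpecYRD :=
  DL.specYRD sMEA sCTA sCTF sSEF sYRA sYRC sGLU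
theorem sYRE : SpecYRE :=
  DL.specYRE sYRA sEXM sTRA
theorem sYRG : SpecYRG :=
  DL.specYRG sD4C sRT1 sYRC sGLU
theorem sYRH : SpecYRH :=
  DL.specYRH sGLU
theorem sYRI : SpecYRI :=
  DL.specYRI sME sYRB sYRC sYRD sYRE sYRG sYRH sGLU
theorem sYR : SpecYR :=
  DL.specYR sYRI sYRJ sNPC sDST

end All
end DL
end

section
/-!
# MP_3ff0f8_gt, ALGEBRA HALF: THEOREM C without hypotheses (final assembly, helper25)

Every `D₄`-even function on the cycles of a graph in the class `I4` is in `F(G)`, if the graph is not planar in the sense of `NP`.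
-/
namespace DL

/-- rigid vertices of degree 4 which are no apices -/
theorem rnae : RNAE := specRNE All.sR1B All.sYR All.sRKZ All.sKS4 All.sCJ1 All.sDST All.sI33

/-- **THEOREM C** -/
theorem theoremC : TheoremC :=
  theoremC_ofE (topBase All.sPOL All.sDCB All.sFEV All.sKUR All.sVKA) All.sYOK All.sX33E All.sS1ME rnae All.sXQ1
    All.sE34 All.sE44 All.sE5Z All.sSX6

end DL
end
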